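import Mathlib

set_option autoImplicit false

namespace Pool.Agent.Work.MP_67388f_an

open MeasureTheory Filter Topology Matrix

/-- The measures `(g k) ν` converge to `ν` in total variation along the filter `l`. -/
def TVto {ι G X : Type*} [MeasurableSpace X] [SMul G X] (l : Filter ι) (g : ι → G)
    (ν : Measure X) : Prop :=
  ∀ ε : ℝ, 0 < ε → ∀ᶠ k in l, ∀ E : Set X, MeasurableSet E →
    ν.real ((fun z => g k • z) ⁻¹' E) ≤ ν.real E + ε

/-- The signed measure `φ μ` is invariant under `g`. -/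
def InvD {G X : Type*} [TopologicalSpace X] [MeasurableSpace X] [SMul G X] (μ : Measure X)
    (g : G) (φ : X → ℝ) : Prop :=
  ∀ θ : C(X, ℝ), HasCompactSupport θ → ∫ x, θ (g • x) * φ x ∂μ = ∫ x, θ x * φ x ∂μ

variable {n : ℕ}

/-- The weight of the entry `(i, j)` under conjugation by `diagonal α`. -/
noncomputable def wt (α : Fin n → ℝ) (i j : Fin n) : ℝ := Real.log (α i) - Real.log (α j)

/-- `u` is `1` plus entries of positive weight. -/
def IsUp (α : Fin n → ℝ) (u : SpecialLinearGroup (Fin n) ℝ) : Prop :=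
  ∀ i j, wt α i j ≤ 0 → u i j = (1 : Matrix (Fin n) (Fin n) ℝ) i j

/-- `u` has no entry of positive weight. -/
def IsLow (α : Fin n → ℝ) (u : SpecialLinearGroup (Fin n) ℝ) : Prop :=
  ∀ i j, 0 < wt α i j → u i j = 0

/-- Truncated exponential of `x Y`. -/
noncomputable def expo (Y : Matrix (Fin n) (Fin n) ℝ) (x : ℝ) : Matrix (Fin n) (Fin n) ℝ :=
  ∑ j ∈ Finset.range n, (x ^ j / (j.factorial : ℝ)) • Y ^ j

end Pool.Agent.Work.MP_67388f_an
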