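import Pool.Agent.Work.MP_67388f_an.TV.Defs

set_option autoImplicit false

namespace Pool.Agent.Work.MP_67388f_an

open MeasureTheory Filter Topology Matrix

variable {n : ℕ}

private lemma v_mul (b h : SpecialLinearGroup (Fin n) ℝ) : (b * h).1 = b.1 * h.1 := rfl

private lemma v_one : (1 : SpecialLinearGroup (Fin n) ℝ).1 = 1 := rfl

private lemma v_pow (b : SpecialLinearGroup (Fin n) ℝ) (m : ℕ) : (b ^ m).1 = b.1 ^ m :=
  Matrix.SpecialLinearGroup.coe_pow b m

private lemma e_one (i j : Fin n) :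
    (1 : SpecialLinearGroup (Fin n) ℝ) i j = (1 : Matrix (Fin n) (Fin n) ℝ) i j := rfl

private lemma blow_inv_entry (β : Fin n → ℝ) (hβ : ∀ i, 0 < β i)
    (b : SpecialLinearGroup (Fin n) ℝ) (hb : b.1 = diagonal β) :
    (b⁻¹).1 = diagonal (fun i => (β i)⁻¹) := by
  have h1 : b.1 * (b⁻¹).1 = 1 := by
    rw [← v_mul, mul_inv_cancel, v_one]
  have h2 : diagonal (fun i => (β i)⁻¹) * (b.1 * (b⁻¹).1) = diagonal (fun i => (β i)⁻¹) := by
    rw [h1, mul_one]
  rw [← h2, ← mul_assoc, hb, diagonal_mul_diagonal]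
  have : (fun i => (β i)⁻¹ * β i) = fun _ => (1 : ℝ) := by
    funext i; exact inv_mul_cancel₀ (hβ i).ne'
  rw [this, diagonal_one, one_mul]

private lemma blow_conj (β : Fin n → ℝ) (hβ : ∀ i, 0 < β i)
    (b h : SpecialLinearGroup (Fin n) ℝ) (hb : b.1 = diagonal β) (i j : Fin n) :
    (b * h * b⁻¹) i j = β i * (β j)⁻¹ * h i j := by
  have h1 : (b * h * b⁻¹).1 = diagonal β * h.1 * diagonal (fun i => (β i)⁻¹) := by
    rw [v_mul, v_mul, hb, blow_inv_entry β hβ b hb]
  have h2 : (b * h * b⁻¹) i j = (b * h * b⁻¹).1 i j := rfl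
  rw [h2, h1, mul_diagonal, diagonal_mul]
  ring

private lemma blow_conj' (β : Fin n → ℝ) (hβ : ∀ i, 0 < β i)
    (b h : SpecialLinearGroup (Fin n) ℝ) (hb : b.1 = diagonal β) (i j : Fin n) :
    (b⁻¹ * h * b) i j = (β i)⁻¹ * β j * h i j := by
  have h1 : (b⁻¹ * h * b).1 = diagonal (fun i => (β i)⁻¹) * h.1 * diagonal β := by
    rw [v_mul, v_mul, hb, blow_inv_entry β hβ b hb]
  have h2 : (b⁻¹ * h * b) i j = (b⁻¹ * h * b).1 i j := rfl
  rw [h2, h1, mul_diagonal, diagonal_mul]
  ring

private lemma blow_pow (α : Fin n → ℝ) (a : SpecialLinearGroup (Fin n) ℝ)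
    (ha : a.1 = diagonal α) (m : ℕ) : (a ^ m).1 = diagonal (fun i => α i ^ m) := by
  rw [v_pow, ha, diagonal_pow]
  rfl

private lemma blow_exp (α : Fin n → ℝ) (hα : ∀ i, 0 < α i) (m : ℕ) (i j : Fin n) :
    α i ^ m * (α j ^ m)⁻¹ = Real.exp (m * wt α i j) := by
  rw [wt, mul_sub, Real.exp_sub, ← Real.log_pow, ← Real.log_pow, Real.exp_log (pow_pos (hα i) m),
    Real.exp_log (pow_pos (hα j) m), div_eq_mul_inv]

private lemma blow_entry (α : Fin n → ℝ) (hα : ∀ i, 0 < α i)
    (a : SpecialLinearGroup (Fin n) ℝ) (ha : a.1 = diagonal α)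
    (h : SpecialLinearGroup (Fin n) ℝ) (m : ℕ) (i j : Fin n) :
    (a ^ m * h * (a ^ m)⁻¹) i j = Real.exp (m * wt α i j) * h i j := by
  rw [blow_conj (fun i => α i ^ m) (fun i => pow_pos (hα i) m) (a ^ m) h (blow_pow α a ha m),
    blow_exp α hα]

private lemma blow_entry' (α : Fin n → ℝ) (hα : ∀ i, 0 < α i)
    (a : SpecialLinearGroup (Fin n) ℝ) (ha : a.1 = diagonal α)
    (h : SpecialLinearGroup (Fin n) ℝ) (m : ℕ) (i j : Fin n) :
    ((a ^ m)⁻¹ * h * a ^ m) i j = Real.exp (-(m * wt α i j)) * h i j := by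
  rw [blow_conj' (fun i => α i ^ m) (fun i => pow_pos (hα i) m) (a ^ m) h (blow_pow α a ha m)]
  congr 1
  rw [mul_comm, blow_exp α hα]
  congr 1
  simp only [wt]
  ring

private lemma blow_cont_entry (i j : Fin n) :
    Continuous (fun h : SpecialLinearGroup (Fin n) ℝ => h i j) := by
  have : Continuous (fun h : SpecialLinearGroup (Fin n) ℝ => h.1) := continuous_subtype_val
  exact (continuous_apply j).comp ((continuous_apply i).comp this)

private lemma blow_tendsto {ι : Type*} (l : Filter ι) (f : ι → SpecialLinearGroup (Fin n) ℝ)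
    (w : SpecialLinearGroup (Fin n) ℝ) (h : ∀ i j, Tendsto (fun k => f k i j) l (𝓝 (w i j))) :
    Tendsto f l (𝓝 w) := by
  have h0 : Topology.IsInducing (fun h : SpecialLinearGroup (Fin n) ℝ => h.1) :=
    Topology.IsInducing.subtypeVal
  rw [h0.tendsto_nhds_iff]
  exact tendsto_pi_nhds.2 fun i => tendsto_pi_nhds.2 fun j => h i j

/-- contraction of the expanding group -/
theorem contract_up (α : Fin n → ℝ) (hα : ∀ i, 0 < α i) (a : SpecialLinearGroup (Fin n) ℝ)
    (ha : a.1 = diagonal α) (u : SpecialLinearGroup (Fin n) ℝ) (hu : IsUp α u) (m : ℕ → ℕ)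
    (U : Filter ℕ) (hm : Tendsto m U atTop) :
    Tendsto (fun k => (a ^ (m k))⁻¹ * u * a ^ (m k)) U (𝓝 1) := by
  apply blow_tendsto
  intro i j
  have h1 : ∀ k, ((a ^ (m k))⁻¹ * u * a ^ (m k)) i j = Real.exp (-((m k : ℝ) * wt α i j)) * u i j :=
    fun k => blow_entry' α hα a ha u (m k) i j
  simp_rw [h1]
  by_cases hw : wt α i j ≤ 0
  · have h2 := hu i j hw
    by_cases hij : i = j
    · subst hij
      have : wt α i i = 0 := by simp [wt]
      simp only [this, mul_zero, neg_zero, Real.exp_zero, one_mul]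
      rw [h2]
      exact tendsto_const_nhds
    · rw [h2, Matrix.one_apply_ne hij]
      have : (1 : SpecialLinearGroup (Fin n) ℝ) i j = 0 := by
        rw [e_one]; exact Matrix.one_apply_ne hij
      rw [this]
      simp only [mul_zero]
      exact tendsto_const_nhds
  · push Not at hw
    have hij : i ≠ j := by
      rintro rfl
      simp [wt] at hw
    have h3 : (1 : SpecialLinearGroup (Fin n) ℝ) i j = 0 := by
      rw [e_one]; exact Matrix.one_apply_ne hij
    rw [h3]
    have h4 : Tendsto (fun k => (m k : ℝ) * wt α i j) U atTop :=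
      (tendsto_natCast_atTop_atTop.comp hm).atTop_mul_const hw
    have h5 : Tendsto (fun k => Real.exp (-((m k : ℝ) * wt α i j))) U (𝓝 0) :=
      Real.tendsto_exp_neg_atTop_nhds_zero.comp h4
    simpa using h5.mul_const (u i j)

/-- size of the expanding part -/
private noncomputable def bsz (α : Fin n → ℝ) (h : SpecialLinearGroup (Fin n) ℝ) : ℝ :=
  ∑ i, ∑ j, if 0 < wt α i j then |h i j| ^ (1 / wt α i j) else 0

private lemma bsz_cont (α : Fin n → ℝ) : Continuous (bsz α) := by
  unfold bsz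
  refine continuous_finsetSum _ fun i _ => continuous_finsetSum _ fun j _ => ?_
  by_cases hw : 0 < wt α i j
  · simp only [hw, if_true]
    exact ((blow_cont_entry i j).abs).rpow_const fun h => Or.inr (by positivity)
  · simp only [hw, if_false]
    exact continuous_const

private lemma bsz_nonneg (α : Fin n → ℝ) (h : SpecialLinearGroup (Fin n) ℝ) : 0 ≤ bsz α h := by
  refine Finset.sum_nonneg fun i _ => Finset.sum_nonneg fun j _ => ?_
  split_ifs <;> positivity

private lemma bsz_entry (α : Fin n → ℝ) (h : SpecialLinearGroup (Fin n) ℝ) (i j : Fin n)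
    (hw : 0 < wt α i j) : |h i j| ^ (1 / wt α i j) ≤ bsz α h := by
  have h1 : (if 0 < wt α i j then |h i j| ^ (1 / wt α i j) else 0) = |h i j| ^ (1 / wt α i j) :=
    if_pos hw
  have hn : ∀ i j, 0 ≤ (if 0 < wt α i j then |h i j| ^ (1 / wt α i j) else 0) := by
    intro i j; split_ifs <;> positivity
  calc |h i j| ^ (1 / wt α i j) = (if 0 < wt α i j then |h i j| ^ (1 / wt α i j) else 0) := h1.symm
    _ ≤ ∑ j, (if 0 < wt α i j then |h i j| ^ (1 / wt α i j) else 0) :=
        Finset.single_le_sum (f := fun j => (if 0 < wt α i j then |h i j| ^ (1 / wt α i j) else 0))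
          (fun j _ => hn i j) (Finset.mem_univ j)
    _ ≤ bsz α h :=
        Finset.single_le_sum
          (f := fun i => ∑ j, (if 0 < wt α i j then |h i j| ^ (1 / wt α i j) else 0))
          (fun i _ => Finset.sum_nonneg fun j _ => hn i j) (Finset.mem_univ i)

private lemma bsz_low (α : Fin n → ℝ) (h : SpecialLinearGroup (Fin n) ℝ) :
    bsz α h = 0 ↔ IsLow α h := by
  constructor
  · intro h0 i j hw
    have h1 := bsz_entry α h i j hw
    rw [h0] at h1
    by_contra hne
    have : 0 < |h i j| ^ (1 / wt α i j) := Real.rpow_pos_of_pos (abs_pos.mpr hne) _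
    linarith
  · intro hl
    refine Finset.sum_eq_zero fun i _ => Finset.sum_eq_zero fun j _ => ?_
    split_ifs with hw
    · rw [hl i j hw, abs_zero, Real.zero_rpow]
      positivity
    · rfl

private lemma low_one (α : Fin n → ℝ) : IsLow α (1 : SpecialLinearGroup (Fin n) ℝ) := by
  intro i j hw
  have hij : i ≠ j := by
    rintro rfl
    simp [wt] at hw
  rw [e_one]; exact Matrix.one_apply_ne hij

private lemma bsz_one (α : Fin n → ℝ) : bsz α (1 : SpecialLinearGroup (Fin n) ℝ) = 0 :=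
  (bsz_low α 1).2 (low_one α)

private lemma bsz_conj (α : Fin n → ℝ) (hα : ∀ i, 0 < α i)
    (a : SpecialLinearGroup (Fin n) ℝ) (ha : a.1 = diagonal α)
    (h : SpecialLinearGroup (Fin n) ℝ) (m : ℕ) :
    bsz α (a ^ m * h * (a ^ m)⁻¹) = Real.exp m * bsz α h := by
  unfold bsz
  rw [Finset.mul_sum]
  refine Finset.sum_congr rfl fun i _ => ?_
  rw [Finset.mul_sum]
  refine Finset.sum_congr rfl fun j _ => ?_
  split_ifs with hw
  · rw [blow_entry α hα a ha h m i j, abs_mul, abs_of_pos (Real.exp_pos _),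
      Real.mul_rpow (Real.exp_pos _).le (abs_nonneg _), ← Real.exp_mul]
    congr 2
    field_simp
  · simp

private lemma isClosedEmbedding_coe :
    IsClosedEmbedding (fun h : SpecialLinearGroup (Fin n) ℝ => h.1) := by
  refine IsClosed.isClosedEmbedding_subtypeVal ?_
  exact isClosed_eq (by fun_prop) continuous_const

private lemma box_compact (b : Matrix (Fin n) (Fin n) ℝ) (C : ℝ) :
    IsCompact {h : SpecialLinearGroup (Fin n) ℝ | ∀ i j, |h i j - b i j| ≤ C} := by
  have h1 : IsCompact (Set.pi Set.univ fun i : Fin n => Set.pi Set.univ fun j : Fin n =>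
      Set.Icc (b i j - C) (b i j + C)) :=
    isCompact_univ_pi fun i => isCompact_univ_pi fun j => isCompact_Icc
  have h2 := (isClosedEmbedding_coe (n := n)).isCompact_preimage h1
  convert h2 using 1
  ext h
  constructor
  · intro H i _ j _
    have h3 := abs_le.1 (H i j)
    have h4 : h i j = h.1 i j := rfl
    exact Set.mem_Icc.2 ⟨by linarith [h3.1], by linarith [h3.2]⟩
  · intro H i j
    have h3 := Set.mem_Icc.1 (H i (Set.mem_univ i) j (Set.mem_univ j))
    have h4 : h i j = h.1 i j := rfl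
    exact abs_le.2 ⟨by linarith [h3.1], by linarith [h3.2]⟩

private lemma up_low_one (α : Fin n → ℝ) (v : SpecialLinearGroup (Fin n) ℝ) (h1 : IsUp α v)
    (h2 : IsLow α v) : v = 1 := by
  apply Subtype.ext
  ext i j
  have h3 : v.1 i j = v i j := rfl
  rw [h3]
  by_cases hw : wt α i j ≤ 0
  · rw [h1 i j hw]; rfl
  · push Not at hw
    rw [h2 i j hw]
    exact (low_one α i j hw).symm

/-- Blow-up: a sequence tending to the identity either lies in `Sp · Low`, or some renormalization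
of it converges to an element of the expanding group outside `Sp`. -/
theorem blowup (α : Fin n → ℝ) (hα : ∀ i, 0 < α i) (a : SpecialLinearGroup (Fin n) ℝ)
    (ha : a.1 = diagonal α) (Sp : Subgroup (SpecialLinearGroup (Fin n) ℝ))
    (hcl : IsClosed (Sp : Set (SpecialLinearGroup (Fin n) ℝ))) (hup : ∀ u ∈ Sp, IsUp α u)
    (hconj : ∀ u ∈ Sp, a⁻¹ * u * a ∈ Sp) (g : ℕ → SpecialLinearGroup (Fin n) ℝ)
    (hg : Tendsto g atTop (𝓝 1)) :
    ∃ u : ℕ → SpecialLinearGroup (Fin n) ℝ, (∀ k, u k ∈ Sp) ∧ Tendsto u atTop (𝓝 1) ∧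
      ((∀ᶠ k in atTop, IsLow α ((u k)⁻¹ * g k)) ∨
        ∃ U : Ultrafilter ℕ, (U : Filter ℕ) ≤ atTop ∧ ∃ (m : ℕ → ℕ)
          (w : SpecialLinearGroup (Fin n) ℝ),
          Tendsto (fun k => a ^ (m k) * ((u k)⁻¹ * g k) * (a ^ (m k))⁻¹) U (𝓝 w) ∧
          IsUp α w ∧ w ∉ Sp) := by
  set K : Set (SpecialLinearGroup (Fin n) ℝ) :=
    {h : SpecialLinearGroup (Fin n) ℝ | ∀ i j, |h i j - (1 : Matrix (Fin n) (Fin n) ℝ) i j| ≤ 1} ∩
      (Sp : Set (SpecialLinearGroup (Fin n) ℝ)) with hK
  have hKc : IsCompact K := (box_compact 1 1).inter_right hcl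
  have h1K : (1 : SpecialLinearGroup (Fin n) ℝ) ∈ K := by
    refine ⟨fun i j => ?_, Sp.one_mem⟩
    rw [e_one]
    simp
  have hmin : ∀ k, ∃ u ∈ K, ∀ v ∈ K, bsz α (u⁻¹ * g k) ≤ bsz α (v⁻¹ * g k) := by
    intro k
    have hc : ContinuousOn (fun u => bsz α (u⁻¹ * g k)) K :=
      ((bsz_cont α).comp (continuous_inv.mul continuous_const)).continuousOn
    obtain ⟨u, hu, hu2⟩ := hKc.exists_isMinOn ⟨1, h1K⟩ hc
    exact ⟨u, hu, fun v hv => hu2 hv⟩
  choose u huK humin using hmin
  have huSp : ∀ k, u k ∈ Sp := fun k => (huK k).2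
  have hs0 : Tendsto (fun k => bsz α (g k)) atTop (𝓝 0) := by
    have := ((bsz_cont α).tendsto 1).comp hg
    rwa [bsz_one] at this
  have hs1 : ∀ k, bsz α ((u k)⁻¹ * g k) ≤ bsz α (g k) := by
    intro k
    have := humin k 1 h1K
    simpa using this
  have hs : Tendsto (fun k => bsz α ((u k)⁻¹ * g k)) atTop (𝓝 0) :=
    squeeze_zero (fun k => bsz_nonneg α _) hs1 hs0
  have hu1 : Tendsto u atTop (𝓝 1) := by
    rw [tendsto_iff_ultrafilter]
    intro V hV
    have hV2 : K ∈ (V.map u : Filter _) := by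
      rw [Ultrafilter.coe_map, mem_map]
      exact Filter.Eventually.of_forall huK
    obtain ⟨v, hvK, hv⟩ := hKc.ultrafilter_le_nhds' (V.map u) hV2
    have hv' : Tendsto u V (𝓝 v) := hv
    have h3 : Tendsto (fun k => bsz α ((u k)⁻¹ * g k)) V (𝓝 (bsz α (v⁻¹ * 1))) :=
      ((bsz_cont α).tendsto _).comp ((hv'.inv).mul (hg.mono_left hV))
    have h4 : bsz α (v⁻¹ * 1) = 0 := tendsto_nhds_unique h3 (hs.mono_left hV)
    rw [mul_one] at h4
    have h5 : v⁻¹ = 1 := up_low_one α _ (hup _ (Sp.inv_mem hvK.2)) ((bsz_low α _).1 h4)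
    have h6 : v = 1 := by rwa [inv_eq_one] at h5
    rw [← h6]
    exact hv
  have hh : Tendsto (fun k => (u k)⁻¹ * g k) atTop (𝓝 1) := by
    have := (hu1.inv).mul hg
    simpa using this
  refine ⟨u, huSp, hu1, ?_⟩
  by_cases hev : ∀ᶠ k in atTop, IsLow α ((u k)⁻¹ * g k)
  · exact Or.inl hev
  right
  have hfr : ∃ᶠ k in atTop, ¬ IsLow α ((u k)⁻¹ * g k) := by
    rwa [Filter.not_eventually] at hev
  have hne : (atTop ⊓ 𝓟 {k : ℕ | ¬ IsLow α ((u k)⁻¹ * g k)}).NeBot :=
    Filter.frequently_mem_iff_neBot.1 hfr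
  obtain ⟨U, hU⟩ := Ultrafilter.exists_le (atTop ⊓ 𝓟 {k : ℕ | ¬ IsLow α ((u k)⁻¹ * g k)})
  have hU1 : (U : Filter ℕ) ≤ atTop := hU.trans inf_le_left
  have hU2 : ∀ᶠ k in (U : Filter ℕ), ¬ IsLow α ((u k)⁻¹ * g k) :=
    (hU.trans inf_le_right) (mem_principal_self _)
  set s : ℕ → ℝ := fun k => bsz α ((u k)⁻¹ * g k) with hsdef
  have hspos : ∀ᶠ k in (U : Filter ℕ), 0 < s k := by
    filter_upwards [hU2] with k hk
    rcases (bsz_nonneg α ((u k)⁻¹ * g k)).lt_or_eq with h | h
    · exact h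
    · exact absurd ((bsz_low α _).1 h.symm) hk
  have hsU : Tendsto s U (𝓝 0) := hs.mono_left hU1
  set m : ℕ → ℕ := fun k => ⌈Real.log (1 / s k)⌉₊ with hm
  have hsU' : Tendsto s U (𝓝[>] 0) := tendsto_nhdsWithin_iff.2 ⟨hsU, hspos⟩
  have hlog : Tendsto (fun k => Real.log (1 / s k)) U atTop := by
    have h1 : Tendsto (fun k => 1 / s k) U atTop := by
      have := (tendsto_inv_nhdsGT_zero (𝕜 := ℝ)).comp hsU'
      simp only [one_div]
      exact this
    exact Real.tendsto_log_atTop.comp h1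
  have hmU : Tendsto m U atTop := tendsto_nat_ceil_atTop.comp hlog
  have hes : ∀ᶠ k in (U : Filter ℕ), 1 ≤ Real.exp (m k) * s k ∧ Real.exp (m k) * s k ≤ Real.exp 1 := by
    filter_upwards [hspos, hlog.eventually_ge_atTop 0] with k hk hk2
    have h1 : Real.log (1 / s k) ≤ m k := Nat.le_ceil _
    have h2 : (m k : ℝ) < Real.log (1 / s k) + 1 := Nat.ceil_lt_add_one hk2
    have h3 : Real.exp (Real.log (1 / s k)) = 1 / s k := Real.exp_log (by positivity)
    constructor
    · calc (1 : ℝ) = 1 / s k * s k := by field_simp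
        _ ≤ Real.exp (m k) * s k := by
            apply mul_le_mul_of_nonneg_right _ hk.le
            rw [← h3]
            exact Real.exp_le_exp.2 h1
    · calc Real.exp (m k) * s k ≤ Real.exp (Real.log (1 / s k) + 1) * s k :=
            mul_le_mul_of_nonneg_right (Real.exp_le_exp.2 h2.le) hk.le
        _ = Real.exp 1 := by
            rw [Real.exp_add, h3]; field_simp
  set W : ℕ → SpecialLinearGroup (Fin n) ℝ :=
    fun k => a ^ (m k) * ((u k)⁻¹ * g k) * (a ^ (m k))⁻¹ with hW
  have hWe : ∀ k i j, W k i j = Real.exp ((m k : ℝ) * wt α i j) * ((u k)⁻¹ * g k) i j :=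
    fun k i j => blow_entry α hα a ha _ (m k) i j
  have hWs : ∀ k, bsz α (W k) = Real.exp (m k) * s k := fun k => bsz_conj α hα a ha _ (m k)
  have hhU : ∀ i j, Tendsto (fun k => ((u k)⁻¹ * g k) i j) U
      (𝓝 ((1 : SpecialLinearGroup (Fin n) ℝ) i j)) := fun i j =>
    ((blow_cont_entry i j).tendsto 1).comp (hh.mono_left hU1)
  -- limits of the entries of nonpositive weight
  have hlim : ∀ i j, wt α i j ≤ 0 → Tendsto (fun k => W k i j) U
      (𝓝 ((1 : SpecialLinearGroup (Fin n) ℝ) i j)) := by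
    intro i j hw
    simp_rw [hWe]
    rcases hw.lt_or_eq with hw | hw
    · have hij : i ≠ j := by
        rintro rfl
        simp [wt] at hw
      have h3 : (1 : SpecialLinearGroup (Fin n) ℝ) i j = 0 := by
        rw [e_one]; exact Matrix.one_apply_ne hij
      have h4 : Tendsto (fun k => (m k : ℝ) * wt α i j) U atBot :=
        (tendsto_natCast_atTop_atTop.comp hmU).atTop_mul_const_of_neg hw
      have h5 : Tendsto (fun k => Real.exp ((m k : ℝ) * wt α i j)) U (𝓝 0) :=
        Real.tendsto_exp_atBot.comp h4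
      have h6 := h5.mul (hhU i j)
      rw [zero_mul] at h6
      rw [h3]
      exact h6
    · simp only [hw, mul_zero, Real.exp_zero, one_mul]
      exact hhU i j
  -- bounded
  obtain ⟨C, hC0, hC⟩ : ∃ C : ℝ, 0 ≤ C ∧ ∀ i j : Fin n, Real.exp (wt α i j) ≤ C := by
    refine ⟨∑ i, ∑ j, Real.exp (wt α i j), by positivity, fun i j => ?_⟩
    calc Real.exp (wt α i j) ≤ ∑ j, Real.exp (wt α i j) :=
          Finset.single_le_sum (f := fun j => Real.exp (wt α i j))
            (fun j _ => (Real.exp_pos _).le) (Finset.mem_univ j)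
      _ ≤ _ := Finset.single_le_sum (f := fun i => ∑ j, Real.exp (wt α i j))
            (fun i _ => by positivity) (Finset.mem_univ i)
  have hbd : ∀ᶠ k in (U : Filter ℕ), ∀ i j, |W k i j - (0 : Matrix (Fin n) (Fin n) ℝ) i j| ≤ C + 2 := by
    have h1 : ∀ i j, ∀ᶠ k in (U : Filter ℕ), |W k i j| ≤ C + 2 := by
      intro i j
      by_cases hw : wt α i j ≤ 0
      · have h2 := (hlim i j hw).abs
        have h3 : |(1 : SpecialLinearGroup (Fin n) ℝ) i j| < C + 2 := by
          have : |(1 : Matrix (Fin n) (Fin n) ℝ) i j| ≤ 1 := by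
            rw [Matrix.one_apply]; split_ifs <;> simp
          rw [e_one]
          linarith
        filter_upwards [h2.eventually_lt_const h3] with k hk using hk.le
      · push Not at hw
        filter_upwards [hes] with k hk
        have h2 := bsz_entry α (W k) i j hw
        rw [hWs] at h2
        have h3 : |W k i j| ^ (1 / wt α i j) ≤ Real.exp 1 := h2.trans hk.2
        have h4 : |W k i j| ≤ Real.exp (wt α i j) := by
          have h5 : (|W k i j| ^ (1 / wt α i j)) ^ (wt α i j) ≤ (Real.exp 1) ^ (wt α i j) :=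
            Real.rpow_le_rpow (Real.rpow_nonneg (abs_nonneg _) _) h3 hw.le
          rw [← Real.rpow_mul (abs_nonneg _), one_div, inv_mul_cancel₀ hw.ne', Real.rpow_one,
            ← Real.exp_mul, one_mul] at h5
          exact h5
        linarith [hC i j]
    have h2 := eventually_all.2 fun i => eventually_all.2 fun j => h1 i j
    filter_upwards [h2] with k hk i j
    simpa using hk i j
  obtain ⟨w, -, hw⟩ := (box_compact (n := n) 0 (C + 2)).ultrafilter_le_nhds' (U.map W) (by
    rw [← Ultrafilter.mem_coe, Ultrafilter.coe_map, mem_map]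
    exact hbd)
  have hWw : Tendsto W U (𝓝 w) := hw
  have hWwe : ∀ i j, Tendsto (fun k => W k i j) U (𝓝 (w i j)) := fun i j =>
    ((blow_cont_entry i j).tendsto w).comp hWw
  refine ⟨U, hU1, m, w, hWw, ?_, ?_⟩
  · intro i j hij
    exact tendsto_nhds_unique (hWwe i j) (hlim i j hij)
  · intro hwSp
    -- iterate the conjugation
    have hpow : ∀ (r : ℕ), (a ^ r)⁻¹ * w * a ^ r ∈ Sp := by
      intro r
      induction r with
      | zero => simpa using hwSp
      | succ r ih =>
        have := hconj _ ih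
        have h2 : a⁻¹ * ((a ^ r)⁻¹ * w * a ^ r) * a = (a ^ (r + 1))⁻¹ * w * a ^ (r + 1) := by
          rw [pow_succ, _root_.mul_inv_rev]; group
        rwa [h2] at this
    have hv : Tendsto (fun k => (a ^ (m k))⁻¹ * w * a ^ (m k)) U (𝓝 1) :=
      contract_up α hα a ha w (hup w hwSp) m U hmU
    have huv : Tendsto (fun k => u k * ((a ^ (m k))⁻¹ * w * a ^ (m k))) U (𝓝 1) := by
      have := (hu1.mono_left hU1).mul hv
      simpa using this
    have hin : ∀ᶠ k in (U : Filter ℕ), u k * ((a ^ (m k))⁻¹ * w * a ^ (m k)) ∈ K := by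
      have h1 : ∀ i j, ∀ᶠ k in (U : Filter ℕ),
          |(u k * ((a ^ (m k))⁻¹ * w * a ^ (m k))) i j - (1 : Matrix (Fin n) (Fin n) ℝ) i j| ≤ 1 := by
        intro i j
        have h2 := ((blow_cont_entry i j).tendsto 1).comp huv
        have h3 := (h2.sub_const ((1 : SpecialLinearGroup (Fin n) ℝ) i j)).abs
        rw [sub_self, abs_zero] at h3
        filter_upwards [h3.eventually_lt_const one_pos] with k hk
        exact hk.le
      have h2 := eventually_all.2 fun i => eventually_all.2 fun j => h1 i j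
      filter_upwards [h2] with k hk
      exact ⟨hk, Sp.mul_mem (huSp k) (hpow (m k))⟩
    have hge : ∀ᶠ k in (U : Filter ℕ), 1 ≤ bsz α (w⁻¹ * W k) := by
      filter_upwards [hin, hes] with k hk hk2
      have h1 := humin k _ hk
      have h2 : bsz α (w⁻¹ * W k) = Real.exp (m k) *
          bsz α ((u k * ((a ^ (m k))⁻¹ * w * a ^ (m k)))⁻¹ * g k) := by
        rw [← bsz_conj α hα a ha]
        congr 1
        rw [hW]
        simp only
        group
      rw [h2]
      calc (1 : ℝ) ≤ Real.exp (m k) * s k := hk2.1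
        _ ≤ _ := mul_le_mul_of_nonneg_left h1 (Real.exp_pos _).le
    have hlim2 : Tendsto (fun k => bsz α (w⁻¹ * W k)) U (𝓝 (bsz α (w⁻¹ * w))) :=
      ((bsz_cont α).tendsto _).comp (tendsto_const_nhds.mul hWw)
    rw [inv_mul_cancel, bsz_one] at hlim2
    have := ge_of_tendsto hlim2 hge
    linarith

end Pool.Agent.Work.MP_67388f_an
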