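import Pool.Agent.Work.MP_67388f_an.TV.Defs

set_option autoImplicit false

namespace Pool.Agent.Work.MP_67388f_an

open MeasureTheory Filter Topology Matrix

section general

variable {X : Type*} [TopologicalSpace X] [LocallyCompactSpace X] [T2Space X]
  [SecondCountableTopology X] [MeasurableSpace X] [BorelSpace X]
variable {G : Type*} [Group G] [TopologicalSpace G] [IsTopologicalGroup G] [MulAction G X]
  [ContinuousSMul G X]

private theorem inv_comp (g : G) (θ : C(X, ℝ)) (hθ : HasCompactSupport θ) :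
    ∃ θ' : C(X, ℝ), HasCompactSupport θ' ∧ ∀ x, θ' x = θ (g • x) :=
  ⟨⟨fun x => θ (g • x), θ.continuous.comp (continuous_const_smul g)⟩,
    hθ.comp_homeomorph (Homeomorph.smul g), fun _ => rfl⟩

theorem invD_mul (μ : Measure X) (φ : X → ℝ) (g h : G) (hg : InvD μ g φ) (hh : InvD μ h φ) :
    InvD μ (g * h) φ := by
  intro θ hθ
  obtain ⟨θ', hθ', hx⟩ := inv_comp g θ hθ
  have h1 := hh θ' hθ'
  have h2 := hg θ hθ
  simp only [hx] at h1
  simp only [mul_smul]
  rw [h1, h2]

theorem invD_inv (μ : Measure X) (φ : X → ℝ) (g : G) (hg : InvD μ g φ) : InvD μ g⁻¹ φ := by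
  intro θ hθ
  obtain ⟨θ', hθ', hx⟩ := inv_comp g⁻¹ θ hθ
  have h1 := hg θ' hθ'
  simp only [hx, inv_smul_smul] at h1
  exact h1.symm

theorem invD_one (μ : Measure X) (φ : X → ℝ) : InvD μ (1 : G) φ := by
  intro θ _
  simp only [one_smul]

/-- Change of variables: if `φ μ` is `g`-invariant and `a` preserves `μ` then `(φ ∘ a⁻¹) μ` is
invariant under `a g a⁻¹`. -/
theorem invD_conj (μ : Measure X) [IsFiniteMeasure μ] (φ : X → ℝ) (g a : G)
    (ha : μ.map (fun z => a • z) = μ) (hg : InvD μ g φ) :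
    InvD μ (a * g * a⁻¹) (fun x => φ (a⁻¹ • x)) := by
  have hcv : ∀ F : X → ℝ, ∫ x, F x ∂μ = ∫ x, F (a • x) ∂μ := by
    intro F
    conv_lhs => rw [← ha]
    exact (Homeomorph.smul a).measurableEmbedding.integral_map F
  intro θ hθ
  obtain ⟨θ', hθ', hx⟩ := inv_comp a θ hθ
  have h1 := hg θ' hθ'
  rw [hcv (fun x => θ ((a * g * a⁻¹) • x) * φ (a⁻¹ • x)), hcv (fun x => θ x * φ (a⁻¹ • x))]
  simp only [hx] at h1
  simp only [mul_smul, inv_smul_smul]
  exact h1

end general

end Pool.Agent.Work.MP_67388f_an
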