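import Pool.Agent.Work.MP_67388f_an.TV.Grade

set_option autoImplicit false

namespace Pool.Agent.Work.MP_67388f_an

open MeasureTheory Filter Topology Matrix

variable {n : ℕ}

private lemma peel_expo_apply (α : Fin n → ℝ) {Y : Matrix (Fin n) (Fin n) ℝ} {l : ℝ} (hl : 0 < l)
    (hY : ∀ i j, wt α i j ≠ l → Y i j = 0) (i j : Fin n) (hij : wt α i j < 2 * l) :
    expo Y 1 i j = (1 : Matrix (Fin n) (Fin n) ℝ) i j + Y i j := by
  classical
  have hn : 0 < n := lt_of_le_of_lt (Nat.zero_le _) i.2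
  unfold expo
  rw [Matrix.sum_apply]
  have hterm : ∀ r ∈ Finset.range n, ((1 : ℝ) ^ r / (r.factorial : ℝ)) • (Y ^ r) i j =
      (if r = 0 then (1 : Matrix (Fin n) (Fin n) ℝ) i j else 0) + (if r = 1 then Y i j else 0) := by
    intro r _
    rcases Nat.lt_or_ge r 2 with h | h
    · interval_cases r
      · simp
      · simp
    · have h1 : (Y ^ r) i j = 0 := by
        apply gr_pow α (l := l) _ r i j
        · have h2 : (2 : ℝ) ≤ r := by exact_mod_cast h
          nlinarith
        · intro i j h; exact hY i j (ne_of_lt h)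
      rw [h1, if_neg (by omega), if_neg (by omega)]
      simp
  have h1 : ∀ r ∈ Finset.range n, (((1 : ℝ) ^ r / (r.factorial : ℝ)) • Y ^ r) i j =
      (if r = 0 then (1 : Matrix (Fin n) (Fin n) ℝ) i j else 0) + (if r = 1 then Y i j else 0) := by
    intro r hr
    rw [Matrix.smul_apply]
    exact hterm r hr
  rw [Finset.sum_congr rfl h1, Finset.sum_add_distrib, Finset.sum_ite_eq', Finset.sum_ite_eq',
    if_pos (Finset.mem_range.2 hn)]
  congr 1
  by_cases h2 : 1 ∈ Finset.range n
  · rw [if_pos h2]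
  · rw [if_neg h2]
    rw [Finset.mem_range] at h2
    have h3 : n = 1 := by omega
    subst h3
    have h4 : i = j := Subsingleton.elim _ _
    rw [h4, hY j j (by rw [wt_self]; exact ne_of_lt hl)]

/-- peeling off the lowest component -/
theorem peel (α : Fin n → ℝ) (w e : SpecialLinearGroup (Fin n) ℝ) (hw : IsUp α w) (l : ℝ)
    (hl : 0 < l) (hlow : ∀ i j, 0 < wt α i j → wt α i j < l → w i j = 0)
    (Y : Matrix (Fin n) (Fin n) ℝ) (hY : ∀ i j, Y i j = if wt α i j = l then w i j else 0)
    (he : e.1 = expo Y 1) :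
    IsUp α e ∧ IsUp α (e⁻¹ * w) ∧ ∀ i j, 0 < wt α i j → wt α i j ≤ l → (e⁻¹ * w) i j = 0 := by
  classical
  have hY0 : ∀ i j, wt α i j ≠ l → Y i j = 0 := fun i j h => by rw [hY, if_neg h]
  have hupe : IsUp α e := by
    intro i j hij
    show e.1 i j = _
    rw [he, peel_expo_apply α hl hY0 i j (by linarith), hY0 i j (by linarith), add_zero]
  have hup : IsUp α (e⁻¹ * w) := hupe.inv.mul hw
  refine ⟨hupe, hup, ?_⟩
  intro i j hij0 hijl
  have hne : i ≠ j := by
    rintro rfl
    rw [wt_self] at hij0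
    exact lt_irrefl _ hij0
  -- w - e has entries of weight > l only
  have hQ : ∀ i j, wt α i j ≤ l → (w.1 - e.1) i j = 0 := by
    intro i j h
    rw [Matrix.sub_apply, he, peel_expo_apply α hl hY0 i j (by linarith)]
    rcases le_or_gt (wt α i j) 0 with h0 | h0
    · have h1 : w.1 i j = (1 : Matrix (Fin n) (Fin n) ℝ) i j := hw i j h0
      rw [h1, hY0 i j (by linarith)]
      ring
    · have hne' : i ≠ j := by
        rintro rfl
        rw [wt_self] at h0
        exact lt_irrefl _ h0
      rcases lt_or_eq_of_le h with h2 | h2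
      · have h1 : w.1 i j = 0 := hlow i j h0 h2
        rw [h1, hY0 i j (ne_of_lt h2), one_apply_ne hne']
        ring
      · rw [hY i j, if_pos h2, one_apply_ne hne']
        show w.1 i j - (0 + w.1 i j) = 0
        ring
  set v : Matrix (Fin n) (Fin n) ℝ := (e⁻¹ : SpecialLinearGroup (Fin n) ℝ).1 with hv
  have hve : v * e.1 = 1 := congrArg Subtype.val (inv_mul_cancel e)
  have h1 : v * w.1 = 1 + v * (w.1 - e.1) := by
    rw [mul_sub, hve]
    abel
  have h2 : (v * (w.1 - e.1)) i j = 0 := by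
    rw [mul_apply]
    apply Finset.sum_eq_zero
    intro k _
    by_cases h : wt α i k < 0
    · have h3 : v i k = (1 : Matrix (Fin n) (Fin n) ℝ) i k := hupe.inv i k h.le
      have h4 : i ≠ k := by
        rintro rfl
        rw [wt_self] at h
        exact lt_irrefl _ h
      rw [h3, one_apply_ne h4, zero_mul]
    · rw [hQ k j, mul_zero]
      have := wt_add α i k j
      linarith
  show (v * w.1) i j = 0
  rw [h1, Matrix.add_apply, h2, one_apply_ne hne, add_zero]

theorem expo_conj (β : Fin n → ℝ) (b e e' : SpecialLinearGroup (Fin n) ℝ)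
    (hb : b.1 = diagonal β) (Y : Matrix (Fin n) (Fin n) ℝ) (c x : ℝ)
    (hc : ∀ i j, Y i j ≠ 0 → β i = c * β j) (he : e.1 = expo Y x) (he' : e'.1 = expo Y (c * x)) :
    b * e * b⁻¹ = e' := by
  classical
  rw [mul_inv_eq_iff_eq_mul]
  apply Subtype.ext
  show b.1 * e.1 = e'.1 * b.1
  have h1 : b.1 * Y = c • (Y * b.1) := by
    ext i j
    rw [hb, diagonal_mul, Matrix.smul_apply, mul_diagonal, smul_eq_mul]
    by_cases h : Y i j = 0
    · rw [h]; ring
    · rw [hc i j h]; ring
  have h2 : ∀ r : ℕ, b.1 * Y ^ r = c ^ r • (Y ^ r * b.1) := by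
    intro r
    induction r with
    | zero => simp
    | succ r ih =>
      rw [pow_succ, ← mul_assoc, ih, smul_mul_assoc, mul_assoc, h1, mul_smul_comm, smul_smul,
        ← pow_succ, ← mul_assoc]
  rw [he, he']
  unfold expo
  rw [Finset.mul_sum, Finset.sum_mul]
  refine Finset.sum_congr rfl fun r _ => ?_
  rw [mul_smul_comm, h2, smul_smul, smul_mul_assoc]
  congr 1
  rw [mul_pow]
  ring

/-- the elements `expo Y x` form a one-parameter group -/
theorem expo_neg (α : Fin n → ℝ) (Y : Matrix (Fin n) (Fin n) ℝ) (l : ℝ) (hl : 0 < l)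
    (hY : ∀ i j, wt α i j ≠ l → Y i j = 0) (x : ℝ) (e e' : SpecialLinearGroup (Fin n) ℝ)
    (he : e.1 = expo Y x) (he' : e'.1 = expo Y (-x)) : e' = e⁻¹ := by
  classical
  have hnil : Y ^ n = 0 := by
    apply gr_nil α _ n le_rfl
    intro i j h
    exact hY i j (by linarith)
  have hxn : IsNilpotent (x • Y) := ⟨n, by rw [smul_pow, hnil, smul_zero]⟩
  apply eq_inv_of_mul_eq_one_left
  apply Subtype.ext
  show e'.1 * e.1 = 1
  rw [he, he', gr_expo Y hnil, gr_expo Y hnil, neg_smul]
  exact IsNilpotent.exp_neg_mul_exp_self hxn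

end Pool.Agent.Work.MP_67388f_an
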