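import Pool.Agent.Work.MP_67388f_an.TV.Grade

set_option autoImplicit false

namespace Pool.Agent.Work.MP_67388f_an

open MeasureTheory Filter Topology Matrix

variable {n : ℕ}

private lemma pow_floor (x l : ℝ) (hx : 0 ≤ x) (hl : 0 < l) :
    Tendsto (fun m : ℕ => ((⌊x * Real.exp (l * m)⌋₊ : ℕ) : ℝ) * Real.exp (-(l * m))) atTop
      (𝓝 x) := by
  have h1 : Tendsto (fun m : ℕ => Real.exp (l * m)) atTop atTop := by
    apply Real.tendsto_exp_atTop.comp
    exact (tendsto_natCast_atTop_atTop).const_mul_atTop hl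
  have h2 : Tendsto (fun y : ℝ => ((⌊x * y⌋₊ : ℕ) : ℝ) / y) atTop (𝓝 x) :=
    tendsto_nat_floor_mul_div_atTop hx
  have h3 := h2.comp h1
  refine h3.congr fun m => ?_
  simp only [Function.comp_apply]
  rw [Real.exp_neg, div_eq_mul_inv]

private lemma pow_choose (x l : ℝ) (hx : 0 ≤ x) (hl : 0 < l) (r : ℕ) :
    Tendsto (fun m : ℕ => (((⌊x * Real.exp (l * m)⌋₊).choose r : ℕ) : ℝ) *
      Real.exp (-(r * (l * m)))) atTop (𝓝 (x ^ r / (r.factorial : ℝ))) := by
  have hexp : Tendsto (fun m : ℕ => Real.exp (-(l * m))) atTop (𝓝 0) := by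
    apply Real.tendsto_exp_neg_atTop_nhds_zero.comp
    exact (tendsto_natCast_atTop_atTop).const_mul_atTop hl
  have hd : Tendsto (fun m : ℕ => (((⌊x * Real.exp (l * m)⌋₊).descFactorial r : ℕ) : ℝ) *
      Real.exp (-(r * (l * m)))) atTop (𝓝 (x ^ r)) := by
    induction r with
    | zero => simp
    | succ r ih =>
      by_cases hx0 : x = 0
      · subst hx0
        simp [Nat.descFactorial_succ]
      · have hxp : 0 < x := lt_of_le_of_ne hx (Ne.symm hx0)
        have h1 : Tendsto (fun m : ℕ => (((⌊x * Real.exp (l * m)⌋₊ : ℕ) : ℝ) - r) *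
            Real.exp (-(l * m))) atTop (𝓝 x) := by
          have h2 := (pow_floor x l hx hl).sub (hexp.const_mul (r : ℝ))
          rw [mul_zero, sub_zero] at h2
          refine h2.congr fun m => ?_
          ring
        have h3 := h1.mul ih
        rw [← pow_succ'] at h3
        refine h3.congr' ?_
        have hlarge : ∀ᶠ m : ℕ in atTop, (r : ℝ) + 1 ≤ x * Real.exp (l * m) := by
          have h4 : Tendsto (fun m : ℕ => x * Real.exp (l * m)) atTop atTop := by
            apply Tendsto.const_mul_atTop hxp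
            apply Real.tendsto_exp_atTop.comp
            exact (tendsto_natCast_atTop_atTop).const_mul_atTop hl
          exact h4.eventually_ge_atTop _
        filter_upwards [hlarge] with m hm
        have h5 : r ≤ ⌊x * Real.exp (l * m)⌋₊ := by
          apply Nat.le_floor
          linarith
        rw [Nat.descFactorial_succ]
        push_cast [Nat.cast_sub h5]
        have h6 : Real.exp (-(((r : ℝ) + 1) * (l * m))) =
            Real.exp (-(l * m)) * Real.exp (-(r * (l * m))) := by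
          rw [← Real.exp_add]
          congr 1
          ring
        rw [h6]
        ring
  have h7 := hd.div_const (r.factorial : ℝ)
  refine h7.congr fun m => ?_
  have h8 : (((⌊x * Real.exp (l * m)⌋₊).descFactorial r : ℕ) : ℝ) =
      (r.factorial : ℝ) * (((⌊x * Real.exp (l * m)⌋₊).choose r : ℕ) : ℝ) := by
    rw [Nat.descFactorial_eq_factorial_mul_choose]
    push_cast
    ring
  rw [h8]
  have h9 : (r.factorial : ℝ) ≠ 0 := by exact_mod_cast r.factorial_ne_zero
  field_simp

theorem pow_contract (α : Fin n → ℝ) (hα : ∀ i, 0 < α i) (a : SpecialLinearGroup (Fin n) ℝ)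
    (ha : a.1 = diagonal α) (w : SpecialLinearGroup (Fin n) ℝ) (hw : IsUp α w) (l : ℝ)
    (hl : 0 < l) (hlow : ∀ i j, 0 < wt α i j → wt α i j < l → w i j = 0)
    (Y : Matrix (Fin n) (Fin n) ℝ) (hY : ∀ i j, Y i j = if wt α i j = l then w i j else 0)
    (x : ℝ) (hx : 0 ≤ x) :
    ∃ (e : SpecialLinearGroup (Fin n) ℝ) (k : ℕ → ℕ), e.1 = expo Y x ∧
      Tendsto (fun m => (a ^ m)⁻¹ * w ^ (k m) * a ^ m) atTop (𝓝 e) := by
  classical
  set X : Matrix (Fin n) (Fin n) ℝ := w.1 - 1 with hX
  have hY0 : ∀ i j, wt α i j ≠ l → Y i j = 0 := fun i j h => by rw [hY, if_neg h]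
  have hXl : ∀ i j, wt α i j < l → X i j = 0 := by
    intro i j h
    rw [hX, Matrix.sub_apply]
    rcases le_or_gt (wt α i j) 0 with h0 | h0
    · have h1 : w.1 i j = (1 : Matrix (Fin n) (Fin n) ℝ) i j := hw i j h0
      rw [h1, sub_self]
    · have hne' : i ≠ j := by
        rintro rfl
        rw [wt_self] at h0
        exact lt_irrefl _ h0
      have h1 : w.1 i j = 0 := hlow i j h0 h
      rw [h1, one_apply_ne hne', sub_self]
  have hXY : ∀ i j, Y i j = if wt α i j = l then X i j else 0 := by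
    intro i j
    rw [hY i j]
    split_ifs with h
    · have hne' : i ≠ j := by
        rintro rfl
        rw [wt_self] at h
        exact absurd h (ne_of_lt hl)
      rw [hX, Matrix.sub_apply, one_apply_ne hne', sub_zero]
    · rfl
  have hXn : ∀ r, n ≤ r → X ^ r = 0 := fun r hr => gr_nil α (fun i j h => hXl i j (by linarith)) r hr
  have hwX : w.1 = X + 1 := by rw [hX]; abel
  let k : ℕ → ℕ := fun m => ⌊x * Real.exp (l * m)⌋₊
  have hpow : ∀ s : ℕ, (w ^ s).1 = ∑ r ∈ Finset.range n, ((s.choose r : ℕ) : ℝ) • X ^ r := by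
    intro s
    have h0 : (w ^ s).1 = w.1 ^ s := Matrix.SpecialLinearGroup.coe_pow w s
    refine h0.trans ?_
    rw [hwX, (Commute.one_right X).add_pow]
    have h1 : ∀ r ∈ Finset.range (s + 1), X ^ r * 1 ^ (s - r) * ((s.choose r : ℕ) : Matrix (Fin n) (Fin n) ℝ) =
        ((s.choose r : ℕ) : ℝ) • X ^ r := by
      intro r _
      rw [one_pow, mul_one, ← nsmul_eq_mul', ← Nat.cast_smul_eq_nsmul ℝ]
    rw [Finset.sum_congr rfl h1]
    have h2 : ∀ N, n ≤ N → s + 1 ≤ N → ∑ r ∈ Finset.range N, ((s.choose r : ℕ) : ℝ) • X ^ r =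
        ∑ r ∈ Finset.range n, ((s.choose r : ℕ) : ℝ) • X ^ r := by
      intro N hN _
      symm
      apply Finset.sum_subset (Finset.range_mono hN)
      intro r _ hr
      rw [hXn r (not_lt.1 fun h => hr (Finset.mem_range.2 h)), smul_zero]
    have h3 : ∀ N, s + 1 ≤ N → ∑ r ∈ Finset.range (s + 1), ((s.choose r : ℕ) : ℝ) • X ^ r =
        ∑ r ∈ Finset.range N, ((s.choose r : ℕ) : ℝ) • X ^ r := by
      intro N hN
      apply Finset.sum_subset (Finset.range_mono hN)
      intro r _ hr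
      have h4 : s < r := by
        rw [Finset.mem_range] at hr
        omega
      rw [Nat.choose_eq_zero_of_lt h4, Nat.cast_zero, zero_smul]
    rw [h3 (max n (s + 1)) (le_max_right _ _), h2 _ (le_max_left _ _) (le_max_right _ _)]
  -- entries of the conjugated powers
  have hamul : ∀ (m : ℕ), (a ^ m).1 = diagonal (fun i => α i ^ m) := by
    intro m
    have h0 : (a ^ m).1 = a.1 ^ m := Matrix.SpecialLinearGroup.coe_pow a m
    refine h0.trans ?_
    rw [ha, diagonal_pow]
    rfl
  have hainv : ∀ (m : ℕ), ((a ^ m)⁻¹ : SpecialLinearGroup (Fin n) ℝ).1 =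
      diagonal (fun i => (α i ^ m)⁻¹) := by
    intro m
    have h1 : ((a ^ m)⁻¹ : SpecialLinearGroup (Fin n) ℝ).1 * (a ^ m).1 = 1 :=
      congrArg Subtype.val (inv_mul_cancel (a ^ m))
    have h2 : (a ^ m).1 * diagonal (fun i => (α i ^ m)⁻¹) = 1 := by
      rw [hamul, diagonal_mul_diagonal]
      rw [← diagonal_one]
      congr 1
      funext i
      exact mul_inv_cancel₀ (pow_ne_zero _ (hα i).ne')
    calc ((a ^ m)⁻¹ : SpecialLinearGroup (Fin n) ℝ).1
        = ((a ^ m)⁻¹ : SpecialLinearGroup (Fin n) ℝ).1 *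
          ((a ^ m).1 * diagonal (fun i => (α i ^ m)⁻¹)) := by rw [h2, mul_one]
      _ = diagonal (fun i => (α i ^ m)⁻¹) := by rw [← mul_assoc, h1, one_mul]
  have hwexp : ∀ (m : ℕ) (i j : Fin n), (α i ^ m)⁻¹ * α j ^ m = Real.exp (-(m * wt α i j)) := by
    intro m i j
    unfold wt
    rw [← Real.exp_log (pow_pos (hα j) m), ← Real.exp_log (inv_pos.2 (pow_pos (hα i) m)),
      ← Real.exp_add, Real.log_inv, Real.log_pow, Real.log_pow]
    congr 1
    ring
  have hentry : ∀ (m : ℕ) (i j : Fin n), ((a ^ m)⁻¹ * w ^ (k m) * a ^ m :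
      SpecialLinearGroup (Fin n) ℝ).1 i j =
      ∑ r ∈ Finset.range n, ((((k m).choose r : ℕ) : ℝ) * Real.exp (-(m * wt α i j))) *
        (X ^ r) i j := by
    intro m i j
    have h1 : ((a ^ m)⁻¹ * w ^ (k m) * a ^ m : SpecialLinearGroup (Fin n) ℝ).1 =
        ((a ^ m)⁻¹ : SpecialLinearGroup (Fin n) ℝ).1 * (w ^ (k m)).1 * (a ^ m).1 := rfl
    rw [h1, hainv, hamul, mul_diagonal, diagonal_mul, hpow, Matrix.sum_apply, Finset.mul_sum,
      Finset.sum_mul]
    refine Finset.sum_congr rfl fun r _ => ?_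
    rw [Matrix.smul_apply, smul_eq_mul, ← hwexp]
    ring
  have hlim : ∀ (i j : Fin n), Tendsto (fun m : ℕ => ((a ^ m)⁻¹ * w ^ (k m) * a ^ m :
      SpecialLinearGroup (Fin n) ℝ).1 i j) atTop (𝓝 (expo Y x i j)) := by
    intro i j
    simp_rw [hentry]
    unfold expo
    rw [Matrix.sum_apply]
    apply tendsto_finsetSum
    intro r _
    rw [Matrix.smul_apply, smul_eq_mul]
    have hc := pow_choose x l hx hl r
    rcases lt_trichotomy (wt α i j) (r * l) with h | h | h
    · rw [gr_pow α hXl r i j h, gr_pow_hom α hY0 r i j (ne_of_lt h), mul_zero]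
      simp only [mul_zero]
      exact tendsto_const_nhds
    · rw [← gr_pow_lead α hXl hXY r i j h]
      apply Tendsto.mul_const
      refine hc.congr fun m => ?_
      show (((k m).choose r : ℕ) : ℝ) * _ = _
      congr 2
      rw [h]
      ring
    · rw [gr_pow_hom α hY0 r i j (ne_of_gt h), mul_zero]
      rw [← zero_mul ((X ^ r) i j)]
      apply Tendsto.mul_const
      have h1 : Tendsto (fun m : ℕ => Real.exp (-((wt α i j - r * l) * m))) atTop (𝓝 0) := by
        apply Real.tendsto_exp_neg_atTop_nhds_zero.comp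
        exact (tendsto_natCast_atTop_atTop).const_mul_atTop (by linarith)
      have h2 := hc.mul h1
      rw [mul_zero] at h2
      refine h2.congr fun m => ?_
      show (((k m).choose r : ℕ) : ℝ) * _ * _ = _
      rw [mul_assoc, ← Real.exp_add]
      congr 2
      ring
  have hlimM : Tendsto (fun m : ℕ => ((a ^ m)⁻¹ * w ^ (k m) * a ^ m :
      SpecialLinearGroup (Fin n) ℝ).1) atTop (𝓝 (expo Y x)) := by
    exact tendsto_pi_nhds.2 fun i => tendsto_pi_nhds.2 fun j => hlim i j
  have hdet : (expo Y x).det = 1 := by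
    have h1 : Tendsto (fun m : ℕ => ((a ^ m)⁻¹ * w ^ (k m) * a ^ m :
      SpecialLinearGroup (Fin n) ℝ).1.det) atTop (𝓝 (expo Y x).det) :=
      ((continuous_id.matrix_det).tendsto _).comp hlimM
    have h2 : (fun m : ℕ => ((a ^ m)⁻¹ * w ^ (k m) * a ^ m :
      SpecialLinearGroup (Fin n) ℝ).1.det) = fun _ => 1 := by
      funext m
      exact ((a ^ m)⁻¹ * w ^ (k m) * a ^ m : SpecialLinearGroup (Fin n) ℝ).2
    rw [h2] at h1
    exact tendsto_nhds_unique h1 tendsto_const_nhds
  refine ⟨⟨expo Y x, hdet⟩, k, rfl, ?_⟩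
  exact tendsto_subtype_rng.2 hlimM

end Pool.Agent.Work.MP_67388f_an
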