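import Pool.Agent.Work.MP_67388f_an.TV.Defs

set_option autoImplicit false

namespace Pool.Agent.Work.MP_67388f_an

open MeasureTheory Filter Topology Matrix

open scoped Pointwise in
theorem exists_regular {G : Type*} [Group G] {ι : Type*} [Finite ι] (χ : ι → G →* Multiplicative ℝ) :
    ∃ a : G, ∀ i, χ i a = 1 → ∀ b : G, χ i b = 1 := by
  classical
  have := Fintype.ofFinite ι
  by_contra hno
  push Not at hno
  let s : Finset ι := Finset.univ.filter fun i => ∃ b : G, χ i b ≠ 1
  have hcov : ⋃ i ∈ s, (1 : G) • ((χ i).ker : Set G) = Set.univ := by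
    rw [Set.eq_univ_iff_forall]
    intro a
    obtain ⟨i, hi, b, hb⟩ := hno a
    rw [Set.mem_iUnion₂]
    refine ⟨i, ?_, ?_⟩
    · rw [Finset.mem_filter]
      exact ⟨Finset.mem_univ _, b, hb⟩
    · rw [one_smul]
      exact hi
  obtain ⟨i, hi, hfin⟩ := Subgroup.exists_finiteIndex_of_leftCoset_cover
    (H := fun i => (χ i).ker) (g := fun _ => (1 : G)) (s := s) hcov
  obtain ⟨b, hb⟩ := (Finset.mem_filter.1 hi).2
  obtain ⟨m, hm, -, hmem⟩ := Subgroup.exists_pow_mem_of_index_ne_zero hfin.index_ne_zero b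
  apply hb
  have h1 : (χ i b) ^ m = 1 := by
    rw [← map_pow]
    exact hmem
  have h2 : (m : ℝ) * Multiplicative.toAdd (χ i b) = 0 := by
    have h3 := congrArg Multiplicative.toAdd h1
    simpa using h3
  have h4 : Multiplicative.toAdd (χ i b) = 0 := by
    rcases mul_eq_zero.1 h2 with h | h
    · exact absurd (Nat.cast_eq_zero.1 h) hm.ne'
    · exact h
  exact Multiplicative.toAdd.injective h4

end Pool.Agent.Work.MP_67388f_an
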