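import Pool.Agent.Work.MP_67388f_an.TV.WEAK

set_option autoImplicit false

namespace Pool.Agent.Work.MP_67388f_an

open MeasureTheory Filter Topology Matrix

section general

variable {X : Type*} [TopologicalSpace X] [LocallyCompactSpace X] [T2Space X]
  [SecondCountableTopology X] [MeasurableSpace X] [BorelSpace X]
variable {G : Type*} [Group G] [TopologicalSpace G] [IsTopologicalGroup G] [MulAction G X]
  [ContinuousSMul G X]

omit [LocallyCompactSpace X] [T2Space X] [SecondCountableTopology X] [IsTopologicalGroup G] in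
lemma smul_integral (μ : Measure X) (a : G) (ha : μ.map (fun z => a • z) = μ) (F : X → ℝ) :
    ∫ x, F (a • x) ∂μ = ∫ x, F x ∂μ := by
  have hmp : MeasurePreserving (fun z : X => a • z) μ μ := ⟨smul_measurable a, ha⟩
  exact hmp.integral_comp (Homeomorph.smul a).measurableEmbedding F

omit [LocallyCompactSpace X] [T2Space X] [SecondCountableTopology X] [IsTopologicalGroup G] in
/-- Change of variables for the invariance of densities. -/
lemma invD_comp (μ : Measure X) (ψ ψ' : X → ℝ) (g a : G)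
    (ha : μ.map (fun z => a • z) = μ) (hψ : ψ' =ᵐ[μ] fun x => ψ (a • x))
    (hg : InvD μ (a * g * a⁻¹) ψ) : InvD μ g ψ' := by
  intro θ hθ
  let θ' : C(X, ℝ) := ⟨fun x => θ (a⁻¹ • x), θ.continuous.comp (continuous_const_smul a⁻¹)⟩
  have hθ' : HasCompactSupport θ' := hθ.comp_homeomorph (Homeomorph.smul a⁻¹)
  have h := hg θ' hθ'
  have e1 : ∫ x, θ (g • x) * ψ' x ∂μ = ∫ x, θ' ((a * g * a⁻¹) • x) * ψ x ∂μ := by
    rw [← smul_integral μ a ha (fun x => θ' ((a * g * a⁻¹) • x) * ψ x)]
    refine integral_congr_ae ?_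
    filter_upwards [hψ] with x hx
    rw [hx]
    congr 1
    show θ (g • x) = θ (a⁻¹ • (a * g * a⁻¹) • a • x)
    rw [smul_smul, smul_smul]
    congr 2
    group
  have e2 : ∫ x, θ x * ψ' x ∂μ = ∫ x, θ' x * ψ x ∂μ := by
    rw [← smul_integral μ a ha (fun x => θ' x * ψ x)]
    refine integral_congr_ae ?_
    filter_upwards [hψ] with x hx
    rw [hx]
    congr 1
    show θ x = θ (a⁻¹ • a • x)
    rw [inv_smul_smul]
  rw [e1, e2, h]

/-- If `φ μ` has nonzero integral and is invariant under a set `T` normalized by an ergodic group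
`A`, then so is `μ`. -/
theorem spread (μ : Measure X) [IsProbabilityMeasure μ] (A : Subgroup G)
    (hμ : ∀ a ∈ A, μ.map (fun z => a • z) = μ)
    (herg : ∀ s : Set X, MeasurableSet s → (∀ a ∈ A, (fun z => a • z) ⁻¹' s =ᵐ[μ] s) →
      μ s = 0 ∨ μ sᶜ = 0)
    (T : Set G) (hT : ∀ a ∈ A, ∀ g ∈ T, a * g * a⁻¹ ∈ T) (φ : Lp ℝ 2 μ)
    (hφ : ∀ g ∈ T, InvD μ g φ) (h0 : ∫ x, φ x ∂μ ≠ 0) :
    ∀ g ∈ T, μ.map (fun z => g • z) = μ := by
  classical
  let W : Set (Lp ℝ 2 μ) := {w | ∃ g ∈ T, ∃ θ : C(X, ℝ), HasCompactSupport θ ∧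
    ∀ ψ : Lp ℝ 2 μ, inner ℝ ψ w = ∫ x, θ (g • x) * ψ x ∂μ - ∫ x, θ x * ψ x ∂μ}
  let K : Submodule ℝ (Lp ℝ 2 μ) := (Submodule.span ℝ W)ᗮ
  have hc : ∀ (a : G) (θ : C(X, ℝ)), Continuous (fun x => θ (a • x)) := fun a θ =>
    θ.continuous.comp (continuous_const_smul a)
  have hK : ∀ ψ : Lp ℝ 2 μ, ψ ∈ K ↔ ∀ g ∈ T, InvD μ g ψ := by
    intro ψ
    constructor
    · intro h g hg θ hθ
      obtain ⟨B, hB0, hB⟩ := cc_bdd θ hθ
      have hm1 := memLp_of_bdd μ (fun x => θ (g • x)) (hc g θ) B (fun x => hB _)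
      have hm2 := memLp_of_bdd μ (fun x => θ x) θ.continuous B (fun x => hB _)
      have hw : (hm1.toLp _ - hm2.toLp _ : Lp ℝ 2 μ) ∈ W := by
        refine ⟨g, hg, θ, hθ, fun ψ => ?_⟩
        rw [inner_sub_right, inner_toLp, inner_toLp]
      have h1 := (Submodule.mem_orthogonal' _ _).1 h _ (Submodule.subset_span hw)
      rw [inner_sub_right, inner_toLp, inner_toLp] at h1
      linarith
    · intro h
      rw [Submodule.mem_orthogonal']
      intro w hw
      induction hw using Submodule.span_induction with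
      | mem w hw =>
        obtain ⟨g, hg, θ, hθ, hin⟩ := hw
        rw [hin ψ, h g hg θ hθ, sub_self]
      | zero => exact inner_zero_right _
      | add x y _ _ hx hy => rw [inner_add_right, hx, hy, add_zero]
      | smul c x _ hx => rw [real_inner_smul_right, hx, mul_zero]
  -- the operators
  have hmp : ∀ a ∈ A, MeasurePreserving (fun z : X => a • z) μ μ := fun a ha =>
    ⟨smul_measurable a, hμ a ha⟩
  have hVK : ∀ (a : G) (ha : a ∈ A) (ψ : Lp ℝ 2 μ), ψ ∈ K →
      Lp.compMeasurePreserving (fun z => a • z) (hmp a ha) ψ ∈ K := by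
    intro a ha ψ hψ
    rw [hK] at hψ ⊢
    intro g hg
    exact invD_comp μ ψ _ g a (hμ a ha) (Lp.coeFn_compMeasurePreserving ψ (hmp a ha))
      (hψ _ (hT a ha g hg))
  -- the constant function one
  have hone : MemLp (fun _ : X => (1 : ℝ)) 2 μ := memLp_const 1
  let e : Lp ℝ 2 μ := hone.toLp _
  have he : ∀ᵐ x ∂μ, e x = 1 := by
    filter_upwards [hone.coeFn_toLp] with x hx
    exact hx
  have hinner : ∀ ψ : Lp ℝ 2 μ, inner ℝ ψ e = ∫ x, ψ x ∂μ := by
    intro ψ
    rw [inner_toLp]
    simp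
  let κ : Lp ℝ 2 μ := K.starProjection e
  have hκK : κ ∈ K := Submodule.starProjection_apply_mem K e
  have hκo : ∀ w ∈ K, inner ℝ (e - κ) w = 0 := fun w hw => K.starProjection_inner_eq_zero e w hw
  -- invariance of the projection
  have hinv : ∀ a ∈ A, ∀ᵐ x ∂μ, κ (a • x) = κ x := by
    intro a ha
    have hmem := hVK a ha κ hκK
    have horth : ∀ w ∈ K,
        inner ℝ (e - Lp.compMeasurePreserving (fun z => a • z) (hmp a ha) κ) w = 0 := by
      intro w hw
      have ha' : a⁻¹ ∈ A := A.inv_mem ha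
      have hw' := hVK a⁻¹ ha' w hw
      have h1 := hκo _ hw'
      rw [MeasureTheory.L2.inner_def] at h1 ⊢
      rw [← h1, ← smul_integral μ a⁻¹ (hμ _ ha')]
      refine integral_congr_ae ?_
      have q1 : ∀ᵐ x ∂μ, (e - Lp.compMeasurePreserving (fun z => a • z) (hmp a ha) κ : Lp ℝ 2 μ)
          (a⁻¹ • x) = e (a⁻¹ • x) -
            (Lp.compMeasurePreserving (fun z => a • z) (hmp a ha) κ) (a⁻¹ • x) :=
        (hmp _ ha').quasiMeasurePreserving.ae (Lp.coeFn_sub _ _)
      have q2 : ∀ᵐ x ∂μ, (Lp.compMeasurePreserving (fun z => a • z) (hmp a ha) κ) (a⁻¹ • x) =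
          κ (a • a⁻¹ • x) :=
        (hmp _ ha').quasiMeasurePreserving.ae (Lp.coeFn_compMeasurePreserving κ (hmp a ha))
      have q3 : ∀ᵐ x ∂μ, e (a⁻¹ • x) = 1 := (hmp _ ha').quasiMeasurePreserving.ae he
      filter_upwards [q1, q2, q3, he, Lp.coeFn_sub e κ,
        Lp.coeFn_compMeasurePreserving w (hmp _ ha')] with x x1 x2 x3 x4 x5 x6
      rw [x1, x2, x3, x5, x6, smul_inv_smul, Pi.sub_apply, x4]
      rfl
    have heq : K.starProjection e = Lp.compMeasurePreserving (fun z => a • z) (hmp a ha) κ :=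
      Submodule.eq_starProjection_of_mem_of_inner_eq_zero hmem horth
    have h2 := Lp.coeFn_compMeasurePreserving κ (hmp a ha)
    rw [← heq] at h2
    filter_upwards [h2] with x hx
    exact hx.symm
  -- ergodicity
  obtain ⟨t, ht⟩ : ∃ t : ℝ, (κ : X → ℝ) =ᵐ[μ] Function.const X t := by
    refine exists_eventuallyEq_const_of_forall_separating MeasurableSet fun V hV => ?_
    have hκm : Measurable (κ : X → ℝ) := (Lp.stronglyMeasurable κ).measurable
    have hs : MeasurableSet ((κ : X → ℝ) ⁻¹' V) := hκm hV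
    have := herg _ hs (fun a ha => by
      filter_upwards [hinv a ha] with x hx
      show (κ (a • x) ∈ V) = (κ x ∈ V)
      rw [hx])
    rcases this with h | h
    · right
      exact measure_eq_zero_iff_ae_notMem.1 h
    · left
      have := measure_eq_zero_iff_ae_notMem.1 h
      filter_upwards [this] with x hx
      simpa using hx
  have ht1 : t = 1 := by
    have hφK : φ ∈ K := (hK φ).2 hφ
    have h1 := hκo φ hφK
    rw [inner_sub_left, real_inner_comm, hinner, real_inner_comm, MeasureTheory.L2.inner_def] at h1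
    have h2 : ∫ x, inner ℝ (φ x) (κ x) ∂μ = t * ∫ x, φ x ∂μ := by
      rw [← integral_const_mul]
      refine integral_congr_ae ?_
      filter_upwards [ht] with x hx
      rw [hx]
      rfl
    rw [h2] at h1
    have h3 : (1 - t) * ∫ x, φ x ∂μ = 0 := by linarith
    rcases mul_eq_zero.1 h3 with h | h
    · linarith
    · exact absurd h h0
  intro g hg
  have hfin : IsFiniteMeasure (μ.map (fun z => g • z)) := by
    constructor
    rw [Measure.map_apply (smul_measurable g) MeasurableSet.univ]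
    exact measure_lt_top _ _
  refine Measure.ext_of_integral_eq_on_compactlySupported fun f => ?_
  have h1 := (hK κ).1 hκK g hg f.toContinuousMap f.hasCompactSupport
  have h2 : ∀ F : X → ℝ, ∫ x, F x * κ x ∂μ = ∫ x, F x ∂μ := by
    intro F
    refine integral_congr_ae ?_
    filter_upwards [ht] with x hx
    rw [hx, ht1]
    simp
  rw [h2, h2] at h1
  rw [integral_map (smul_measurable g).aemeasurable
    (map_continuous f).measurable.aestronglyMeasurable]
  exact h1

end general

end Pool.Agent.Work.MP_67388f_an
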