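import Pool.Agent.Work.MP_67388f_an.TV.Defs

set_option autoImplicit false

namespace Pool.Agent.Work.MP_67388f_an

open Matrix

variable {n : ℕ}

lemma wt_self (α : Fin n → ℝ) (i : Fin n) : wt α i i = 0 := by simp [wt]

lemma wt_add (α : Fin n → ℝ) (i j k : Fin n) : wt α i k = wt α i j + wt α j k := by
  simp only [wt]; ring

lemma wt_neg (α : Fin n → ℝ) (i j : Fin n) : wt α j i = - wt α i j := by
  simp only [wt]; ring

lemma wt_inv (α : Fin n → ℝ) (i j : Fin n) : wt (fun i => (α i)⁻¹) i j = - wt α i j := by
  simp only [wt, Real.log_inv]; ring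

lemma IsUp.one (α : Fin n → ℝ) : IsUp α (1 : SpecialLinearGroup (Fin n) ℝ) := by
  intro i j _
  simp

lemma IsUp.mul {α : Fin n → ℝ} {u v : SpecialLinearGroup (Fin n) ℝ} (hu : IsUp α u)
    (hv : IsUp α v) : IsUp α (u * v) := by
  classical
  intro i j hij
  show (u.1 * v.1) i j = _
  rw [mul_apply]
  rw [Finset.sum_eq_single i]
  · have h1 : u.1 i i = 1 := by
      have := hu i i (by rw [wt_self])
      rwa [one_apply_eq] at this
    have h2 := hv i j hij
    rw [h1, one_mul]
    exact h2
  · intro k _ hk
    rcases le_or_gt (wt α i k) 0 with h | h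
    · have h1 := hu i k h
      rw [one_apply_ne (Ne.symm hk)] at h1
      have h1' : u.1 i k = 0 := h1
      rw [h1', zero_mul]
    · have h2 : wt α k j < 0 := by
        have := wt_add α i k j
        linarith
      have hkj : k ≠ j := by
        rintro rfl
        rw [wt_self] at h2
        exact lt_irrefl _ h2
      have h1 := hv k j h2.le
      rw [one_apply_ne hkj] at h1
      have h1' : v.1 k j = 0 := h1
      rw [h1', mul_zero]
  · intro h; exact absurd (Finset.mem_univ i) h

lemma IsUp.inv {α : Fin n → ℝ} {u : SpecialLinearGroup (Fin n) ℝ} (hu : IsUp α u) :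
    IsUp α u⁻¹ := by
  classical
  set v : Matrix (Fin n) (Fin n) ℝ := (u⁻¹ : SpecialLinearGroup (Fin n) ℝ).1 with hv
  have huv : u.1 * v = 1 := congrArg Subtype.val (mul_inv_cancel u)
  have hwf : WellFounded (fun i j : Fin n => Real.log (α i) < Real.log (α j)) := by
    have : IsTrans (Fin n) (fun i j : Fin n => Real.log (α i) < Real.log (α j)) :=
      ⟨fun _ _ _ h1 h2 => lt_trans h1 h2⟩
    have : Std.Irrefl (fun i j : Fin n => Real.log (α i) < Real.log (α j)) :=
      ⟨fun _ => lt_irrefl _⟩
    exact Finite.wellFounded_of_trans_of_irrefl _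
  have key : ∀ i j, wt α i j ≤ 0 → v i j = (1 : Matrix (Fin n) (Fin n) ℝ) i j := by
    intro i
    induction i using hwf.induction with
    | _ i ih =>
      intro j hij
      have h1 := congrFun (congrFun huv i) j
      rw [mul_apply] at h1
      rw [← Finset.add_sum_erase _ _ (Finset.mem_univ i)] at h1
      have h2 : u.1 i i = 1 := by
        have := hu i i (by rw [wt_self])
        rwa [one_apply_eq] at this
      have h3 : ∑ k ∈ Finset.univ.erase i, u.1 i k * v k j = 0 := by
        apply Finset.sum_eq_zero
        intro k hk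
        have hki : k ≠ i := Finset.ne_of_mem_erase hk
        rcases le_or_gt (wt α i k) 0 with h | h
        · have h4 := hu i k h
          rw [one_apply_ne (Ne.symm hki)] at h4
          have h4' : u.1 i k = 0 := h4
          rw [h4', zero_mul]
        · have h5 : wt α k j < 0 := by
            have := wt_add α i k j
            linarith
          have hkj : k ≠ j := by
            rintro rfl
            rw [wt_self] at h5
            exact lt_irrefl _ h5
          have h6 := ih k (by unfold wt at h; linarith) j h5.le
          rw [one_apply_ne hkj] at h6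
          rw [h6, mul_zero]
      rw [h2, h3, one_mul, add_zero] at h1
      exact h1
  intro i j hij
  exact key i j hij

lemma IsLow.mul {α : Fin n → ℝ} {u v : SpecialLinearGroup (Fin n) ℝ} (hu : IsLow α u)
    (hv : IsLow α v) : IsLow α (u * v) := by
  intro i j hij
  show (u.1 * v.1) i j = _
  rw [mul_apply]
  apply Finset.sum_eq_zero
  intro k _
  rcases lt_or_ge 0 (wt α i k) with h | h
  · have : u.1 i k = 0 := hu i k h
    rw [this, zero_mul]
  · have h2 : 0 < wt α k j := by
      have := wt_add α i k j
      linarith
    have : v.1 k j = 0 := hv k j h2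
    rw [this, mul_zero]

lemma IsUp.isLow_inv {α : Fin n → ℝ} {u : SpecialLinearGroup (Fin n) ℝ}
    (hu : IsUp (fun i => (α i)⁻¹) u) : IsLow α u := by
  intro i j hij
  have h := hu i j (by rw [wt_inv]; linarith)
  rw [h, one_apply_ne]
  rintro rfl
  rw [wt_self] at hij
  exact lt_irrefl _ hij

end Pool.Agent.Work.MP_67388f_an
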