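import Pool.Agent.Work.MP_67388f_an.TV.Defs
import Pool.Agent.Work.MP_67388f_an.Share

set_option autoImplicit false

namespace Pool.Agent.Work.MP_67388f_an

open MeasureTheory Filter Topology Matrix

/-- Bounded families in a Hilbert space have weak limits along ultrafilters. -/
theorem weak_limit {ι : Type*} {E : Type*} [NormedAddCommGroup E] [InnerProductSpace ℝ E]
    [CompleteSpace E] (U : Ultrafilter ι) (f : ι → E) (C : ℝ) (hC : ∀ k, ‖f k‖ ≤ C) :
    ∃ φ : E, ∀ ψ : E, Tendsto (fun k => inner ℝ (f k) ψ) U (𝓝 (inner ℝ φ ψ)) := by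
  have hlim : ∀ ψ : E, ∃ L : ℝ, |L| ≤ C * ‖ψ‖ ∧
      Tendsto (fun k => inner ℝ (f k) ψ) U (𝓝 L) := by
    intro ψ
    have hK : IsCompact (Set.Icc (-(C * ‖ψ‖)) (C * ‖ψ‖)) := isCompact_Icc
    have hmem : ∀ k, inner ℝ (f k) ψ ∈ Set.Icc (-(C * ‖ψ‖)) (C * ‖ψ‖) := by
      intro k
      rw [Set.mem_Icc, ← abs_le]
      exact (abs_real_inner_le_norm _ _).trans (mul_le_mul_of_nonneg_right (hC k) (norm_nonneg _))
    have hle : ((U.map (fun k => inner ℝ (f k) ψ) : Ultrafilter ℝ) : Filter ℝ) ≤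
        𝓟 (Set.Icc (-(C * ‖ψ‖)) (C * ‖ψ‖)) := by
      rw [le_principal_iff, Ultrafilter.coe_map, mem_map]
      exact Filter.univ_mem' hmem
    obtain ⟨L, hL, hLt⟩ := hK.ultrafilter_le_nhds _ hle
    exact ⟨L, abs_le.2 hL, hLt⟩
  choose L hLb hLt using hlim
  let ℓ : E →ₗ[ℝ] ℝ :=
    { toFun := L
      map_add' := by
        intro x y
        refine tendsto_nhds_unique (hLt (x + y)) ?_
        refine ((hLt x).add (hLt y)).congr fun k => ?_
        rw [inner_add_right]
      map_smul' := by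
        intro c x
        refine tendsto_nhds_unique (hLt (c • x)) ?_
        refine ((hLt x).const_mul c).congr fun k => ?_
        rw [real_inner_smul_right] }
  let ℓ' : E →L[ℝ] ℝ := ℓ.mkContinuous C (fun ψ => by
    rw [Real.norm_eq_abs]
    exact hLb ψ)
  refine ⟨(InnerProductSpace.toDual ℝ E).symm ℓ', fun ψ => ?_⟩
  rw [InnerProductSpace.toDual_symm_apply]
  exact hLt ψ

section general

variable {X : Type*} [TopologicalSpace X] [MeasurableSpace X] [BorelSpace X]

omit [TopologicalSpace X] [BorelSpace X] in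
/-- The inner product of an `L²` class with a concrete function. -/
lemma inner_toLp (μ : Measure X) (F : Lp ℝ 2 μ) (h : X → ℝ) (hh : MemLp h 2 μ) :
    inner ℝ F (hh.toLp h) = ∫ x, h x * F x ∂μ := by
  rw [MeasureTheory.L2.inner_def]
  refine integral_congr_ae ?_
  filter_upwards [hh.coeFn_toLp] with x hx
  rw [hx]
  simp

/-- A bounded continuous function on a finite measure space is in `L²`. -/
lemma memLp_of_bdd (μ : Measure X) [IsFiniteMeasure μ] (h : X → ℝ) (hc : Continuous h) (B : ℝ)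
    (hB : ∀ x, |h x| ≤ B) : MemLp h 2 μ :=
  MemLp.of_bound hc.measurable.aestronglyMeasurable B
    (Eventually.of_forall fun x => by rw [Real.norm_eq_abs]; exact hB x)

lemma abs_integral_mul_le (μ : Measure X) [IsProbabilityMeasure μ] (F : Lp ℝ 2 μ) (h : X → ℝ)
    (hc : Continuous h) (B : ℝ) (hB0 : 0 ≤ B) (hB : ∀ x, |h x| ≤ B) :
    |∫ x, h x * F x ∂μ| ≤ ‖F‖ * B := by
  have hh := memLp_of_bdd μ h hc B hB
  rw [← inner_toLp μ F h hh]
  refine (abs_real_inner_le_norm _ _).trans (mul_le_mul_of_nonneg_left ?_ (norm_nonneg _))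
  have h1 : ∀ᵐ x ∂μ, ‖(hh.toLp h) x‖ ≤ B := by
    filter_upwards [hh.coeFn_toLp] with x hx
    rw [hx, Real.norm_eq_abs]
    exact hB x
  have h2 := Lp.norm_le_of_ae_bound hB0 h1
  have h3 : measureUnivNNReal μ = 1 := by
    rw [← NNReal.coe_inj]
    simp [measureUnivNNReal]
  rw [h3] at h2
  simpa using h2

variable {G : Type*} [Group G] [TopologicalSpace G] [IsTopologicalGroup G] [MulAction G X]
  [ContinuousSMul G X]

omit [MeasurableSpace X] [BorelSpace X] in
lemma cc_bdd (θ : C(X, ℝ)) (hθ : HasCompactSupport θ) : ∃ B : ℝ, 0 ≤ B ∧ ∀ x, |θ x| ≤ B := by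
  obtain ⟨B, hB⟩ := θ.continuous.bounded_above_of_compact_support hθ
  refine ⟨max B 0, le_max_right _ _, fun x => ?_⟩
  rw [← Real.norm_eq_abs]
  exact (hB x).trans (le_max_left _ _)

/-- Weak limits of densities inherit limits of asymptotic symmetries. -/
theorem invD_limit' {ι : Type*} (U : Ultrafilter ι) (μ : Measure X) [IsProbabilityMeasure μ]
    (f : ι → Lp ℝ 2 μ) (C : ℝ) (hC : ∀ k, ‖f k‖ ≤ C) (φ : Lp ℝ 2 μ)
    (hφ : ∀ ψ : Lp ℝ 2 μ, Tendsto (fun k => inner ℝ (f k) ψ) U (𝓝 (inner ℝ φ ψ)))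
    (g : ι → G) (g' : G) (hg : Tendsto g U (𝓝 g'))
    (h : ∀ θ : C(X, ℝ), HasCompactSupport θ →
      Tendsto (fun k => ∫ x, θ (g k • x) * f k x ∂μ - ∫ x, θ x * f k x ∂μ) U (𝓝 0)) :
    InvD μ g' φ := by
  intro θ hθ
  obtain ⟨B, hB0, hB⟩ := cc_bdd θ hθ
  have hC0 : 0 ≤ C := by
    obtain ⟨k, _⟩ := U.nonempty_of_mem univ_mem
    exact (norm_nonneg _).trans (hC k)
  have hc : ∀ a : G, Continuous (fun x => θ (a • x)) := fun a =>
    θ.continuous.comp (continuous_const_smul a)
  -- the two weak limits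
  have h1 : Tendsto (fun k => ∫ x, θ (g' • x) * f k x ∂μ) U
      (𝓝 (∫ x, θ (g' • x) * φ x ∂μ)) := by
    have hm := memLp_of_bdd μ (fun x => θ (g' • x)) (hc g') B (fun x => hB _)
    have := hφ (hm.toLp _)
    rw [inner_toLp] at this
    refine this.congr fun k => ?_
    rw [inner_toLp]
  have h2 : Tendsto (fun k => ∫ x, θ x * f k x ∂μ) U (𝓝 (∫ x, θ x * φ x ∂μ)) := by
    have hm := memLp_of_bdd μ (fun x => θ x) θ.continuous B (fun x => hB _)
    have := hφ (hm.toLp _)
    rw [inner_toLp] at this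
    refine this.congr fun k => ?_
    rw [inner_toLp]
  -- the uniform estimate
  have h3 : Tendsto (fun k => ∫ x, θ (g k • x) * f k x ∂μ - ∫ x, θ (g' • x) * f k x ∂μ) U
      (𝓝 0) := by
    rw [Metric.tendsto_nhds]
    intro ε hε
    set η : ℝ := ε / (C + 1) with hη
    have hηpos : 0 < η := by positivity
    have hgk : Tendsto (fun k => g k * g'⁻¹) U (𝓝 1) := by
      have := hg.mul_const g'⁻¹
      rwa [mul_inv_cancel] at this
    filter_upwards [hgk.eventually (unif_action θ hθ η hηpos)] with k hk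
    have hb : ∀ x, |θ (g k • x) - θ (g' • x)| ≤ η := by
      intro x
      have := hk (g' • x)
      rw [smul_smul, inv_mul_cancel_right] at this
      exact this.le
    have hint : ∀ a : G, Integrable (fun x => θ (a • x) * f k x) μ := by
      intro a
      have hm := memLp_of_bdd μ (fun x => θ (a • x)) (hc a) B (fun x => hB _)
      exact hm.integrable_mul (Lp.memLp (f k))
    rw [Real.dist_eq, sub_zero, ← integral_sub (hint _) (hint _)]
    have hle := abs_integral_mul_le μ (f k) (fun x => θ (g k • x) - θ (g' • x))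
      ((hc _).sub (hc _)) η hηpos.le hb
    have heq : ∫ x, (θ (g k • x) * f k x - θ (g' • x) * f k x) ∂μ =
        ∫ x, (θ (g k • x) - θ (g' • x)) * f k x ∂μ := by
      refine integral_congr_ae (Eventually.of_forall fun x => ?_)
      simp only
      ring
    rw [heq]
    calc _ ≤ ‖f k‖ * η := hle
      _ ≤ C * η := mul_le_mul_of_nonneg_right (hC k) hηpos.le
      _ < (C + 1) * η := by nlinarith
      _ = ε := by rw [hη]; field_simp
  have h4 := h θ hθ
  have h5 : Tendsto (fun k => ∫ x, θ (g' • x) * f k x ∂μ - ∫ x, θ x * f k x ∂μ) U (𝓝 0) := by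
    have := h4.sub h3
    rw [sub_zero] at this
    refine this.congr fun k => ?_
    ring
  have h6 := tendsto_nhds_unique h5 (h1.sub h2)
  linarith

end general

section spec

variable {X : Type*} [TopologicalSpace X] [LocallyCompactSpace X] [T2Space X]
  [SecondCountableTopology X] [MeasurableSpace X] [BorelSpace X]
variable {G : Type*} [Group G] [TopologicalSpace G] [IsTopologicalGroup G] [MulAction G X]
  [ContinuousSMul G X]

omit [LocallyCompactSpace X] [T2Space X] [SecondCountableTopology X] in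
/-- Weak limits of densities inherit limits of asymptotic symmetries. -/
theorem invD_limit {ι : Type*} (U : Ultrafilter ι) (μ : Measure X) [IsProbabilityMeasure μ]
    (f : ι → Lp ℝ 2 μ) (C : ℝ) (hC : ∀ k, ‖f k‖ ≤ C) (φ : Lp ℝ 2 μ)
    (hφ : ∀ ψ : Lp ℝ 2 μ, Tendsto (fun k => inner ℝ (f k) ψ) U (𝓝 (inner ℝ φ ψ)))
    (g : ι → G) (g' : G) (hg : Tendsto g U (𝓝 g'))
    (h : ∀ θ : C(X, ℝ), HasCompactSupport θ →
      Tendsto (fun k => ∫ x, θ (g k • x) * f k x ∂μ - ∫ x, θ x * f k x ∂μ) U (𝓝 0)) :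
    InvD μ g' φ := invD_limit' U μ f C hC φ hφ g g' hg h

end spec

end Pool.Agent.Work.MP_67388f_an
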