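import Pool.Agent.Work.MP_67388f_an.TV.Defs
import Pool.Agent.Work.MP_67388f_an.Share
import Pool.Agent.Work.MP_67388f_an.Uni

set_option autoImplicit false

namespace Pool.Agent.Work.MP_67388f_an

open MeasureTheory Filter Topology Matrix

section zed

variable {X : Type*} [TopologicalSpace X] [LocallyCompactSpace X] [T2Space X]
  [SecondCountableTopology X] [MeasurableSpace X] [BorelSpace X]
variable {G : Type*} [Group G] [TopologicalSpace G] [IsTopologicalGroup G] [MulAction G X]
  [ContinuousSMul G X]

/-- the density of an invariant measure with respect to an ergodic one is constant -/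
private lemma zed_const (μ ν : Measure X) [IsProbabilityMeasure μ] [IsProbabilityMeasure ν]
    (A : Subgroup G)
    (hμ : ∀ a ∈ A, μ.map (fun z => a • z) = μ) (hν : ∀ a ∈ A, ν.map (fun z => a • z) = ν)
    (herg : ∀ s : Set X, MeasurableSet s → (∀ a ∈ A, (fun z => a • z) ⁻¹' s =ᵐ[μ] s) →
      μ s = 0 ∨ μ sᶜ = 0) :
    ∃ c : ENNReal, ν.rnDeriv μ =ᵐ[μ] Function.const X c := by
  refine Filter.exists_eventuallyEq_const_of_forall_separating (MeasurableSet) ?_
  intro U hU
  have hs : MeasurableSet (ν.rnDeriv μ ⁻¹' U) := (Measure.measurable_rnDeriv ν μ) hU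
  have := herg (ν.rnDeriv μ ⁻¹' U) hs ?_
  · rcases this with h | h
    · right
      rw [ae_iff]
      simp only [not_not]
      exact h
    · left
      rw [ae_iff]
      exact h
  · intro a ha
    have h1 := (smul_emb (X := X) a).rnDeriv_map ν μ
    rw [hμ a ha, hν a ha] at h1
    filter_upwards [h1] with x hx
    show (ν.rnDeriv μ (a • x) ∈ U) = (ν.rnDeriv μ x ∈ U)
    rw [hx]

/-- An element commuting with an ergodic group either preserves the measure or moves it to a
singular one. -/
theorem commute_inv (μ : Measure X) [IsProbabilityMeasure μ] (A : Subgroup G)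
    (hμ : ∀ a ∈ A, μ.map (fun z => a • z) = μ)
    (herg : ∀ s : Set X, MeasurableSet s → (∀ a ∈ A, (fun z => a • z) ⁻¹' s =ᵐ[μ] s) →
      μ s = 0 ∨ μ sᶜ = 0)
    (z : G) (hz : ∀ a ∈ A, a * z = z * a) (hns : ¬ (μ.map (fun x => z • x)) ⟂ₘ μ) :
    μ.map (fun x => z • x) = μ := by
  set ν : Measure X := μ.map (fun x => z • x) with hνdef
  have hzm : Measurable (fun x : X => z • x) := smul_measurable z
  have : IsProbabilityMeasure ν := Measure.isProbabilityMeasure_map hzm.aemeasurable
  have hν : ∀ a ∈ A, ν.map (fun x => a • x) = ν := by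
    intro a ha
    have h1 : (fun x : X => a • x) ∘ (fun x => z • x) = (fun x => z • x) ∘ (fun x => a • x) := by
      ext x
      simp only [Function.comp_apply, ← mul_smul, hz a ha]
    rw [hνdef, Measure.map_map (smul_measurable a) hzm, h1,
      ← Measure.map_map hzm (smul_measurable a), hμ a ha]
  have hergν : ∀ s : Set X, MeasurableSet s → (∀ a ∈ A, (fun z => a • z) ⁻¹' s =ᵐ[ν] s) →
      ν s = 0 ∨ ν sᶜ = 0 := by
    intro s hs hinv
    have := herg ((fun x => z • x) ⁻¹' s) (hzm hs) ?_
    · rw [← Set.preimage_compl, ← Measure.map_apply hzm hs, ← Measure.map_apply hzm hs.compl]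
        at this
      exact this
    · intro a ha
      have h1 := hinv a ha
      have h2 : ∀ᵐ x ∂μ, ((fun z => a • z) ⁻¹' s) (z • x) = s (z • x) :=
        ae_of_ae_map hzm.aemeasurable h1
      filter_upwards [h2] with x hx
      show (z • a • x ∈ s) = (z • x ∈ s)
      have h3 : (a • z • x ∈ s) = (z • x ∈ s) := hx
      rw [← h3, ← mul_smul, ← mul_smul, hz a ha]
  obtain ⟨c, hc⟩ := zed_const μ ν A hμ hν herg
  obtain ⟨d, hd⟩ := zed_const ν μ A hν hμ hergν
  -- Lebesgue decompositions
  have hdec := Measure.haveLebesgueDecomposition_add ν μ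
  have hwd : μ.withDensity (ν.rnDeriv μ) = c • μ := by
    rw [withDensity_congr_ae hc]
    exact withDensity_const c
  have hwd' : ν.withDensity (μ.rnDeriv ν) = d • ν := by
    rw [withDensity_congr_ae hd]
    exact withDensity_const d
  have hc0 : c ≠ 0 := by
    intro h0
    apply hns
    rw [hwd, h0, zero_smul, add_zero] at hdec
    rw [hdec]
    exact Measure.mutuallySingular_singularPart ν μ
  have hac : μ ≪ ν := by
    intro s hs
    rw [hdec, hwd] at hs
    have h1 : (c • μ) s = 0 := by
      rw [Measure.add_apply] at hs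
      exact (add_eq_zero.1 hs).2
    rw [Measure.smul_apply, smul_eq_mul, mul_eq_zero] at h1
    exact h1.resolve_left hc0
  have h2 : d • ν = μ := by
    rw [← hwd']
    exact Measure.withDensity_rnDeriv_eq μ ν hac
  have h3 : d = 1 := by
    have := congrArg (fun m => m Set.univ) h2
    simpa using this
  rw [h3, one_smul] at h2
  exact h2

end zed

end Pool.Agent.Work.MP_67388f_an
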