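import Pool.Agent.Work.MP_67388f_an.TV.TVA
import Pool.Agent.Work.MP_67388f_an.TV.INV
import Pool.Agent.Work.MP_67388f_an.TV.WEAK
import Pool.Agent.Work.MP_67388f_an.TV.SPREAD
import Pool.Agent.Work.MP_67388f_an.TV.ZED
import Pool.Agent.Work.MP_67388f_an.TV.REG
import Pool.Agent.Work.MP_67388f_an.TV.BLOW
import Pool.Agent.Work.MP_67388f_an.TV.POW
import Pool.Agent.Work.MP_67388f_an.TV.PEEL
import Pool.Agent.Work.MP_67388f_an.TV.Up
import Pool.Agent.Work.MP_67388f_an.TV.Fun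

set_option autoImplicit false

namespace Pool.Agent.Work.MP_67388f_an

open MeasureTheory Filter Topology Matrix

variable {X : Type*} [TopologicalSpace X] [LocallyCompactSpace X] [T2Space X]
  [SecondCountableTopology X] [MeasurableSpace X] [BorelSpace X]
variable {G : Type*} [Group G] [TopologicalSpace G] [IsTopologicalGroup G] [MulAction G X]
  [ContinuousSMul G X]
variable {L : Type*} [Group L] [TopologicalSpace L] [IsTopologicalGroup L]
variable {n : ℕ}

theorem expo_conj' (β : Fin n → ℝ) (b e : SpecialLinearGroup (Fin n) ℝ)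
    (hb : b.1 = diagonal β) (Y : Matrix (Fin n) (Fin n) ℝ) (c x : ℝ)
    (hc : ∀ i j, Y i j ≠ 0 → β i = c * β j) (he : e.1 = expo Y x) :
    (b * e * b⁻¹).1 = expo Y (c * x) := by
  classical
  have h1 : b.1 * Y = c • (Y * b.1) := by
    ext i j
    rw [hb, diagonal_mul, Matrix.smul_apply, mul_diagonal, smul_eq_mul]
    by_cases h : Y i j = 0
    · rw [h]; ring
    · rw [hc i j h]; ring
  have h2 : ∀ r : ℕ, b.1 * Y ^ r = c ^ r • (Y ^ r * b.1) := by
    intro r
    induction r with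
    | zero => simp
    | succ r ih =>
      rw [pow_succ, ← mul_assoc, ih, smul_mul_assoc, mul_assoc, h1, mul_smul_comm, smul_smul,
        ← pow_succ, ← mul_assoc]
  have key : b.1 * e.1 = expo Y (c * x) * b.1 := by
    rw [he]
    unfold expo
    rw [Finset.mul_sum, Finset.sum_mul]
    refine Finset.sum_congr rfl fun r _ => ?_
    rw [mul_smul_comm, h2, smul_smul, smul_mul_assoc]
    congr 1
    rw [mul_pow]
    ring
  have h3 : (b * e * b⁻¹).1 = b.1 * e.1 * (b⁻¹).1 := rfl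
  have h4 : b.1 * (b⁻¹).1 = 1 := congrArg Subtype.val (mul_inv_cancel b)
  rw [h3, key, mul_assoc, h4, mul_one]

/-- The stabilizer of `μ` in `G`. -/
def stb (μ : Measure X) : Subgroup G where
  carrier := {g | μ.map (fun z => g • z) = μ}
  one_mem' := by simp
  mul_mem' := by
    intro a b ha hb
    simp only [Set.mem_ofPred_eq] at *
    rw [← map_map_smul, hb, ha]
  inv_mem' := by
    intro a ha
    simp only [Set.mem_ofPred_eq] at *
    conv_lhs => rw [← ha]
    rw [map_map_smul]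
    simp

lemma mem_stb {μ : Measure X} {g : G} : g ∈ stb (G := G) μ ↔ μ.map (fun z => g • z) = μ := Iff.rfl

lemma stb_closed (μ : Measure X) [IsProbabilityMeasure μ] : IsClosed (stb (G := G) μ : Set G) := by
  have : (stb (G := G) μ : Set G) = ⋂ (θ : C(X, ℝ)) (_ : HasCompactSupport θ),
      {g : G | ∫ x, θ (g • x) ∂μ = ∫ x, θ x ∂μ} := by
    ext g
    simp only [SetLike.mem_coe, mem_stb, map_eq_iff_test, Set.mem_iInter, Set.mem_ofPred_eq]
  rw [this]
  refine isClosed_iInter fun θ => isClosed_iInter fun hθ => ?_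
  refine isClosed_eq ?_ continuous_const
  -- continuity of g ↦ ∫ θ (g x)
  rw [continuous_iff_continuousAt]
  intro g₀
  rw [ContinuousAt, Metric.tendsto_nhds]
  intro e he
  have h1 : Tendsto (fun g : G => g * g₀⁻¹) (𝓝 g₀) (𝓝 1) := by
    have := (continuous_mul_const g₀⁻¹).tendsto g₀
    rwa [mul_inv_cancel] at this
  filter_upwards [h1.eventually (unif_action θ hθ (e / 2) (by positivity))] with g hg
  have hint : ∀ k : G, Integrable (fun x => θ (k • x)) μ := by
    intro k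
    obtain ⟨C, hC⟩ := hθ.exists_bound_of_continuous θ.continuous
    refine Integrable.of_bound (C := C)
      (θ.continuous.comp (continuous_const_smul k)).measurable.aestronglyMeasurable ?_
    exact Eventually.of_forall fun x => hC _
  rw [Real.dist_eq, ← integral_sub (hint g) (hint g₀)]
  have h2 : ‖∫ x, (θ (g • x) - θ (g₀ • x)) ∂μ‖ ≤ (e / 2) * μ.real Set.univ := by
    refine norm_integral_le_of_norm_le_const (Eventually.of_forall fun x => ?_)
    have := hg (g₀ • x)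
    rw [smul_smul, inv_mul_cancel_right] at this
    rw [Real.norm_eq_abs]
    exact this.le
  rw [probReal_univ, mul_one, Real.norm_eq_abs] at h2
  linarith


/-- indicator functions as elements of `L²` -/
noncomputable def ind (μ : Measure X) [IsFiniteMeasure μ] (E : Set X) (hE : MeasurableSet E) :
    Lp ℝ 2 μ := indicatorConstLp 2 hE (measure_ne_top μ E) 1

lemma meas_smul (a : G) : Measurable (fun z : X => a • z) := (continuous_const_smul a).measurable

lemma int_ind (μ : Measure X) [IsFiniteMeasure μ] (a : G) (ha : a ∈ stb (G := G) μ) (F : Set X)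
    (hF : MeasurableSet F) (ψ : X → ℝ) (hψ : Measurable ψ) :
    ∫ x, ψ x * ind μ ((fun z => a⁻¹ • z) ⁻¹' F) (meas_smul a⁻¹ hF) x ∂μ
      = ∫ y in F, ψ (a • y) ∂μ := by
  have hE : MeasurableSet ((fun z : X => a⁻¹ • z) ⁻¹' F) := meas_smul a⁻¹ hF
  have h1 : ∫ x, ψ x * ind μ ((fun z => a⁻¹ • z) ⁻¹' F) (meas_smul a⁻¹ hF) x ∂μ
      = ∫ x in ((fun z : X => a⁻¹ • z) ⁻¹' F), ψ x ∂μ := by
    rw [← integral_indicator hE]
    refine integral_congr_ae ?_
    have h2 := indicatorConstLp_coeFn (p := 2) (hs := hE) (hμs := measure_ne_top μ _) (c := (1 : ℝ))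
    filter_upwards [h2] with x hx
    unfold ind
    rw [hx]
    by_cases h : x ∈ ((fun z : X => a⁻¹ • z) ⁻¹' F)
    · rw [Set.indicator_of_mem h, Set.indicator_of_mem h, mul_one]
    · rw [Set.indicator_of_notMem h, Set.indicator_of_notMem h, mul_zero]
  rw [h1]
  have ha' : μ.map (fun z => a • z) = μ := ha
  conv_lhs => rw [← ha']
  rw [setIntegral_map hE hψ.aestronglyMeasurable (meas_smul a).aemeasurable]
  congr 2
  have : (fun z : X => a • z) ⁻¹' ((fun z : X => a⁻¹ • z) ⁻¹' F) = F := by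
    ext z; simp
  rw [this]

/-- blow-up limits -/
lemma limit_inv (U : Ultrafilter ℕ) (μ : Measure X) [IsProbabilityMeasure μ] (a : ℕ → G)
    (ha : ∀ k, a k ∈ stb (G := G) μ) (F : Set X) (hF : MeasurableSet F) (φ : Lp ℝ 2 μ)
    (hφ : ∀ ψ : Lp ℝ 2 μ, Tendsto (fun k => inner ℝ
      (ind μ ((fun z => (a k)⁻¹ • z) ⁻¹' F) (meas_smul (a k)⁻¹ hF)) ψ) U (𝓝 (inner ℝ φ ψ)))
    (h : ℕ → G) (hh : TVto (U : Filter ℕ) h (μ.restrict F)) (w : G)
    (hw : Tendsto (fun k => a k * h k * (a k)⁻¹) U (𝓝 w)) : InvD μ w φ := by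
  refine invD_limit U μ (fun k => ind μ ((fun z => (a k)⁻¹ • z) ⁻¹' F) (meas_smul (a k)⁻¹ hF)) 1 ?_
    φ hφ (fun k => a k * h k * (a k)⁻¹) w hw ?_
  · intro k
    unfold ind
    rw [norm_indicatorConstLp (by norm_num) (by norm_num)]
    simp only [norm_one, ENNReal.toReal_ofNat, one_mul]
    have h1 : μ.real ((fun z => (a k)⁻¹ • z) ⁻¹' F) ≤ 1 := measureReal_le_one
    have h0 : 0 ≤ μ.real ((fun z => (a k)⁻¹ • z) ⁻¹' F) := measureReal_nonneg
    exact Real.rpow_le_one h0 h1 (by norm_num)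
  · intro θ hθ
    obtain ⟨C, hC⟩ := hθ.exists_bound_of_continuous θ.continuous
    have h1 := tv_fun h (μ.restrict F) hh (fun k x => θ (a k • x))
      (fun k => θ.continuous.measurable.comp (meas_smul (a k))) C (fun k x => hC _)
    refine h1.congr fun k => ?_
    rw [int_ind μ (a k) (ha k) F hF (fun x => θ ((a k * h k * (a k)⁻¹) • x))
      (θ.continuous.measurable.comp (meas_smul _)),
      int_ind μ (a k) (ha k) F hF (fun x => θ x) θ.continuous.measurable]
    congr 2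
    ext y
    rw [smul_smul, smul_smul, inv_mul_cancel_right]


lemma invD_pow (μ : Measure X) (φ : X → ℝ) (g : G) (hg : InvD μ g φ) (k : ℕ) :
    InvD μ (g ^ k) φ := by
  induction k with
  | zero => rw [pow_zero]; exact invD_one μ φ
  | succ k ih => rw [pow_succ]; exact invD_mul μ φ _ _ ih hg

section pos

variable (κ : L →* SpecialLinearGroup (Fin n) ℝ) (j : L →* G) (p : G →* L)

/-- the expanding part of the stabilizer of `μ` -/
def upS (α : Fin n → ℝ) (μ : Measure X) : Subgroup L where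
  carrier := {u | IsUp α (κ u) ∧ j u ∈ stb (X := X) μ}
  one_mem' := ⟨by rw [map_one]; exact IsUp.one α, by rw [map_one]; exact one_mem _⟩
  mul_mem' := fun ha hb => ⟨by rw [map_mul]; exact ha.1.mul hb.1,
    by rw [map_mul]; exact mul_mem ha.2 hb.2⟩
  inv_mem' := fun ha => ⟨by rw [map_inv]; exact ha.1.inv, by rw [map_inv]; exact inv_mem ha.2⟩

/-- the expanding symmetries of `φ μ` -/
def upD (α : Fin n → ℝ) (μ : Measure X) (φ : X → ℝ) : Subgroup L where
  carrier := {u | IsUp α (κ u) ∧ InvD μ (j u) φ}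
  one_mem' := ⟨by rw [map_one]; exact IsUp.one α, by rw [map_one]; exact invD_one μ φ⟩
  mul_mem' := fun ha hb => ⟨by rw [map_mul]; exact ha.1.mul hb.1,
    by rw [map_mul]; exact invD_mul μ φ _ _ ha.2 hb.2⟩
  inv_mem' := fun ha => ⟨by rw [map_inv]; exact ha.1.inv, by rw [map_inv]; exact invD_inv μ φ _ ha.2⟩

lemma isClosed_isUp (α : Fin n → ℝ) : IsClosed {u : SpecialLinearGroup (Fin n) ℝ | IsUp α u} := by
  have : {u : SpecialLinearGroup (Fin n) ℝ | IsUp α u} = ⋂ (i : Fin n) (k : Fin n)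
      (_ : wt α i k ≤ 0), {u | u.1 i k = (1 : Matrix (Fin n) (Fin n) ℝ) i k} := by
    ext u
    simp only [Set.mem_ofPred_eq, Set.mem_iInter]
    rfl
  rw [this]
  refine isClosed_iInter fun i => isClosed_iInter fun k => isClosed_iInter fun _ => ?_
  refine isClosed_eq ?_ continuous_const
  exact (continuous_apply_apply i k).comp continuous_subtype_val

/-- first moment as an inner product -/
lemma inner_one (μ : Measure X) [IsProbabilityMeasure μ] (φ : Lp ℝ 2 μ) :
    inner ℝ φ (ind μ Set.univ MeasurableSet.univ) = ∫ x, φ x ∂μ := by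
  rw [real_inner_comm]
  unfold ind
  rw [L2.inner_indicatorConstLp_one, setIntegral_univ]

theorem step_up (hκ : IsClosedEmbedding κ) (hj : Continuous j)
    (hjp : ∀ (g : G) (u : L), g * j u * g⁻¹ = j (p g * u * (p g)⁻¹))
    (A : Subgroup G) (μ : Measure X) [IsProbabilityMeasure μ]
    (hμ : ∀ a ∈ A, μ.map (fun z => a • z) = μ)
    (herg : ∀ s : Set X, MeasurableSet s → (∀ a ∈ A, (fun z => a • z) ⁻¹' s =ᵐ[μ] s) →
      μ s = 0 ∨ μ sᶜ = 0)
    (a₀ : G) (ha₀ : a₀ ∈ A) (α : Fin n → ℝ) (hα : ∀ i, 0 < α i)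
    (haα : (κ (p a₀)).1 = diagonal α)
    (hreg : ∀ b ∈ A, ∃ β : Fin n → ℝ, (κ (p b)).1 = diagonal β ∧
      ∀ l : ℝ, ∃ c : ℝ, ∀ i j, wt α i j = l → β i = c * β j)
    (φ : Lp ℝ 2 μ) (h0 : ∫ x, φ x ∂μ ≠ 0) (v : L) (hv : v ∈ upD κ j α μ φ) (l : ℝ) (hl : 0 < l)
    (hlow : ∀ i k, 0 < wt α i k → wt α i k < l → κ v i k = 0) :
    ∃ e : L, e ∈ upS κ j α μ ∧ ∀ i k, 0 < wt α i k → wt α i k ≤ l → κ (e⁻¹ * v) i k = 0 := by
  classical
  set Y : Matrix (Fin n) (Fin n) ℝ := fun i k => if wt α i k = l then κ v i k else 0 with hYdef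
  have hY : ∀ i k, Y i k = if wt α i k = l then κ v i k else 0 := fun i k => rfl
  set U : Ultrafilter ℕ := hyperfilter ℕ with hU
  have hUle : (U : Filter ℕ) ≤ atTop := by
    rw [← Nat.cofinite_eq_atTop]
    exact hyperfilter_le_cofinite
  have hmem : ∀ m : ℕ, a₀ ^ m ∈ A := fun m => pow_mem ha₀ m
  have hmp : ∀ m : ℕ, MeasurePreserving (fun x : X => (a₀ ^ m) • x) μ μ := fun m =>
    ⟨meas_smul _, hμ _ (hmem m)⟩
  set f : ℕ → Lp ℝ 2 μ := fun m => Lp.compMeasurePreserving (fun x : X => (a₀ ^ m) • x) (hmp m) φ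
    with hf
  have hfn : ∀ m, ‖f m‖ ≤ ‖φ‖ := fun m => by
    rw [hf]
    exact (Lp.norm_compMeasurePreserving φ (hmp m)).le
  have hfc : ∀ m, ((f m : Lp ℝ 2 μ) : X → ℝ) =ᵐ[μ] fun x => φ ((a₀ ^ m) • x) := fun m =>
    Lp.coeFn_compMeasurePreserving φ (hmp m)
  obtain ⟨φ', hφ'⟩ := weak_limit U f ‖φ‖ hfn
  -- first moment of φ'
  have h0' : ∫ x, φ' x ∂μ ≠ 0 := by
    have h1 := hφ' (ind μ Set.univ MeasurableSet.univ)
    rw [inner_one] at h1
    have h2 : ∀ m, inner ℝ (f m) (ind μ Set.univ MeasurableSet.univ) = ∫ x, φ x ∂μ := by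
      intro m
      rw [inner_one, integral_congr_ae (hfc m)]
      exact (hmp m).integral_comp (Homeomorph.smul (a₀ ^ m)).measurableEmbedding _
    simp_rw [h2] at h1
    rw [tendsto_nhds_unique h1 tendsto_const_nhds]
    exact h0
  -- elements with nonnegative parameter
  have key : ∀ x : ℝ, 0 ≤ x → ∃ e : L, (κ e).1 = expo Y x ∧ InvD μ (j e) φ' := by
    intro x hx
    obtain ⟨e', k, he', hlim⟩ := pow_contract α hα (κ (p a₀)) haα (κ v) hv.1 l hl hlow Y hY x hx
    have e1 : ∀ m : ℕ, (κ (p a₀) ^ m)⁻¹ * κ v ^ (k m) * κ (p a₀) ^ m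
        = κ ((p a₀ ^ m)⁻¹ * v ^ (k m) * p a₀ ^ m) := by
      intro m
      simp only [map_mul, map_inv, map_pow]
    simp_rw [e1] at hlim
    have hrange : e' ∈ Set.range κ := by
      refine hκ.isClosed_range.mem_of_tendsto hlim (Eventually.of_forall fun m => ⟨_, rfl⟩)
    obtain ⟨e, rfl⟩ := hrange
    refine ⟨e, he', ?_⟩
    have hlim2 : Tendsto (fun m => (p a₀ ^ m)⁻¹ * v ^ (k m) * p a₀ ^ m) atTop (𝓝 e) :=
      hκ.isEmbedding.tendsto_nhds_iff.2 hlim
    have hlim3 : Tendsto (fun m => j ((p a₀ ^ m)⁻¹ * v ^ (k m) * p a₀ ^ m)) U (𝓝 (j e)) :=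
      ((hj.tendsto e).comp hlim2).mono_left hUle
    refine invD_limit U μ f ‖φ‖ hfn φ' hφ' _ (j e) hlim3 ?_
    intro θ hθ
    refine tendsto_const_nhds.congr fun m => ?_
    symm
    rw [sub_eq_zero]
    have h1 : InvD μ ((a₀ ^ m)⁻¹ * j (v ^ (k m)) * ((a₀ ^ m)⁻¹)⁻¹)
        (fun x => φ (((a₀ ^ m)⁻¹)⁻¹ • x)) := by
      refine invD_conj μ φ _ _ (hμ _ (inv_mem (hmem m))) ?_
      rw [map_pow]
      exact invD_pow μ φ _ hv.2 _
    have h2 : (a₀ ^ m)⁻¹ * j (v ^ (k m)) * ((a₀ ^ m)⁻¹)⁻¹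
        = j ((p a₀ ^ m)⁻¹ * v ^ (k m) * p a₀ ^ m) := by
      rw [hjp]
      simp only [map_inv, map_pow, inv_inv]
    rw [h2] at h1
    have h3 := h1 θ hθ
    simp only [inv_inv] at h3
    have e4 : ∀ ψ : X → ℝ, ∫ x, ψ x * f m x ∂μ = ∫ x, ψ x * φ ((a₀ ^ m) • x) ∂μ := by
      intro ψ
      refine integral_congr_ae ?_
      filter_upwards [hfc m] with x hx
      rw [hx]
    rw [e4 (fun x => θ (j ((p a₀ ^ m)⁻¹ * v ^ (k m) * p a₀ ^ m) • x)), e4 (fun x => θ x)]
    exact h3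
  -- the normalized set
  set T : Set G := {g | ∃ (e : L) (x : ℝ), g = j e ∧ (κ e).1 = expo Y x} with hT
  have hTA : ∀ a ∈ A, ∀ g ∈ T, a * g * a⁻¹ ∈ T := by
    rintro b hb g ⟨e, x, rfl, he⟩
    obtain ⟨β, hβ, hc⟩ := hreg b hb
    obtain ⟨c, hc⟩ := hc l
    refine ⟨p b * e * (p b)⁻¹, c * x, hjp b e, ?_⟩
    have := expo_conj' β (κ (p b)) (κ e) hβ Y c x (fun i k hik => by
      apply hc i k
      by_contra hne
      apply hik
      rw [hY, if_neg hne]) he
    rw [← this]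
    simp only [map_mul, map_inv]
  have hTD : ∀ g ∈ T, InvD μ g φ' := by
    rintro g ⟨e, x, rfl, he⟩
    rcases le_or_gt 0 x with hx | hx
    · obtain ⟨e', he', h1⟩ := key x hx
      have : e = e' := hκ.injective (Subtype.ext (he.trans he'.symm))
      rw [this]; exact h1
    · obtain ⟨e', he', h1⟩ := key (-x) (by linarith)
      have h2 := expo_neg α Y l hl (fun i k hik => by rw [hY, if_neg hik]) (-x) (κ e') (κ e) he'
        (by rw [neg_neg]; exact he)
      rw [← map_inv] at h2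
      rw [hκ.injective h2, map_inv]
      exact invD_inv μ φ' _ h1
  have hinv := spread μ A hμ herg T hTA φ' hTD h0'
  obtain ⟨e, he, -⟩ := key 1 zero_le_one
  obtain ⟨p1, -, p3⟩ := peel α (κ v) (κ e) hv.1 l hl hlow Y hY he
  refine ⟨e, ⟨p1, hinv (j e) ⟨e, 1, rfl, he⟩⟩, ?_⟩
  intro i k h1 h2
  rw [map_mul, map_inv]
  exact p3 i k h1 h2

/-- All expanding symmetries of a weak limit are symmetries of `μ`. -/
theorem upD_le (hκ : IsClosedEmbedding κ) (hj : Continuous j)
    (hjp : ∀ (g : G) (u : L), g * j u * g⁻¹ = j (p g * u * (p g)⁻¹))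
    (A : Subgroup G) (μ : Measure X) [IsProbabilityMeasure μ]
    (hμ : ∀ a ∈ A, μ.map (fun z => a • z) = μ)
    (herg : ∀ s : Set X, MeasurableSet s → (∀ a ∈ A, (fun z => a • z) ⁻¹' s =ᵐ[μ] s) →
      μ s = 0 ∨ μ sᶜ = 0)
    (a₀ : G) (ha₀ : a₀ ∈ A) (α : Fin n → ℝ) (hα : ∀ i, 0 < α i)
    (haα : (κ (p a₀)).1 = diagonal α)
    (hreg : ∀ b ∈ A, ∃ β : Fin n → ℝ, (κ (p b)).1 = diagonal β ∧
      ∀ l : ℝ, ∃ c : ℝ, ∀ i j, wt α i j = l → β i = c * β j)
    (φ : Lp ℝ 2 μ) (h0 : ∫ x, φ x ∂μ ≠ 0) (hSD : upS κ j α μ ≤ upD κ j α μ φ) :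
    upD κ j α μ φ ≤ upS κ j α μ := by
  classical
  intro v₀ hv₀
  by_contra hv₀'
  set W : Finset ℝ := Finset.univ.image (fun q : Fin n × Fin n => wt α q.1 q.2) with hW
  have claim : ∀ N : ℕ, ∃ v : L, v ∈ upD κ j α μ φ ∧ v ∉ upS κ j α μ ∧
      N ≤ (W.filter (fun x => ∀ i k, 0 < wt α i k → wt α i k ≤ x → κ v i k = 0)).card := by
    intro N
    induction N with
    | zero => exact ⟨v₀, hv₀, hv₀', Nat.zero_le _⟩
    | succ N ih =>
      obtain ⟨v, hv, hv', hN⟩ := ih
      -- a nonzero entry of positive weight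
      have hex : ∃ q : Fin n × Fin n, 0 < wt α q.1 q.2 ∧ κ v q.1 q.2 ≠ 0 := by
        by_contra hcon
        push Not at hcon
        apply hv'
        have h1 : κ v = 1 := by
          apply Subtype.ext
          ext i k
          rcases le_or_gt (wt α i k) 0 with h | h
          · exact hv.1 i k h
          · have h2 := hcon (i, k) h
            have h3 : i ≠ k := by
              rintro rfl
              rw [wt_self] at h
              exact lt_irrefl _ h
            have h4 : (1 : Matrix (Fin n) (Fin n) ℝ) i k = 0 := one_apply_ne h3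
            exact h2.trans h4.symm
        have h2 : v = 1 := hκ.injective (h1.trans (map_one κ).symm)
        rw [h2]
        exact one_mem _
      set Q : Finset (Fin n × Fin n) := Finset.univ.filter
        (fun q => 0 < wt α q.1 q.2 ∧ κ v q.1 q.2 ≠ 0) with hQ
      have hQne : Q.Nonempty := by
        obtain ⟨q, hq⟩ := hex
        exact ⟨q, Finset.mem_filter.2 ⟨Finset.mem_univ _, hq⟩⟩
      obtain ⟨q₀, hq₀, hmin⟩ := Finset.exists_min_image Q (fun q => wt α q.1 q.2) hQne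
      have hq₀' := (Finset.mem_filter.1 hq₀).2
      set l : ℝ := wt α q₀.1 q₀.2 with hl
      have hlow : ∀ i k, 0 < wt α i k → wt α i k < l → κ v i k = 0 := by
        intro i k h1 h2
        by_contra hne
        have := hmin (i, k) (Finset.mem_filter.2 ⟨Finset.mem_univ _, h1, hne⟩)
        exact absurd h2 (not_lt.2 this)
      obtain ⟨e, he, he'⟩ := step_up κ j p hκ hj hjp A μ hμ herg a₀ ha₀ α hα haα hreg φ h0 v hv l
        hq₀'.1 hlow
      refine ⟨e⁻¹ * v, mul_mem (inv_mem (hSD he)) hv, ?_, ?_⟩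
      · intro hmem
        apply hv'
        have := mul_mem he hmem
        rwa [mul_inv_cancel_left] at this
      · refine lt_of_le_of_lt hN (Finset.card_lt_card ?_)
        rw [Finset.ssubset_iff_of_subset]
        · refine ⟨l, ?_, ?_⟩
          · rw [Finset.mem_filter]
            refine ⟨Finset.mem_image.2 ⟨q₀, Finset.mem_univ _, rfl⟩, he'⟩
          · rw [Finset.mem_filter]
            rintro ⟨-, h1⟩
            exact hq₀'.2 (h1 q₀.1 q₀.2 hq₀'.1 le_rfl)
        · intro x hx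
          rw [Finset.mem_filter] at hx ⊢
          refine ⟨hx.1, fun i k h1 h2 => he' i k h1 ?_⟩
          by_contra hcon
          push Not at hcon
          exact hq₀'.2 (hx.2 q₀.1 q₀.2 hq₀'.1 (hcon.le.trans h2))
  obtain ⟨v, -, -, hN⟩ := claim (W.card + 1)
  have := Finset.card_filter_le W
    (fun x => ∀ i k, 0 < wt α i k → wt α i k ≤ x → κ v i k = 0)
  omega

/-- The positive part of a sequence of asymptotic symmetries lies in the stabilizer. -/
theorem pos_part (hκ : IsClosedEmbedding κ) (hj : Continuous j)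
    (hjp : ∀ (g : G) (u : L), g * j u * g⁻¹ = j (p g * u * (p g)⁻¹))
    (A : Subgroup G) (μ : Measure X) [IsProbabilityMeasure μ]
    (hμ : ∀ a ∈ A, μ.map (fun z => a • z) = μ)
    (herg : ∀ s : Set X, MeasurableSet s → (∀ a ∈ A, (fun z => a • z) ⁻¹' s =ᵐ[μ] s) →
      μ s = 0 ∨ μ sᶜ = 0)
    (a₀ : G) (ha₀ : a₀ ∈ A) (α : Fin n → ℝ) (hα : ∀ i, 0 < α i)
    (haα : (κ (p a₀)).1 = diagonal α)
    (hreg : ∀ b ∈ A, ∃ β : Fin n → ℝ, (κ (p b)).1 = diagonal β ∧
      ∀ l : ℝ, ∃ c : ℝ, ∀ i j, wt α i j = l → β i = c * β j)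
    (F : Set X) (hF : MeasurableSet F) (hF0 : μ F ≠ 0) (g : ℕ → L)
    (hg : Tendsto g atTop (𝓝 1)) (hTV : TVto atTop (fun k => j (g k)) (μ.restrict F)) :
    ∃ u : ℕ → L, (∀ k, u k ∈ upS κ j α μ) ∧ Tendsto u atTop (𝓝 1) ∧
      ∀ᶠ k in atTop, IsLow α (κ ((u k)⁻¹ * g k)) := by
  classical
  have hres : (μ.restrict F) ≪ μ := Measure.restrict_le_self.absolutelyContinuous
  set Sp : Subgroup (SpecialLinearGroup (Fin n) ℝ) := (upS κ j α μ).map κ with hSp
  have hcl : IsClosed (Sp : Set (SpecialLinearGroup (Fin n) ℝ)) := by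
    have h1 : (Sp : Set (SpecialLinearGroup (Fin n) ℝ)) = κ '' (upS κ j α μ : Set L) := by
      rw [hSp]; exact Subgroup.coe_map κ _
    rw [h1]
    refine hκ.isClosedMap _ ?_
    have h2 : (upS κ j α μ : Set L) = (κ ⁻¹' {u | IsUp α u}) ∩ (j ⁻¹' (stb (G := G) μ : Set G)) := rfl
    rw [h2]
    exact ((isClosed_isUp α).preimage hκ.continuous).inter ((stb_closed μ).preimage hj)
  have hup : ∀ u ∈ Sp, IsUp α u := by
    rintro u ⟨u', hu', rfl⟩
    exact hu'.1
  have hdiag : ∀ u : L, IsUp α (κ u) → IsUp α (κ ((p a₀)⁻¹ * u * p a₀)) := by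
    intro u hu i k hik
    have e1 : (κ ((p a₀)⁻¹ * u * p a₀)) = (κ (p a₀))⁻¹ * κ u * κ (p a₀) := by
      simp only [map_mul, map_inv]
    have e2 : κ (p a₀) * ((κ (p a₀))⁻¹ * κ u * κ (p a₀)) = κ u * κ (p a₀) := by group
    rw [← e1] at e2
    have e3 := congrArg (fun M : SpecialLinearGroup (Fin n) ℝ => M.1 i k) e2
    have e4 : (κ (p a₀)).1 * (κ ((p a₀)⁻¹ * u * p a₀)).1 = (κ u).1 * (κ (p a₀)).1 :=
      congrArg Subtype.val e2
    rw [haα] at e4
    have e5 := congrFun (congrFun e4 i) k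
    rw [diagonal_mul, mul_diagonal] at e5
    have h1 : (κ u).1 i k = (1 : Matrix (Fin n) (Fin n) ℝ) i k := hu i k hik
    rw [h1] at e5
    have hαi := hα i
    by_cases hne : i = k
    · subst hne
      rw [one_apply_eq, one_mul] at e5
      rw [one_apply_eq]
      exact mul_left_cancel₀ hαi.ne' (e5.trans (mul_one _).symm)
    · rw [one_apply_ne hne, zero_mul] at e5
      rw [one_apply_ne hne]
      exact (mul_eq_zero.1 e5).resolve_left hαi.ne'
  have hstb : ∀ a ∈ A, a ∈ stb (G := G) μ := fun a ha => hμ a ha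
  have hconj : ∀ u ∈ Sp, (κ (p a₀))⁻¹ * u * κ (p a₀) ∈ Sp := by
    rintro u ⟨u', hu', rfl⟩
    refine ⟨(p a₀)⁻¹ * u' * p a₀, ⟨hdiag u' hu'.1, ?_⟩, by simp only [map_mul, map_inv]⟩
    have h1 := hjp a₀⁻¹ u'
    rw [inv_inv, map_inv, inv_inv] at h1
    rw [← h1]
    exact mul_mem (mul_mem (inv_mem (hstb a₀ ha₀)) hu'.2) (hstb a₀ ha₀)
  have hg' : Tendsto (fun k => κ (g k)) atTop (𝓝 1) := by
    have := (hκ.continuous.tendsto 1).comp hg
    rwa [map_one] at this
  obtain ⟨u', hu'S, hu'1, hcase⟩ := blowup α hα (κ (p a₀)) haα Sp hcl hup hconj _ hg'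
  choose u huS huu using hu'S
  have hu1 : Tendsto u atTop (𝓝 1) := by
    rw [hκ.isEmbedding.tendsto_nhds_iff, map_one]
    refine hu'1.congr fun k => (huu k).symm
  refine ⟨u, huS, hu1, ?_⟩
  rcases hcase with hlow | ⟨U, hU, m, w, hw, hwup, hwS⟩
  · filter_upwards [hlow] with k hk
    rw [map_mul, map_inv, huu]
    exact hk
  exfalso
  -- total variation
  have hTVu : TVto atTop (fun k => j (u k)) (μ.restrict F) := by
    refine tv_ac _ ?_ μ _ (tv_of_inv _ μ fun k => (huS k).2) hres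
    have := (hj.tendsto 1).comp hu1
    rwa [map_one] at this
  have hTVh : TVto atTop (fun k => j ((u k)⁻¹ * g k)) (μ.restrict F) := by
    have h1 := tv_mul _ _ _ (tv_inv _ _ hTVu) hTV
    intro ε hε
    filter_upwards [h1 ε hε] with k hk
    rw [map_mul, map_inv]
    exact hk
  have hTVU : TVto (U : Filter ℕ) (fun k => j ((u k)⁻¹ * g k)) (μ.restrict F) :=
    fun ε hε => (hTVh ε hε).filter_mono hU
  -- the limit belongs to L
  have e1 : ∀ k, κ (p a₀) ^ (m k) * ((u' k)⁻¹ * κ (g k)) * (κ (p a₀) ^ (m k))⁻¹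
      = κ (p a₀ ^ (m k) * ((u k)⁻¹ * g k) * (p a₀ ^ (m k))⁻¹) := by
    intro k
    rw [← huu]
    simp only [map_mul, map_inv, map_pow]
  simp_rw [e1] at hw
  obtain ⟨w', rfl⟩ : w ∈ Set.range κ :=
    hκ.isClosed_range.mem_of_tendsto hw (Eventually.of_forall fun k => ⟨_, rfl⟩)
  have hw2 : Tendsto (fun k => p a₀ ^ (m k) * ((u k)⁻¹ * g k) * (p a₀ ^ (m k))⁻¹) U (𝓝 w') :=
    hκ.isEmbedding.tendsto_nhds_iff.2 hw
  have hw3 : Tendsto (fun k => a₀ ^ (m k) * j ((u k)⁻¹ * g k) * (a₀ ^ (m k))⁻¹) U (𝓝 (j w')) := by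
    refine ((hj.tendsto w').comp hw2).congr fun k => ?_
    rw [hjp, map_pow]
    rfl
  -- m tends to infinity along U
  have hm : Tendsto m U atTop := by
    by_contra hcon
    rw [tendsto_atTop] at hcon
    push Not at hcon
    obtain ⟨N, hN⟩ := hcon
    have h1 : ∀ᶠ k in (U : Filter ℕ), m k ∈ Finset.range N := by
      filter_upwards [hN] with k hk
      rw [Finset.mem_range]
      exact hk
    have h2 : ∃ m₀, ∀ᶠ k in (U : Filter ℕ), m k = m₀ := by
      have h3 : (↑(Finset.range N) : Set ℕ) ∈ U.map m := h1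
      obtain ⟨m₀, -, hm₀⟩ := Ultrafilter.eq_pure_of_finite_mem (Finset.finite_toSet _) h3
      refine ⟨m₀, ?_⟩
      have h4 : {m₀} ∈ U.map m := by rw [hm₀]; exact Ultrafilter.mem_pure.2 rfl
      exact h4
    obtain ⟨m₀, hm₀⟩ := h2
    have h5 : Tendsto (fun k => p a₀ ^ m₀ * ((u k)⁻¹ * g k) * (p a₀ ^ m₀)⁻¹) U
        (𝓝 (p a₀ ^ m₀ * (1⁻¹ * 1) * (p a₀ ^ m₀)⁻¹)) :=
      (((hu1.inv.mul hg).const_mul _).mul_const _).mono_left hU
    have h6 : w' = 1 := by
      have h7 : Tendsto (fun k => p a₀ ^ (m k) * ((u k)⁻¹ * g k) * (p a₀ ^ (m k))⁻¹) U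
          (𝓝 (p a₀ ^ m₀ * (1⁻¹ * 1) * (p a₀ ^ m₀)⁻¹)) := by
        refine h5.congr' ?_
        filter_upwards [hm₀] with k hk
        rw [hk]
      have h8 := tendsto_nhds_unique (hκ.continuous.continuousAt.tendsto.comp hw2)
        (hκ.continuous.continuousAt.tendsto.comp h7)
      have h9 := hκ.injective h8
      rw [h9]; group
    apply hwS
    rw [h6, map_one]
    exact one_mem _
  -- weak limit
  have hstb0 : ∀ k, a₀ ^ (m k) ∈ stb (G := G) μ := fun k => pow_mem (hstb a₀ ha₀) _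
  set f : ℕ → Lp ℝ 2 μ := fun k => ind μ ((fun z => (a₀ ^ (m k))⁻¹ • z) ⁻¹' F)
    (meas_smul (a₀ ^ (m k))⁻¹ hF) with hf
  have hfn : ∀ k, ‖f k‖ ≤ 1 := by
    intro k
    simp only [hf, ind]
    rw [norm_indicatorConstLp (by norm_num) (by norm_num)]
    simp only [norm_one, ENNReal.toReal_ofNat, one_mul]
    exact Real.rpow_le_one measureReal_nonneg measureReal_le_one (by norm_num)
  obtain ⟨φ, hφ⟩ := weak_limit U f 1 hfn
  have h0 : ∫ x, φ x ∂μ ≠ 0 := by
    have h1 := hφ (ind μ Set.univ MeasurableSet.univ)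
    rw [inner_one] at h1
    have h2 : ∀ k, inner ℝ (f k) (ind μ Set.univ MeasurableSet.univ) = μ.real F := by
      intro k
      rw [inner_one]
      have h3 := int_ind μ (a₀ ^ (m k)) (hstb0 k) F hF (fun _ => 1) measurable_const
      simp only [one_mul, integral_const, smul_eq_mul, mul_one,
        measureReal_restrict_apply MeasurableSet.univ, Set.univ_inter] at h3
      exact h3
    simp_rw [h2] at h1
    rw [tendsto_nhds_unique h1 tendsto_const_nhds]
    rw [measureReal_def, Ne, ENNReal.toReal_eq_zero_iff]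
    push Not
    exact ⟨hF0, measure_ne_top _ _⟩
  -- symmetries of the weak limit
  have hSD : upS κ j α μ ≤ upD κ j α μ φ := by
    intro v hv
    refine ⟨hv.1, ?_⟩
    have hvk : ∀ k, j ((p a₀ ^ (m k))⁻¹ * v * p a₀ ^ (m k)) ∈ stb (G := G) μ := by
      intro k
      have h1 := hjp (a₀ ^ (m k))⁻¹ v
      rw [inv_inv, map_inv, inv_inv, map_pow] at h1
      rw [← h1]
      exact mul_mem (mul_mem (inv_mem (hstb0 k)) hv.2) (hstb0 k)
    refine limit_inv U μ (fun k => a₀ ^ (m k)) hstb0 F hF φ hφ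
      (fun k => j ((p a₀ ^ (m k))⁻¹ * v * p a₀ ^ (m k))) ?_ (j v) ?_
    · refine tv_ac _ ?_ μ _ (tv_of_inv _ μ hvk) hres
      have h1 := contract_up α hα (κ (p a₀)) haα (κ v) hv.1 m U hm
      have h2 : Tendsto (fun k => (p a₀ ^ (m k))⁻¹ * v * p a₀ ^ (m k)) U (𝓝 1) := by
        rw [hκ.isEmbedding.tendsto_nhds_iff, map_one]
        refine h1.congr fun k => ?_
        simp only [Function.comp, map_mul, map_inv, map_pow]
      have := (hj.tendsto 1).comp h2
      rwa [map_one] at this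
    · refine tendsto_const_nhds.congr fun k => ?_
      rw [hjp, map_pow]
      congr 1
      group
  have hwD : w' ∈ upD κ j α μ φ :=
    ⟨hwup, limit_inv U μ (fun k => a₀ ^ (m k)) hstb0 F hF φ hφ _ hTVU (j w') hw3⟩
  have := upD_le κ j p hκ hj hjp A μ hμ herg a₀ ha₀ α hα haα hreg φ h0 hSD hwD
  exact hwS ⟨w', this, rfl⟩

end pos

/-- The part of `μ` that is absolutely continuous with respect to a non-singular measure. -/
lemma exists_ac_part (μ ν : Measure X) [IsFiniteMeasure μ] [IsFiniteMeasure ν]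
    (hns : ¬ μ ⟂ₘ ν) : ∃ F : Set X, MeasurableSet F ∧ μ F ≠ 0 ∧ (μ.restrict F) ≪ ν := by
  have hm : Measurable (ν.rnDeriv μ) := Measure.measurable_rnDeriv _ _
  refine ⟨{x | ν.rnDeriv μ x ≠ 0}, hm (measurableSet_singleton 0).compl, ?_, ?_⟩
  · intro h0
    apply hns
    have hdec := Measure.haveLebesgueDecomposition_add ν μ
    have h1 : μ.withDensity (ν.rnDeriv μ) = 0 := by
      rw [withDensity_eq_zero_iff hm.aemeasurable]
      exact h0
    rw [h1, add_zero] at hdec
    rw [hdec]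
    exact (Measure.mutuallySingular_singularPart ν μ).symm
  · refine Measure.AbsolutelyContinuous.mk fun E hE hE0 => ?_
    have h1 : (μ.withDensity (ν.rnDeriv μ)) E = 0 :=
      le_antisymm ((Measure.withDensity_rnDeriv_le ν μ E).trans hE0.le) (zero_le)
    rw [withDensity_apply _ hE, lintegral_eq_zero_iff hm] at h1
    rw [Measure.restrict_apply hE]
    have h2 := (ae_restrict_iff' hE).1 h1
    have h3 : μ {x | ¬ (x ∈ E → (ν.rnDeriv μ x) = (0 : X → ENNReal) x)} = 0 := h2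
    refine measure_mono_null ?_ h3
    intro x hx
    simp only [Set.mem_ofPred_eq, Pi.zero_apply, Classical.not_imp]
    exact ⟨hx.1, hx.2⟩

theorem tv_rigid_abs (κ : L →* SpecialLinearGroup (Fin n) ℝ) (j : L →* G) (p : G →* L)
    (hκ : IsClosedEmbedding κ) (hj : Continuous j)
    (hjp : ∀ (g : G) (u : L), g * j u * g⁻¹ = j (p g * u * (p g)⁻¹))
    (A : Subgroup G) (μ : Measure X) [IsProbabilityMeasure μ]
    (hμ : ∀ a ∈ A, μ.map (fun z => a • z) = μ)
    (herg : ∀ s : Set X, MeasurableSet s → (∀ a ∈ A, (fun z => a • z) ⁻¹' s =ᵐ[μ] s) →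
      μ s = 0 ∨ μ sᶜ = 0)
    (hdiag : ∀ a ∈ A, ∀ i k, i ≠ k → κ (p a) i k = 0)
    (hclass : ∀ i k r s, (∀ a ∈ A, |κ (p a) i i * κ (p a) s s| = |κ (p a) k k * κ (p a) r r|) →
      ∀ a ∈ A, κ (p a) i i * κ (p a) s s = κ (p a) k k * κ (p a) r r)
    (ν : Measure X) [IsFiniteMeasure ν] (hns : ¬ μ ⟂ₘ ν) (g : ℕ → L)
    (hg : Tendsto g atTop (𝓝 1)) (hTV : TVto atTop (fun k => j (g k)) ν) :
    ∀ᶠ k in atTop, j (g k) ∈ stb (G := G) μ := by
  classical
  obtain ⟨F, hF, hF0, hac⟩ := exists_ac_part μ ν hns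
  have hres : (μ.restrict F) ≪ μ := Measure.restrict_le_self.absolutelyContinuous
  have htend : ∀ u : ℕ → L, Tendsto u atTop (𝓝 1) → Tendsto (fun k => j (u k)) atTop (𝓝 1) := by
    intro u hu
    have := (hj.tendsto 1).comp hu
    rwa [map_one] at this
  have hTVF : TVto atTop (fun k => j (g k)) (μ.restrict F) := tv_ac _ (htend g hg) ν _ hTV hac
  -- diagonal entries
  have hM : ∀ a ∈ A, (κ (p a)).1 = diagonal (fun i => κ (p a) i i) := by
    intro a ha
    ext i k
    by_cases h : i = k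
    · subst h; rw [diagonal_apply_eq]
    · rw [diagonal_apply_ne _ h]; exact hdiag a ha i k h
  have hne : ∀ a ∈ A, ∀ i, κ (p a) i i ≠ 0 := by
    intro a ha i
    have h2 := (κ (p a)).2
    rw [hM a ha, det_diagonal] at h2
    have h3 : ∏ i, (fun i => κ (p a) i i) i ≠ 0 := by
      rw [h2]; exact one_ne_zero
    exact Finset.prod_ne_zero_iff.1 h3 i (Finset.mem_univ i)
  have hmul : ∀ a ∈ A, ∀ b ∈ A, ∀ i, κ (p (a * b)) i i = κ (p a) i i * κ (p b) i i := by
    intro a ha b hb i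
    have h1 : (κ (p (a * b))).1 = (κ (p a)).1 * (κ (p b)).1 := by
      rw [map_mul, map_mul]; rfl
    have h2 := congrFun (congrFun h1 i) i
    rw [hM a ha, hM b hb, diagonal_mul_diagonal, diagonal_apply_eq] at h2
    exact h2
  -- characters
  let χ : (Fin n × Fin n × Fin n × Fin n) → A →* Multiplicative ℝ := fun q =>
    MonoidHom.mk' (fun a => Multiplicative.ofAdd
      (Real.log |κ (p a.1) q.1 q.1| + Real.log |κ (p a.1) q.2.2.2 q.2.2.2|
        - Real.log |κ (p a.1) q.2.1 q.2.1| - Real.log |κ (p a.1) q.2.2.1 q.2.2.1|)) (by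
      intro a b
      rw [← ofAdd_add]
      congr 1
      have h : ∀ i, Real.log |κ (p (a * b).1) i i|
          = Real.log |κ (p a.1) i i| + Real.log |κ (p b.1) i i| := by
        intro i
        rw [show (a * b).1 = a.1 * b.1 from rfl, hmul a.1 a.2 b.1 b.2 i, abs_mul, Real.log_mul]
        · exact abs_ne_zero.2 (hne a.1 a.2 i)
        · exact abs_ne_zero.2 (hne b.1 b.2 i)
      rw [h, h, h, h]
      ring)
  obtain ⟨a₁, ha₁⟩ := exists_regular χ
  set a₀ : G := a₁.1 ^ 2 with ha₀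
  have ha₀A : a₀ ∈ A := pow_mem a₁.2 2
  set α : Fin n → ℝ := fun i => (κ (p a₁.1) i i) ^ 2 with hαdef
  have hα : ∀ i, 0 < α i := fun i => by
    have := hne a₁.1 a₁.2 i
    positivity
  have haα : (κ (p a₀)).1 = diagonal α := by
    rw [hM a₀ ha₀A]
    congr 1
    ext i
    rw [ha₀, pow_two, hmul _ a₁.2 _ a₁.2, hαdef]
    ring
  have hwt : ∀ i k, wt α i k = 2 * (Real.log |κ (p a₁.1) i i| - Real.log |κ (p a₁.1) k k|) := by
    intro i k
    simp only [wt, hαdef, Real.log_pow, Real.log_abs]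
    push_cast
    ring
  have hreg : ∀ b ∈ A, ∃ β : Fin n → ℝ, (κ (p b)).1 = diagonal β ∧
      ∀ l : ℝ, ∃ c : ℝ, ∀ i k, wt α i k = l → β i = c * β k := by
    intro b hb
    refine ⟨fun i => κ (p b) i i, hM b hb, fun l => ?_⟩
    by_cases hex : ∃ q : Fin n × Fin n, wt α q.1 q.2 = l
    · obtain ⟨q, hq⟩ := hex
      refine ⟨κ (p b) q.1 q.1 / κ (p b) q.2 q.2, fun i k hik => ?_⟩
      have h1 : χ (i, k, q.1, q.2) a₁ = 1 := by
        show Multiplicative.ofAdd _ = Multiplicative.ofAdd 0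
        congr 1
        rw [hwt] at hik hq
        simp only
        linarith
      have h2 := ha₁ _ h1
      have h3 := hclass i k q.1 q.2 (fun a ha => by
        have h4 : Multiplicative.ofAdd _ = Multiplicative.ofAdd (0 : ℝ) := h2 ⟨a, ha⟩
        have h5 := Multiplicative.ofAdd.injective h4
        simp only at h5
        have hi := abs_pos.2 (hne a ha i)
        have hk := abs_pos.2 (hne a ha k)
        have hq1 := abs_pos.2 (hne a ha q.1)
        have hq2 := abs_pos.2 (hne a ha q.2)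
        rw [abs_mul, abs_mul]
        apply Real.log_injOn_pos (Set.mem_Ioi.2 (by positivity)) (Set.mem_Ioi.2 (by positivity))
        rw [Real.log_mul hi.ne' hq2.ne', Real.log_mul hk.ne' hq1.ne']
        linarith) b hb
      have h6 := hne b hb q.2
      field_simp
      rw [h3]
      ring
    · refine ⟨0, fun i k hik => absurd ⟨(i, k), hik⟩ hex⟩
  -- the inverse direction
  have hα' : ∀ i, 0 < (fun i => (α i)⁻¹) i := fun i => inv_pos.2 (hα i)
  have haα' : (κ (p a₀⁻¹)).1 = diagonal (fun i => (α i)⁻¹) := by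
    have h1 : (κ (p a₀)).1 * (κ (p a₀⁻¹)).1 = 1 := by
      have : κ (p a₀) * κ (p a₀⁻¹) = 1 := by rw [← map_mul, ← map_mul, mul_inv_cancel, map_one, map_one]
      exact congrArg Subtype.val this
    rw [hM _ (inv_mem ha₀A)] at h1 ⊢
    rw [haα, diagonal_mul_diagonal, ← diagonal_one] at h1
    have h2 := diagonal_injective h1
    congr 1
    ext i
    have h3 := congrFun h2 i
    exact eq_inv_of_mul_eq_one_right h3
  have hreg' : ∀ b ∈ A, ∃ β : Fin n → ℝ, (κ (p b)).1 = diagonal β ∧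
      ∀ l : ℝ, ∃ c : ℝ, ∀ i k, wt (fun i => (α i)⁻¹) i k = l → β i = c * β k := by
    intro b hb
    obtain ⟨β, h1, h2⟩ := hreg b hb
    refine ⟨β, h1, fun l => ?_⟩
    obtain ⟨c, hc⟩ := h2 (-l)
    refine ⟨c, fun i k hik => hc i k ?_⟩
    rw [wt_inv] at hik
    linarith
  -- first step
  obtain ⟨u, huS, hu1, hulow⟩ := pos_part κ j p hκ hj hjp A μ hμ herg a₀ ha₀A α hα haα hreg F hF hF0 g
    hg hTVF
  have tvS : ∀ u : ℕ → L, Tendsto u atTop (𝓝 1) → (∀ k, j (u k) ∈ stb (G := G) μ) →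
      TVto atTop (fun k => j (u k)) (μ.restrict F) := fun u hu hS =>
    tv_ac _ (htend u hu) μ _ (tv_of_inv _ μ hS) hres
  have tvQ : ∀ u g : ℕ → L, TVto atTop (fun k => j (u k)) (μ.restrict F) →
      TVto atTop (fun k => j (g k)) (μ.restrict F) →
      TVto atTop (fun k => j ((u k)⁻¹ * g k)) (μ.restrict F) := by
    intro u g hu hg
    have h1 := tv_mul _ _ _ (tv_inv _ _ hu) hg
    intro ε hε
    filter_upwards [h1 ε hε] with k hk
    rw [map_mul, map_inv]
    exact hk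
  have hh1 : Tendsto (fun k => (u k)⁻¹ * g k) atTop (𝓝 1) := by
    have := hu1.inv.mul hg
    simpa using this
  have hhTV := tvQ u g (tvS u hu1 fun k => (huS k).2) hTVF
  obtain ⟨u', huS', hu1', hulow'⟩ := pos_part κ j p hκ hj hjp A μ hμ herg a₀⁻¹ (inv_mem ha₀A)
    (fun i => (α i)⁻¹) hα' haα' hreg' F hF hF0 (fun k => (u k)⁻¹ * g k) hh1 hhTV
  have hz1 : Tendsto (fun k => (u' k)⁻¹ * ((u k)⁻¹ * g k)) atTop (𝓝 1) := by
    have := hu1'.inv.mul hh1
    simpa using this
  have hzTV := tvQ u' _ (tvS u' hu1' fun k => (huS' k).2) hhTV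
  -- a small total variation excludes singularity
  have hF0' : 0 < (μ.restrict F).real Set.univ := by
    rw [measureReal_restrict_apply MeasurableSet.univ, Set.univ_inter, measureReal_def]
    exact ENNReal.toReal_pos hF0 (measure_ne_top _ _)
  filter_upwards [hulow, hulow', hzTV _ (half_pos hF0')] with k hk hk' hkTV
  set z : L := (u' k)⁻¹ * ((u k)⁻¹ * g k) with hz
  have hzlow : IsLow α (κ z) := by
    rw [hz, map_mul]
    refine IsLow.mul ?_ hk
    rw [map_inv]
    exact ((huS' k).1.inv).isLow_inv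
  have hcomm : ∀ b ∈ A, b * j z = j z * b := by
    intro b hb
    have h1 : p b * z * (p b)⁻¹ = z := by
      apply hκ.injective
      rw [map_mul, map_mul, map_inv, mul_inv_eq_iff_eq_mul]
      apply Subtype.ext
      show (κ (p b)).1 * (κ z).1 = (κ z).1 * (κ (p b)).1
      obtain ⟨β, hβ, hc⟩ := hreg b hb
      obtain ⟨c, hc⟩ := hc 0
      rw [hβ]
      ext i k'
      rw [diagonal_mul, mul_diagonal]
      by_cases h : wt α i k' = 0
      · have h2 := hc i k' h
        have h3 := hc k' k' (wt_self α k')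
        rw [← h3] at h2
        rw [h2, mul_comm]
      · have h4 : (κ z).1 i k' = 0 := by
          rcases lt_or_gt_of_ne h with h5 | h5
          · exact hk' i k' (by rw [wt_inv]; linarith)
          · exact hzlow i k' h5
        rw [h4, zero_mul, mul_zero]
    have h2 := hjp b z
    rw [h1] at h2
    exact mul_inv_eq_iff_eq_mul.1 h2
  have hzS : j z ∈ stb (G := G) μ := by
    refine commute_inv μ A hμ herg (j z) hcomm ?_
    rintro ⟨S, hS, h1, h2⟩
    rw [Measure.map_apply (meas_smul _) hS] at h1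
    have h3 := hkTV Sᶜ hS.compl
    have h4 : (μ.restrict F).real Sᶜ = 0 := by
      rw [measureReal_def, measure_mono_null (le_refl _) (hres h2), ENNReal.toReal_zero]
    have h5 : (μ.restrict F).real ((fun x => j z • x) ⁻¹' S) = 0 := by
      rw [measureReal_def, hres h1, ENNReal.toReal_zero]
    have h6 : (μ.restrict F).real ((fun x => j z • x) ⁻¹' Sᶜ) = (μ.restrict F).real Set.univ := by
      rw [Set.preimage_compl, measureReal_compl (meas_smul _ hS), h5, sub_zero]
    have h7 : (μ.restrict F).real ((fun x => j z • x) ⁻¹' Sᶜ) ≤ (μ.restrict F).real Sᶜ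
        + (μ.restrict F).real Set.univ / 2 := h3
    rw [h6, h4] at h7
    linarith
  have e : g k = u k * (u' k * z) := by rw [hz]; group
  rw [e, map_mul, map_mul]
  exact mul_mem (huS k).2 (mul_mem (huS' k).2 hzS)

end Pool.Agent.Work.MP_67388f_an
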