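import Pool.Agent.Work.MP_67388f_an.TV.Main

set_option autoImplicit false

namespace Pool.Agent.Work.MP_67388f_an

open MeasureTheory Filter Topology Matrix

variable {X : Type*} [TopologicalSpace X] [LocallyCompactSpace X] [T2Space X]
  [SecondCountableTopology X] [MeasurableSpace X] [BorelSpace X]
variable {G : Type*} [Group G] [TopologicalSpace G] [IsTopologicalGroup G] [MulAction G X]
  [ContinuousSMul G X]
variable {L : Type*} [Group L] [TopologicalSpace L] [IsTopologicalGroup L]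
variable {n : ℕ}

/-- the density of an invariant measure with respect to an ergodic one is constant -/
lemma rn_const (μ ν : Measure X) [IsFiniteMeasure μ] [IsFiniteMeasure ν]
    (A : Subgroup G)
    (hμ : ∀ a ∈ A, μ.map (fun z => a • z) = μ) (hν : ∀ a ∈ A, ν.map (fun z => a • z) = ν)
    (herg : ∀ s : Set X, MeasurableSet s → (∀ a ∈ A, (fun z => a • z) ⁻¹' s =ᵐ[μ] s) →
      μ s = 0 ∨ μ sᶜ = 0) :
    ∃ c : ENNReal, ν.rnDeriv μ =ᵐ[μ] Function.const X c := by
  refine Filter.exists_eventuallyEq_const_of_forall_separating (MeasurableSet) ?_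
  intro U hU
  have hs : MeasurableSet (ν.rnDeriv μ ⁻¹' U) := (Measure.measurable_rnDeriv ν μ) hU
  have := herg (ν.rnDeriv μ ⁻¹' U) hs ?_
  · rcases this with h | h
    · right
      rw [ae_iff]
      simp only [not_not]
      exact h
    · left
      rw [ae_iff]
      exact h
  · intro a ha
    have h1 := (smul_emb (X := X) a).rnDeriv_map ν μ
    rw [hμ a ha, hν a ha] at h1
    filter_upwards [h1] with x hx
    show (ν.rnDeriv μ (a • x) ∈ U) = (ν.rnDeriv μ x ∈ U)
    rw [hx]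

/-- An ergodic measure is absolutely continuous with respect to every invariant measure that is
not singular to it. -/
lemma ac_of_erg (μ ν : Measure X) [IsFiniteMeasure μ] [IsFiniteMeasure ν]
    (A : Subgroup G)
    (hμ : ∀ a ∈ A, μ.map (fun z => a • z) = μ) (hν : ∀ a ∈ A, ν.map (fun z => a • z) = ν)
    (herg : ∀ s : Set X, MeasurableSet s → (∀ a ∈ A, (fun z => a • z) ⁻¹' s =ᵐ[μ] s) →
      μ s = 0 ∨ μ sᶜ = 0) (hns : ¬ μ ⟂ₘ ν) :
    μ ≪ ν ∧ ∃ c : ENNReal, μ.withDensity (ν.rnDeriv μ) = c • μ := by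
  obtain ⟨c, hc⟩ := rn_const μ ν A hμ hν herg
  have hdec := Measure.haveLebesgueDecomposition_add ν μ
  have hwd : μ.withDensity (ν.rnDeriv μ) = c • μ := by
    rw [withDensity_congr_ae hc]
    exact withDensity_const c
  have hc0 : c ≠ 0 := by
    intro h0
    apply hns
    rw [hwd, h0, zero_smul, add_zero] at hdec
    rw [hdec]
    exact (Measure.mutuallySingular_singularPart ν μ).symm
  refine ⟨?_, c, hwd⟩
  intro s hs
  rw [hdec, hwd] at hs
  have h1 : (c • μ) s = 0 := by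
    rw [Measure.add_apply] at hs
    exact (add_eq_zero.1 hs).2
  rw [Measure.smul_apply, smul_eq_mul, mul_eq_zero] at h1
  exact h1.resolve_left hc0

/-- Two measures, ergodic under `A` and `B`, both invariant under both groups, are equal or
singular. -/
theorem eq_of_erg (μ ν : Measure X) [IsProbabilityMeasure μ] [IsProbabilityMeasure ν]
    (A B : Subgroup G)
    (hμ : ∀ a ∈ A, μ.map (fun z => a • z) = μ) (hν : ∀ a ∈ A, ν.map (fun z => a • z) = ν)
    (hμ' : ∀ a ∈ B, μ.map (fun z => a • z) = μ) (hν' : ∀ a ∈ B, ν.map (fun z => a • z) = ν)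
    (herg : ∀ s : Set X, MeasurableSet s → (∀ a ∈ A, (fun z => a • z) ⁻¹' s =ᵐ[μ] s) →
      μ s = 0 ∨ μ sᶜ = 0)
    (herg' : ∀ s : Set X, MeasurableSet s → (∀ a ∈ B, (fun z => a • z) ⁻¹' s =ᵐ[ν] s) →
      ν s = 0 ∨ ν sᶜ = 0) (hns : ¬ μ ⟂ₘ ν) : μ = ν := by
  obtain ⟨h1, c, hc⟩ := ac_of_erg μ ν A hμ hν herg hns
  obtain ⟨h2, -⟩ := ac_of_erg ν μ B hν' hμ' herg' (fun h => hns h.symm)
  have h3 : μ.withDensity (ν.rnDeriv μ) = ν := Measure.withDensity_rnDeriv_eq ν μ h2
  rw [hc] at h3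
  have h4 : c = 1 := by
    have := congrArg (fun m => m Set.univ) h3
    simpa using this
  rw [h4, one_smul] at h3
  exact h3

/-- `A` consists of elements with diagonal image and is of class `𝒜`: a character
`λ_i λ_s / (λ_k λ_r)` of absolute value one on `A` is trivial on `A`. -/
def ClassA (ρ : G →* SpecialLinearGroup (Fin n) ℝ) (A : Subgroup G) : Prop :=
  (∀ a ∈ A, ∀ i k, i ≠ k → ρ a i k = 0) ∧
  ∀ i k r s, (∀ a ∈ A, |ρ a i i * ρ a s s| = |ρ a k k * ρ a r r|) →
    ∀ a ∈ A, ρ a i i * ρ a s s = ρ a k k * ρ a r r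

/-- A finite measure, invariant under a one-parameter subgroup of `L`, and not singular to the
ergodic measure `μ`: then `μ` is invariant as well. -/
theorem oneparam_inv (κ : L →* SpecialLinearGroup (Fin n) ℝ) (j : L →* G) (p : G →* L)
    (hκ : IsClosedEmbedding κ) (hj : Continuous j)
    (hjp : ∀ (g : G) (u : L), g * j u * g⁻¹ = j (p g * u * (p g)⁻¹))
    (A : Subgroup G) (hA : ClassA (κ.comp p) A) (μ : Measure X) [IsProbabilityMeasure μ]
    (hμ : ∀ a ∈ A, μ.map (fun z => a • z) = μ)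
    (herg : ∀ s : Set X, MeasurableSet s → (∀ a ∈ A, (fun z => a • z) ⁻¹' s =ᵐ[μ] s) →
      μ s = 0 ∨ μ sᶜ = 0)
    (F : Set X) (hF : μ F ≠ 0)
    (c : ℝ → L) (hc : Tendsto c (𝓝 0) (𝓝 1))
    (hTV : TVto (𝓝 (0 : ℝ)) (fun t => j (c t)) (μ.restrict F)) :
    ∀ᶠ t in 𝓝 (0 : ℝ), j (c t) ∈ stb (G := G) μ := by
  rw [Filter.eventually_iff_seq_eventually]
  intro t ht
  refine tv_rigid_abs κ j p hκ hj hjp A μ hμ herg hA.1 hA.2 (μ.restrict F) ?_ (fun k => c (t k))
    (hc.comp ht) ?_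
  · intro h
    obtain ⟨s, hs, h1, h2⟩ := h
    apply hF
    rw [Measure.restrict_apply hs.compl] at h2
    refine measure_mono_null (t := s ∪ (sᶜ ∩ F)) ?_ (measure_union_null h1 h2)
    intro x hx
    by_cases h : x ∈ s
    · exact Or.inl h
    · exact Or.inr ⟨h, hx⟩
  · intro ε hε
    exact ht.eventually (hTV ε hε)

/-- A subgroup element set of `ℝ` containing a neighbourhood of `0` and closed under multiples. -/
lemma oneparam_all (S : Subgroup G) (b : ℝ → G) (hadd : ∀ s t, b (s + t) = b s * b t)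
    (h : ∀ᶠ t in 𝓝 (0 : ℝ), b t ∈ S) (t : ℝ) : b t ∈ S := by
  have h1 : Tendsto (fun N : ℕ => t / N) atTop (𝓝 0) := tendsto_const_div_atTop_nhds_zero_nat t
  obtain ⟨N, hN, hN0⟩ := ((h1.eventually h).and (eventually_gt_atTop 0)).exists
  have h0 : b 0 = 1 := by
    have := hadd 0 0
    rw [add_zero] at this
    exact (mul_eq_left.1 this.symm)
  have h2 : ∀ k : ℕ, b (k * (t / N)) = b (t / N) ^ k := by
    intro k
    induction k with
    | zero => simp [h0]
    | succ k ih => rw [pow_succ, ← ih, ← hadd]; congr 1; push_cast; ring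
  have h3 : (N : ℝ) * (t / N) = t := by
    have : (N : ℝ) ≠ 0 := by positivity
    field_simp
  rw [← h3, h2]
  exact pow_mem hN N

/-- A one-parameter subgroup of `L` leaving invariant a finite measure that is not singular to
`μ` leaves `μ` invariant. -/
theorem nonsing_inv (κ : L →* SpecialLinearGroup (Fin n) ℝ) (j : L →* G) (p : G →* L)
    (hκ : IsClosedEmbedding κ) (hj : Continuous j)
    (hjp : ∀ (g : G) (u : L), g * j u * g⁻¹ = j (p g * u * (p g)⁻¹))
    (A : Subgroup G) (hA : ClassA (κ.comp p) A) (μ : Measure X) [IsProbabilityMeasure μ]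
    (hμ : ∀ a ∈ A, μ.map (fun z => a • z) = μ)
    (herg : ∀ s : Set X, MeasurableSet s → (∀ a ∈ A, (fun z => a • z) ⁻¹' s =ᵐ[μ] s) →
      μ s = 0 ∨ μ sᶜ = 0)
    (ν : Measure X) [IsFiniteMeasure ν] (hns : ¬ μ ⟂ₘ ν)
    (b : ℝ → L) (hb : Continuous b) (hadd : ∀ s t, b (s + t) = b s * b t)
    (hν : ∀ t, ν.map (fun z => j (b t) • z) = ν) (t : ℝ) : j (b t) ∈ stb (G := G) μ := by
  obtain ⟨F, hF, hF0, hac⟩ := exists_ac_part μ ν hns
  have h0 : b 0 = 1 := by
    have := hadd 0 0
    rw [add_zero] at this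
    exact (mul_eq_left.1 this.symm)
  have hb0 : Tendsto b (𝓝 0) (𝓝 1) := by
    rw [← h0]; exact hb.tendsto 0
  have hjb : Tendsto (fun t => j (b t)) (𝓝 0) (𝓝 1) := by
    have := (hj.tendsto 1).comp hb0
    rwa [map_one] at this
  refine oneparam_all (stb (G := G) μ) (fun t => j (b t)) (fun s t => by rw [hadd, map_mul]) ?_ t
  refine oneparam_inv κ j p hκ hj hjp A hA μ hμ herg F hF0 b hb0 ?_
  exact tv_ac _ hjb ν _ (tv_of_inv _ ν hν) hac

/-- A translate of `μ` that is not singular to a measure invariant under a one-parameter subgroup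
of `A` is invariant under this subgroup. -/
theorem conj_oneparam (κ : L →* SpecialLinearGroup (Fin n) ℝ) (j : L →* G) (p : G →* L)
    (hκ : IsClosedEmbedding κ) (hj : Continuous j)
    (hjp : ∀ (g : G) (u : L), g * j u * g⁻¹ = j (p g * u * (p g)⁻¹)) (hp : Continuous p)
    (hpj : ∀ u, p (j u) = u)
    (A : Subgroup G) (hA : ClassA (κ.comp p) A) (μ : Measure X) [IsProbabilityMeasure μ]
    (hμ : ∀ a ∈ A, μ.map (fun z => a • z) = μ)
    (herg : ∀ s : Set X, MeasurableSet s → (∀ a ∈ A, (fun z => a • z) ⁻¹' s =ᵐ[μ] s) →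
      μ s = 0 ∨ μ sᶜ = 0)
    (a : ℝ → G) (ha : Continuous a) (hadd : ∀ s t, a (s + t) = a s * a t) (haA : ∀ t, a t ∈ A)
    (ν : Measure X) [IsFiniteMeasure ν] (hν : ∀ t, ν.map (fun z => a t • z) = ν) (g : G)
    (hg : ∀ t, (a t)⁻¹ * g⁻¹ * a t * g ∈ j.range)
    (hns : ¬ (μ.map (fun z => g • z)) ⟂ₘ ν) (t : ℝ) :
    (μ.map (fun z => g • z)).map (fun z => a t • z) = μ.map (fun z => g • z) := by
  have h0 : a 0 = 1 := by
    have := hadd 0 0
    rw [add_zero] at this
    exact (mul_eq_left.1 this.symm)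
  have ha0 : Tendsto a (𝓝 0) (𝓝 1) := by
    rw [← h0]; exact ha.tendsto 0
  set ν' : Measure X := ν.map (fun z => (g)⁻¹ • z) with hν'
  have hns' : ¬ μ ⟂ₘ ν' := by
    rintro ⟨s, hs, h1, h2⟩
    apply hns
    refine ⟨(fun z => (g)⁻¹ • z) ⁻¹' s, meas_smul _ hs, ?_, ?_⟩
    · rw [Measure.map_apply (meas_smul _) (meas_smul _ hs)]
      have : (fun z : X => g • z) ⁻¹' ((fun z => (g)⁻¹ • z) ⁻¹' s) = s := by
        ext z; simp
      rw [this]; exact h1
    · rw [hν', Measure.map_apply (meas_smul _) hs.compl] at h2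
      exact h2
  obtain ⟨F, hF, hF0, hac⟩ := exists_ac_part μ ν' hns'
  have hres : (μ.restrict F) ≪ μ := Measure.restrict_le_self.absolutelyContinuous
  -- the conjugated group
  set h : ℝ → G := fun t => (g)⁻¹ * a t * g with hh
  have hh0 : Tendsto h (𝓝 0) (𝓝 1) := by
    have := (tendsto_const_nhds (x := (g)⁻¹)).mul ha0 |>.mul (tendsto_const_nhds (x := g))
    simpa using this
  have hhν : ∀ t, ν'.map (fun z => h t • z) = ν' := by
    intro t
    rw [hν', map_map_smul]
    have : h t * (g)⁻¹ = (g)⁻¹ * a t := by rw [hh]; group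
    rw [this, ← map_map_smul, hν t]
  have hTVh : TVto (𝓝 (0 : ℝ)) h (μ.restrict F) := tv_ac _ hh0 ν' _ (tv_of_inv _ ν' hhν) hac
  have hTVa : TVto (𝓝 (0 : ℝ)) a (μ.restrict F) :=
    tv_ac _ ha0 μ _ (tv_of_inv _ μ fun t => hμ _ (haA t)) hres
  have hTV := tv_mul _ _ _ (tv_inv _ _ hTVa) hTVh
  set c : ℝ → L := fun t => p ((a t)⁻¹ * g⁻¹ * a t * g) with hc
  have hcj : ∀ t, (a t)⁻¹ * h t = j (c t) := by
    intro t
    obtain ⟨u, hu⟩ := hg t
    have h1 : j (c t) = (a t)⁻¹ * g⁻¹ * a t * g := by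
      rw [hc]
      simp only
      rw [← hu, hpj]
    rw [h1, hh]
    group
  have hc0 : Tendsto c (𝓝 0) (𝓝 1) := by
    have h1 : Tendsto (fun t => (a t)⁻¹ * g⁻¹ * a t * g) (𝓝 0) (𝓝 1) := by
      have := ((ha0.inv.mul (tendsto_const_nhds (x := g⁻¹))).mul ha0).mul
        (tendsto_const_nhds (x := g))
      simpa using this
    have := (hp.tendsto 1).comp h1
    rwa [map_one] at this
  have hTVc : TVto (𝓝 (0 : ℝ)) (fun t => j (c t)) (μ.restrict F) := by
    intro ε hε
    filter_upwards [hTV ε hε] with t ht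
    rw [← hcj]
    exact ht
  have key := oneparam_inv κ j p hκ hj hjp A hA μ hμ herg F hF0 c hc0 hTVc
  have key2 : ∀ t, h t ∈ stb (G := G) μ := by
    refine oneparam_all (stb (G := G) μ) h (fun s t => ?_) ?_
    · rw [hh]
      simp only
      rw [hadd]
      group
    · filter_upwards [key] with t ht
      rw [← hcj] at ht
      have := mul_mem (show a t ∈ stb (G := G) μ from hμ _ (haA t)) ht
      rwa [mul_inv_cancel_left] at this
  have h1 := key2 t
  rw [map_map_smul]
  have h2 : a t * g = g * h t := by rw [hh]; group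
  rw [h2, ← map_map_smul, mem_stb.1 h1]

/-- The one-parameter subgroups contained in `A` generate `A`. -/
def GenOne (A : Subgroup G) : Prop :=
  ∀ S : Subgroup G, (∀ a : ℝ → G, Continuous a → (∀ s t, a (s + t) = a s * a t) →
    (∀ t, a t ∈ A) → ∀ t, a t ∈ S) → A ≤ S

/-- zero-one law -/
theorem zero_one_law (κ : L →* SpecialLinearGroup (Fin n) ℝ) (j : L →* G) (p : G →* L)
    (hκ : IsClosedEmbedding κ) (hj : Continuous j)
    (hjp : ∀ (g : G) (u : L), g * j u * g⁻¹ = j (p g * u * (p g)⁻¹)) (hp : Continuous p)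
    (hpj : ∀ u, p (j u) = u)
    (A : Subgroup G) (hA : ClassA (κ.comp p) A) (hgen : GenOne A)
    (μ : Measure X) [IsProbabilityMeasure μ]
    (hμ : ∀ a ∈ A, μ.map (fun z => a • z) = μ)
    (herg : ∀ s : Set X, MeasurableSet s → (∀ a ∈ A, (fun z => a • z) ⁻¹' s =ᵐ[μ] s) →
      μ s = 0 ∨ μ sᶜ = 0) (g : G)
    (hg : ∀ a ∈ A, a⁻¹ * g⁻¹ * a * g ∈ j.range) :
    μ.map (fun z => g • z) = μ ∨ (μ.map (fun z => g • z)) ⟂ₘ μ := by
  by_cases hns : (μ.map (fun z => g • z)) ⟂ₘ μ
  · exact Or.inr hns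
  refine Or.inl ?_
  have : IsProbabilityMeasure (μ.map (fun z => g • z)) :=
    Measure.isProbabilityMeasure_map (meas_smul _).aemeasurable
  -- both translates are invariant
  have hj' : ∀ (g : G) (u : G), u ∈ j.range → g * u * g⁻¹ ∈ j.range := by
    rintro g _ ⟨u, rfl⟩
    exact ⟨_, (hjp g u).symm⟩
  have h1 : ∀ g' : G, (∀ a ∈ A, a⁻¹ * g'⁻¹ * a * g' ∈ j.range) →
      ¬ (μ.map (fun z => g' • z)) ⟂ₘ μ → ∀ a ∈ A,
      (μ.map (fun z => g' • z)).map (fun z => a • z) = μ.map (fun z => g' • z) := by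
    intro g' hg' hns'
    refine hgen (stb (G := G) (μ.map (fun z => g' • z))) ?_
    intro a ha hadd haA t
    exact conj_oneparam κ j p hκ hj hjp hp hpj A hA μ hμ herg a ha hadd haA μ
      (fun t => hμ _ (haA t)) g' (fun t => hg' _ (haA t)) hns' t
  have hg2 : ∀ a ∈ A, a⁻¹ * g⁻¹⁻¹ * a * g⁻¹ ∈ j.range := by
    intro a ha
    -- conjugate of the inverse of the commutator with `a⁻¹`
    have h1 := hj' g _ (inv_mem (hg a ha))
    have h2 : g * (a⁻¹ * g⁻¹ * a * g)⁻¹ * g⁻¹ = a⁻¹ * g⁻¹⁻¹ * a * g⁻¹ := by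
      group
    rwa [h2] at h1
  have hns2 : ¬ (μ.map (fun z => g⁻¹ • z)) ⟂ₘ μ := by
    rintro ⟨s, hs, h1, h2⟩
    apply hns
    refine ⟨((fun z => g⁻¹ • z) ⁻¹' s)ᶜ, (meas_smul _ hs).compl, ?_, ?_⟩
    · rw [Measure.map_apply (meas_smul _) (meas_smul _ hs).compl]
      have : (fun z : X => g • z) ⁻¹' ((fun z => g⁻¹ • z) ⁻¹' s)ᶜ = sᶜ := by
        ext z; simp
      rw [this]; exact h2
    · rw [compl_compl]
      rw [Measure.map_apply (meas_smul _) hs] at h1
      exact h1
  obtain ⟨hac1, c, hc⟩ := ac_of_erg μ (μ.map (fun z => g • z)) A hμ (h1 g hg hns) herg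
    (fun h => hns h.symm)
  obtain ⟨hac2, -⟩ := ac_of_erg μ (μ.map (fun z => g⁻¹ • z)) A hμ (h1 g⁻¹ hg2 hns2) herg
    (fun h => hns2 h.symm)
  -- `μ ≪ l⁻¹ μ` gives `l μ ≪ μ`
  have hac3 : (μ.map (fun z => g • z)) ≪ μ := by
    have := hac2.map (meas_smul (X := X) (g))
    rw [map_map_smul] at this
    simpa using this
  have h3 : μ.withDensity ((μ.map (fun z => g • z)).rnDeriv μ) = μ.map (fun z => g • z) :=
    Measure.withDensity_rnDeriv_eq _ μ hac3
  rw [hc] at h3
  have h4 : c = 1 := by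
    have := congrArg (fun m => m Set.univ) h3
    simpa using this
  rw [h4, one_smul] at h3
  exact h3.symm

/-- A family of pairwise singular measures, all of them not singular to one finite measure, is
countable. -/
lemma countable_family {ι : Type*} (m : ι → Measure X) [∀ i, IsFiniteMeasure (m i)]
    (hpair : ∀ i k, i ≠ k → m i ⟂ₘ m k) (ν : Measure X) [IsFiniteMeasure ν]
    (h : ∀ i, ¬ m i ⟂ₘ ν) : Countable ι := by
  choose F hF hF0 hac using fun i => exists_ac_part ν (m i) (fun hh => h i hh.symm)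
  have hdisj : Pairwise (Function.onFun (AEDisjoint ν) F) := by
    intro i k hik
    obtain ⟨s, hs, h1, h2⟩ := hpair i k hik
    have e1 := hac i h1
    have e2 := hac k h2
    rw [Measure.restrict_apply hs] at e1
    rw [Measure.restrict_apply hs.compl] at e2
    refine measure_mono_null (t := (s ∩ F i) ∪ (sᶜ ∩ F k)) ?_ (measure_union_null e1 e2)
    intro x hx
    by_cases hxs : x ∈ s
    · exact Or.inl ⟨hxs, hx.1⟩
    · exact Or.inr ⟨hxs, hx.2⟩
  have h1 := Measure.countable_meas_pos_of_disjoint_iUnion₀ (μ := ν) (As := F)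
    (fun i => (hF i).nullMeasurableSet) hdisj
  have h2 : {i | 0 < ν (F i)} = Set.univ := by
    ext i
    simp only [Set.mem_ofPred_eq, Set.mem_univ, iff_true]
    exact pos_iff_ne_zero.2 (hF0 i)
  rw [h2] at h1
  exact Set.countable_univ_iff.1 h1

/-- Translates along a one-parameter group: from the zero-one law, either the measure is invariant
or only countably many translates are nonsingular to a given finite measure. -/
theorem countable_of_zero_one (μ : Measure X) [IsProbabilityMeasure μ] (b : ℝ → G)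
    (hb : Continuous b) (hadd : ∀ s t, b (s + t) = b s * b t)
    (hzo : ∀ t, μ.map (fun z => b t • z) = μ ∨ (μ.map (fun z => b t • z)) ⟂ₘ μ) :
    (∀ t, μ.map (fun z => b t • z) = μ) ∨
      ∀ ν : Measure X, IsFiniteMeasure ν → {t | ¬ (μ.map (fun z => b t • z)) ⟂ₘ ν}.Countable := by
  classical
  have h0 : b 0 = 1 := by
    have := hadd 0 0
    rw [add_zero] at this
    exact (mul_eq_left.1 this.symm)
  have hneg : ∀ t, b (-t) = (b t)⁻¹ := by
    intro t
    rw [eq_inv_iff_mul_eq_one, ← hadd, neg_add_cancel, h0]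
  let S : AddSubgroup ℝ :=
    { carrier := {t | b t ∈ stb (G := G) μ}
      zero_mem' := by
        show b 0 ∈ stb (G := G) μ
        rw [h0]; exact one_mem _
      add_mem' := by
        intro s t hs ht
        show b (s + t) ∈ stb (G := G) μ
        rw [hadd]; exact mul_mem hs ht
      neg_mem' := by
        intro t ht
        show b (-t) ∈ stb (G := G) μ
        rw [hneg]; exact inv_mem ht }
  have hmem : ∀ t, t ∈ S ↔ b t ∈ stb (G := G) μ := fun t => Iff.rfl
  have hScl : IsClosed (S : Set ℝ) := (stb_closed (G := G) μ).preimage hb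
  rcases AddSubgroup.dense_or_cyclic S with hd | ⟨a, ha⟩
  · refine Or.inl fun t => ?_
    have : (S : Set ℝ) = Set.univ := by rw [← hScl.closure_eq]; exact hd.closure_eq
    have ht : t ∈ (S : Set ℝ) := by rw [this]; exact Set.mem_univ t
    exact mem_stb.1 ht
  · refine Or.inr fun ν hν => ?_
    have hScount : (S : Set ℝ).Countable := by
      rw [ha, ← AddSubgroup.zmultiples_eq_closure]
      have : ((AddSubgroup.zmultiples a : AddSubgroup ℝ) : Set ℝ)
          = Set.range (fun k : ℤ => k • a) := by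
        ext x; simp [AddSubgroup.mem_zmultiples_iff]
      rw [this]
      exact Set.countable_range _
    set T : Set ℝ := {t | ¬ (μ.map (fun z => b t • z)) ⟂ₘ ν} with hT
    -- the set of cosets
    set Q : Set (ℝ ⧸ S) := (fun t : ℝ => (t : ℝ ⧸ S)) '' T with hQ
    have hrep : ∀ q : Q, ∃ t ∈ T, (t : ℝ ⧸ S) = q.1 := fun q => q.2
    choose r hrT hr using hrep
    have hcQ : Countable Q := by
      have : ∀ q : Q, IsFiniteMeasure (μ.map (fun z => b (r q) • z)) := fun q =>
        Measure.isFiniteMeasure_map _ _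
      refine countable_family (fun q : Q => μ.map (fun z => b (r q) • z)) ?_ ν (fun q => hrT q)
      intro q q' hqq
      have h1 : ¬ (-r q' + r q ∈ S) := by
        intro h
        apply hqq
        apply Subtype.ext
        rw [← hr q, ← hr q']
        exact ((QuotientAddGroup.eq).2 h).symm
      rcases hzo (-r q' + r q) with h2 | h2
      · exact absurd h2 h1
      · obtain ⟨s, hs, e1, e2⟩ := h2
        refine ⟨(fun z => b (-r q') • z) ⁻¹' s, meas_smul _ hs, ?_, ?_⟩
        · rw [Measure.map_apply (meas_smul _) hs] at e1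
          rw [Measure.map_apply (meas_smul _) (meas_smul _ hs)]
          have : (fun z : X => b (r q) • z) ⁻¹' ((fun z => b (-r q') • z) ⁻¹' s)
              = (fun z : X => b (-r q' + r q) • z) ⁻¹' s := by
            ext z
            simp only [Set.mem_preimage, smul_smul, ← hadd]
          rw [this]; exact e1
        · rw [← Set.preimage_compl, Measure.map_apply (meas_smul _) (meas_smul _ hs.compl)]
          have : (fun z : X => b (r q') • z) ⁻¹' ((fun z => b (-r q') • z) ⁻¹' sᶜ) = sᶜ := by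
            ext z
            simp only [Set.mem_preimage, smul_smul, ← hadd, neg_add_cancel, h0, one_smul]
          rw [this]; exact e2
    have hTsub : T ⊆ ⋃ q : Q, (fun s => r q + s) '' (S : Set ℝ) := by
      intro t ht
      have hq : ((t : ℝ ⧸ S)) ∈ Q := ⟨t, ht, rfl⟩
      refine Set.mem_iUnion.2 ⟨⟨_, hq⟩, ?_⟩
      refine ⟨-r ⟨_, hq⟩ + t, ?_, by simp⟩
      exact (QuotientAddGroup.eq).1 (hr ⟨_, hq⟩)
    refine Set.Countable.mono hTsub (Set.countable_iUnion fun q => hScount.image _)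

/-- A diagonal group generated by one-parameter groups has positive entries. -/
lemma gen_pos (ρ : G →* SpecialLinearGroup (Fin n) ℝ) (A : Subgroup G) (hgen : GenOne A)
    (hdiag : ∀ a ∈ A, ∀ i k, i ≠ k → ρ a i k = 0) : ∀ a ∈ A, ∀ i, 0 < ρ a i i := by
  have hM : ∀ a ∈ A, (ρ a).1 = diagonal (fun i => ρ a i i) := by
    intro a ha
    ext i k
    by_cases h : i = k
    · subst h; rw [diagonal_apply_eq]
    · rw [diagonal_apply_ne _ h]; exact hdiag a ha i k h
  have hne : ∀ a ∈ A, ∀ i, ρ a i i ≠ 0 := by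
    intro a ha i
    have h2 := (ρ a).2
    rw [hM a ha, det_diagonal] at h2
    have h3 : ∏ i, (fun i => ρ a i i) i ≠ 0 := by
      rw [h2]; exact one_ne_zero
    exact Finset.prod_ne_zero_iff.1 h3 i (Finset.mem_univ i)
  have hmul : ∀ a ∈ A, ∀ b ∈ A, ∀ i, ρ (a * b) i i = ρ a i i * ρ b i i := by
    intro a ha b hb i
    have h1 : (ρ (a * b)).1 = (ρ a).1 * (ρ b).1 := by
      rw [map_mul]; rfl
    have h2 := congrFun (congrFun h1 i) i
    rw [hM a ha, hM b hb, diagonal_mul_diagonal, diagonal_apply_eq] at h2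
    exact h2
  let S : Subgroup G :=
    { carrier := {g | g ∈ A ∧ ∀ i, 0 < ρ g i i}
      one_mem' := ⟨one_mem _, fun i => by
        rw [map_one]
        have : ((1 : SpecialLinearGroup (Fin n) ℝ) : Matrix (Fin n) (Fin n) ℝ) i i = 1 := by simp
        show 0 < ((1 : SpecialLinearGroup (Fin n) ℝ) : Matrix (Fin n) (Fin n) ℝ) i i
        rw [this]; exact one_pos⟩
      mul_mem' := by
        intro a b ha hb
        refine ⟨mul_mem ha.1 hb.1, fun i => ?_⟩
        rw [hmul a ha.1 b hb.1]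
        exact mul_pos (ha.2 i) (hb.2 i)
      inv_mem' := by
        intro a ha
        refine ⟨inv_mem ha.1, fun i => ?_⟩
        have h1 := hmul a ha.1 a⁻¹ (inv_mem ha.1) i
        rw [mul_inv_cancel, map_one] at h1
        have h2 : ((1 : SpecialLinearGroup (Fin n) ℝ) : Matrix (Fin n) (Fin n) ℝ) i i = 1 := by simp
        have h3 : ρ a i i * ρ a⁻¹ i i = 1 := by rw [← h1]; exact h2
        have h4 := ha.2 i
        by_contra hcon
        push Not at hcon
        have := mul_nonpos_of_nonneg_of_nonpos h4.le hcon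
        linarith }
  have hAS : A ≤ S := by
    refine hgen S ?_
    intro a _ hadd haA t
    refine ⟨haA t, fun i => ?_⟩
    have h1 : a t = a (t / 2) * a (t / 2) := by rw [← hadd, add_halves]
    rw [h1, hmul _ (haA _) _ (haA _)]
    exact mul_self_pos.2 (hne _ (haA _) i)
  exact fun a ha => (hAS ha).2

lemma classA_of_gen (ρ : G →* SpecialLinearGroup (Fin n) ℝ) (A : Subgroup G) (hgen : GenOne A)
    (hdiag : ∀ a ∈ A, ∀ i k, i ≠ k → ρ a i k = 0) : ClassA ρ A := by
  have hpos := gen_pos ρ A hgen hdiag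
  refine ⟨hdiag, fun i k r s h a ha => ?_⟩
  have h1 := h a ha
  rwa [abs_of_pos (mul_pos (hpos a ha i) (hpos a ha s)),
    abs_of_pos (mul_pos (hpos a ha k) (hpos a ha r))] at h1

lemma genOne_map (j : L →* G) (hj : Continuous j) (A : Subgroup L) (hgen : GenOne A) :
    GenOne (A.map j) := by
  intro S hS
  rw [Subgroup.map_le_iff_le_comap]
  refine hgen _ ?_
  intro a ha hadd haA t
  exact hS (fun t => j (a t)) (hj.comp ha) (fun s t => by rw [hadd, map_mul])
    (fun t => Subgroup.mem_map_of_mem j (haA t)) t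

/-- Ergodic measures of two connected diagonalizable groups are equal or singular. -/
theorem equal_or_singular (κ : L →* SpecialLinearGroup (Fin n) ℝ) (j : L →* G) (p : G →* L)
    (hκ : IsClosedEmbedding κ) (hj : Continuous j)
    (hjp : ∀ (g : G) (u : L), g * j u * g⁻¹ = j (p g * u * (p g)⁻¹)) (hpj : ∀ u, p (j u) = u)
    (A B : Subgroup L) (hgenA : GenOne A) (hgenB : GenOne B)
    (x y : SpecialLinearGroup (Fin n) ℝ)
    (hA : ∀ a ∈ A, ∀ i k, i ≠ k → (x * κ a * x⁻¹) i k = 0)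
    (hB : ∀ b ∈ B, ∀ i k, i ≠ k → (y * κ b * y⁻¹) i k = 0)
    (μ ν : Measure X) [IsProbabilityMeasure μ] [IsProbabilityMeasure ν]
    (hμ : ∀ a ∈ A, μ.map (fun z => j a • z) = μ) (hν : ∀ b ∈ B, ν.map (fun z => j b • z) = ν)
    (hμe : ∀ s : Set X, MeasurableSet s → (∀ a ∈ A, (fun z => j a • z) ⁻¹' s =ᵐ[μ] s) →
      μ s = 0 ∨ μ sᶜ = 0)
    (hνe : ∀ s : Set X, MeasurableSet s → (∀ b ∈ B, (fun z => j b • z) ⁻¹' s =ᵐ[ν] s) →
      ν s = 0 ∨ ν sᶜ = 0) : μ = ν ∨ μ ⟂ₘ ν := by
  by_cases hns : μ ⟂ₘ ν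
  · exact Or.inr hns
  refine Or.inl ?_
  have key : ∀ (A B : Subgroup L), GenOne A → GenOne B → ∀ x : SpecialLinearGroup (Fin n) ℝ,
      (∀ a ∈ A, ∀ i k, i ≠ k → (x * κ a * x⁻¹) i k = 0) → ∀ (μ ν : Measure X),
      IsProbabilityMeasure μ → IsProbabilityMeasure ν → (∀ a ∈ A, μ.map (fun z => j a • z) = μ) →
      (∀ b ∈ B, ν.map (fun z => j b • z) = ν) →
      (∀ s : Set X, MeasurableSet s → (∀ a ∈ A, (fun z => j a • z) ⁻¹' s =ᵐ[μ] s) →
      μ s = 0 ∨ μ sᶜ = 0) → ¬ μ ⟂ₘ ν → ∀ b ∈ B, μ.map (fun z => j b • z) = μ := by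
    intro A B hgenA hgenB x hA μ ν _ _ hμ hν hμe hns
    let κ' : L →* SpecialLinearGroup (Fin n) ℝ := (MulAut.conj x).toMonoidHom.comp κ
    have hκ' : IsClosedEmbedding κ' :=
      ((Homeomorph.mulLeft x).trans (Homeomorph.mulRight x⁻¹)).isClosedEmbedding.comp hκ
    have hκv : ∀ l, κ' l = x * κ l * x⁻¹ := fun l => rfl
    have hAj : ClassA (κ'.comp p) (A.map j) := by
      refine classA_of_gen _ _ (genOne_map j hj A hgenA) ?_
      rintro _ ⟨a, ha, rfl⟩ i k hik
      rw [MonoidHom.comp_apply, hpj, hκv]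
      exact hA a ha i k hik
    have hb := hgenB ((stb (G := G) μ).comap j) ?_
    · exact fun b hbB => mem_stb.1 (hb hbB)
    · intro b hb hadd hbB t
      refine nonsing_inv κ' j p hκ' hj hjp (A.map j) hAj μ ?_ ?_ ν hns b hb hadd
        (fun t => hν _ (hbB t)) t
      · rintro _ ⟨a, ha, rfl⟩
        exact hμ a ha
      · intro s hs h
        exact hμe s hs fun a ha => h _ ⟨a, ha, rfl⟩
  have h1 := key A B hgenA hgenB x hA μ ν inferInstance inferInstance hμ hν hμe hns
  have h2 := key B A hgenB hgenA y hB ν μ inferInstance inferInstance hν hμ hνe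
    (fun h => hns h.symm)
  refine eq_of_erg μ ν (A.map j) (B.map j) ?_ ?_ ?_ ?_ ?_ ?_ hns
  · rintro _ ⟨a, ha, rfl⟩
    exact hμ a ha
  · rintro _ ⟨a, ha, rfl⟩
    exact h2 a ha
  · rintro _ ⟨a, ha, rfl⟩
    exact h1 a ha
  · rintro _ ⟨a, ha, rfl⟩
    exact hν a ha
  · intro s hs h
    exact hμe s hs fun a ha => h _ ⟨a, ha, rfl⟩
  · intro s hs h
    exact hνe s hs fun a ha => h _ ⟨a, ha, rfl⟩

end Pool.Agent.Work.MP_67388f_an
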