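import Pool.Agent.Work.MP_67388f_an.TV.Defs
import Pool.Agent.Work.MP_67388f_an.Cartan

set_option autoImplicit false

namespace Pool.Agent.Work.MP_67388f_an

open MeasureTheory Filter Topology

section general

variable {X : Type*} [TopologicalSpace X] [LocallyCompactSpace X] [T2Space X]
  [SecondCountableTopology X] [MeasurableSpace X] [BorelSpace X]
variable {G : Type*} [Group G] [TopologicalSpace G] [IsTopologicalGroup G] [MulAction G X]
  [ContinuousSMul G X]

omit [LocallyCompactSpace X] [T2Space X] [SecondCountableTopology X] [TopologicalSpace X]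
  [BorelSpace X] in
/-- Two finite measures, one at most `e` above the other, give almost the same integrals. -/
theorem int_le_of_le (r s : Measure X) [IsFiniteMeasure r] [IsFiniteMeasure s] (e D : ℝ)
    (h : ∀ E : Set X, MeasurableSet E → r.real E ≤ s.real E + e) (ψ : X → ℝ) (hψ : Measurable ψ)
    (h0 : ∀ x, 0 ≤ ψ x) (hD : ∀ x, ψ x ≤ D) (hD0 : 0 ≤ D) :
    ∫ x, ψ x ∂r ≤ ∫ x, ψ x ∂s + D * e := by
  obtain ⟨P, hP⟩ := exists_isHahnDecomposition s r
  have hPm := hP.measurableSet
  have hint : ∀ m : Measure X, IsFiniteMeasure m → Integrable ψ m := by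
    intro m hm
    refine Integrable.of_bound (C := D) hψ.aestronglyMeasurable ?_
    refine Eventually.of_forall fun x => ?_
    rw [Real.norm_eq_abs, abs_of_nonneg (h0 x)]
    exact hD x
  have hint2 : ∀ m : Measure X, IsFiniteMeasure m → Integrable (fun x => D - ψ x) m :=
    fun m hm => (integrable_const D).sub (hint m hm)
  rw [← integral_add_compl hPm (hint r inferInstance), ← integral_add_compl hPm (hint s inferInstance)]
  have h1 : ∫ x in Pᶜ, ψ x ∂r ≤ ∫ x in Pᶜ, ψ x ∂s :=
    integral_mono_measure hP.ge_on_compl (Eventually.of_forall h0) (hint s inferInstance).integrableOn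
  have h2 : ∫ x in P, (D - ψ x) ∂s ≤ ∫ x in P, (D - ψ x) ∂r :=
    integral_mono_measure hP.le_on (Eventually.of_forall fun x => sub_nonneg.2 (hD x))
      (hint2 r inferInstance).integrableOn
  rw [integral_sub (integrable_const D) (hint s inferInstance).integrableOn,
    integral_sub (integrable_const D) (hint r inferInstance).integrableOn] at h2
  simp only [integral_const, measureReal_restrict_apply MeasurableSet.univ, Set.univ_inter,
    smul_eq_mul] at h2
  have h3 := mul_le_mul_of_nonneg_left (h P hPm) hD0
  nlinarith

omit [LocallyCompactSpace X] [T2Space X] [SecondCountableTopology X] [TopologicalSpace G]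
  [IsTopologicalGroup G] [ContinuousSMul G X] in
/-- Bounded functions are nearly preserved. -/
theorem tv_fun [ContinuousConstSMul G X] {ι : Type*} {l : Filter ι} (g : ι → G) (m : Measure X)
    [IsFiniteMeasure m]
    (hg : TVto l g m) (ψ : ι → X → ℝ) (hψ : ∀ k, Measurable (ψ k)) (C : ℝ)
    (hC : ∀ k x, |ψ k x| ≤ C) :
    Tendsto (fun k => ∫ x, ψ k (g k • x) ∂m - ∫ x, ψ k x ∂m) l (𝓝 0) := by
  have hmeas : ∀ k, Measurable (fun z : X => g k • z) := fun k =>
    (continuous_const_smul (g k)).measurable
  rw [Metric.tendsto_nhds]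
  intro e he
  set D : ℝ := 2 * |C| + 1 with hD
  have hD0 : 0 < D := by positivity
  have h1 := hg (e / (2 * D)) (by positivity)
  filter_upwards [h1] with k hk
  have hfin : IsFiniteMeasure (m.map (fun z => g k • z)) := Measure.isFiniteMeasure_map _ _
  have hreal : ∀ E : Set X, MeasurableSet E →
      (m.map (fun z => g k • z)).real E = m.real ((fun z => g k • z) ⁻¹' E) := by
    intro E hE
    rw [measureReal_def, Measure.map_apply (hmeas k) hE, measureReal_def]
  have huniv : (m.map (fun z => g k • z)).real Set.univ = m.real Set.univ := by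
    rw [hreal _ MeasurableSet.univ, Set.preimage_univ]
  have hb : ∀ x, 0 ≤ ψ k x + |C| ∧ ψ k x + |C| ≤ D := by
    intro x
    have h2 := abs_le.1 (hC k x)
    have h3 : C ≤ |C| := le_abs_self C
    constructor
    · linarith [h2.1]
    · linarith [h2.2]
  have hm' : Measurable (fun x => ψ k x + |C|) := (hψ k).add_const _
  have hint : ∀ m' : Measure X, IsFiniteMeasure m' → Integrable (ψ k) m' := by
    intro m' hm''
    refine Integrable.of_bound (C := |C|) (hψ k).aestronglyMeasurable ?_
    refine Eventually.of_forall fun x => ?_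
    rw [Real.norm_eq_abs]
    exact (hC k x).trans (le_abs_self C)
  have i1 := int_le_of_le (m.map (fun z => g k • z)) m (e / (2 * D)) D
    (fun E hE => by rw [hreal E hE]; exact hk E hE) _ hm' (fun x => (hb x).1) (fun x => (hb x).2)
    hD0.le
  have i2 := int_le_of_le m (m.map (fun z => g k • z)) (e / (2 * D)) D
    (fun E hE => by
      rw [hreal E hE]
      have h4 := hk Eᶜ hE.compl
      rw [Set.preimage_compl, measureReal_compl ((hmeas k) hE), measureReal_compl hE] at h4
      linarith) _ hm' (fun x => (hb x).1) (fun x => (hb x).2) hD0.le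
  rw [integral_add (hint _ inferInstance) (integrable_const _),
    integral_add (hint _ inferInstance) (integrable_const _)] at i1 i2
  simp only [integral_const, smul_eq_mul, huniv] at i1 i2
  have e1 : ∫ x, ψ k x ∂(m.map (fun z => g k • z)) = ∫ x, ψ k (g k • x) ∂m :=
    integral_map (hmeas k).aemeasurable (hψ k).aestronglyMeasurable
  rw [e1] at i1 i2
  have e2 : D * (e / (2 * D)) = e / 2 := by field_simp
  rw [e2] at i1 i2
  rw [Real.dist_eq, sub_zero, abs_lt]
  constructor <;> linarith

/-- The test function criterion for invariance. -/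
theorem map_eq_iff_test (μ : Measure X) [IsProbabilityMeasure μ] (g : G) :
    μ.map (fun z => g • z) = μ ↔
      ∀ θ : C(X, ℝ), HasCompactSupport θ → ∫ x, θ (g • x) ∂μ = ∫ x, θ x ∂μ := by
  have hmeas : Measurable (fun z : X => g • z) := (continuous_const_smul g).measurable
  constructor
  · intro h θ _
    exact integral_inv h θ
  · intro h
    have hprob : IsProbabilityMeasure (μ.map (fun z => g • z)) :=
      Measure.isProbabilityMeasure_map hmeas.aemeasurable
    apply Measure.ext_of_integral_eq_on_compactlySupported
    intro f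
    have h1 : ∫ x, f x ∂(μ.map (fun z => g • z)) = ∫ x, f (g • x) ∂μ :=
      integral_map hmeas.aemeasurable f.continuous.measurable.aestronglyMeasurable
    rw [h1]
    exact h f.toContinuousMap f.hasCompactSupport

end general

end Pool.Agent.Work.MP_67388f_an
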