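import Pool.Agent.Work.MP_67388f_an.TV.Up

set_option autoImplicit false

namespace Pool.Agent.Work.MP_67388f_an

open MeasureTheory Filter Topology Matrix

variable {n : ℕ}

/-- entries of a product of matrices with weights at least `a` and at least `b` -/
lemma gr_mul (α : Fin n → ℝ) {M N : Matrix (Fin n) (Fin n) ℝ} {a b : ℝ}
    (hM : ∀ i j, wt α i j < a → M i j = 0) (hN : ∀ i j, wt α i j < b → N i j = 0) :
    ∀ i j, wt α i j < a + b → (M * N) i j = 0 := by
  intro i j hij
  rw [mul_apply]
  apply Finset.sum_eq_zero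
  intro k _
  by_cases h : wt α i k < a
  · rw [hM i k h, zero_mul]
  · have h2 : wt α k j < b := by
      have := wt_add α i k j
      linarith
    rw [hN k j h2, mul_zero]

lemma gr_pow (α : Fin n → ℝ) {X : Matrix (Fin n) (Fin n) ℝ} {l : ℝ}
    (hX : ∀ i j, wt α i j < l → X i j = 0) (r : ℕ) :
    ∀ i j, wt α i j < r * l → (X ^ r) i j = 0 := by
  induction r with
  | zero =>
    intro i j hij
    rw [pow_zero, one_apply_ne]
    rintro rfl
    rw [wt_self] at hij
    simp at hij
  | succ r ih =>
    intro i j hij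
    rw [pow_succ]
    refine gr_mul α ih hX i j ?_
    push_cast at hij
    linarith

lemma gr_pow_hom (α : Fin n → ℝ) {Y : Matrix (Fin n) (Fin n) ℝ} {l : ℝ}
    (hY : ∀ i j, wt α i j ≠ l → Y i j = 0) (r : ℕ) :
    ∀ i j, wt α i j ≠ r * l → (Y ^ r) i j = 0 := by
  induction r with
  | zero =>
    intro i j hij
    rw [pow_zero, one_apply_ne]
    rintro rfl
    rw [wt_self] at hij
    simp at hij
  | succ r ih =>
    intro i j hij
    rw [pow_succ, mul_apply]
    apply Finset.sum_eq_zero
    intro k _
    by_cases h : wt α i k = r * l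
    · have h2 : wt α k j ≠ l := by
        intro h2
        apply hij
        rw [wt_add α i k j, h, h2]
        push_cast
        ring
      rw [hY k j h2, mul_zero]
    · rw [ih i k h, zero_mul]

/-- the lowest component of a power -/
lemma gr_pow_lead (α : Fin n → ℝ) {X Y : Matrix (Fin n) (Fin n) ℝ} {l : ℝ}
    (hX : ∀ i j, wt α i j < l → X i j = 0)
    (hY : ∀ i j, Y i j = if wt α i j = l then X i j else 0) (r : ℕ) :
    ∀ i j, wt α i j = r * l → (X ^ r) i j = (Y ^ r) i j := by
  have hY0 : ∀ i j, wt α i j ≠ l → Y i j = 0 := fun i j h => by rw [hY, if_neg h]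
  induction r with
  | zero =>
    intro i j _
    rw [pow_zero, pow_zero]
  | succ r ih =>
    intro i j hij
    rw [pow_succ, pow_succ, mul_apply, mul_apply]
    refine Finset.sum_congr rfl fun k _ => ?_
    have hadd := wt_add α i k j
    push_cast at hij
    rcases lt_trichotomy (wt α i k) (r * l) with h | h | h
    · rw [gr_pow α hX r i k h, gr_pow_hom α hY0 r i k (ne_of_lt h), zero_mul, zero_mul]
    · have h2 : wt α k j = l := by linarith
      rw [ih i k h, hY k j, if_pos h2]
    · have h2 : wt α k j < l := by linarith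
      rw [hX k j h2, hY0 k j (ne_of_lt h2), mul_zero, mul_zero]

/-- nilpotency of a strictly graded matrix -/
lemma gr_nil (α : Fin n → ℝ) {X : Matrix (Fin n) (Fin n) ℝ}
    (hX : ∀ i j, wt α i j ≤ 0 → X i j = 0) (r : ℕ) (hr : n ≤ r) : X ^ r = 0 := by
  classical
  let ρ : Fin n → ℕ := fun i =>
    (Finset.univ.filter fun k : Fin n => Real.log (α k) < Real.log (α i)).card
  have hρ : ∀ i, ρ i < n := by
    intro i
    have h1 : (Finset.univ.filter fun k : Fin n => Real.log (α k) < Real.log (α i)) ⊂
        Finset.univ := by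
      rw [Finset.ssubset_univ_iff]
      intro h
      have h2 : i ∈ (Finset.univ.filter fun k : Fin n => Real.log (α k) < Real.log (α i)) := by
        rw [h]; exact Finset.mem_univ i
      exact lt_irrefl _ (Finset.mem_filter.1 h2).2
    have h3 := Finset.card_lt_card h1
    rwa [Finset.card_univ, Fintype.card_fin] at h3
  have hstep : ∀ i k, X i k ≠ 0 → ρ k < ρ i := by
    intro i k h
    have h1 : 0 < wt α i k := by
      by_contra hc
      exact h (hX i k (not_lt.1 hc))
    have h2 : Real.log (α k) < Real.log (α i) := by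
      unfold wt at h1; linarith
    apply Finset.card_lt_card
    refine ⟨?_, ?_⟩
    · intro s hs
      rw [Finset.mem_filter] at hs ⊢
      exact ⟨hs.1, hs.2.trans h2⟩
    · intro hsub
      have h3 : k ∈ (Finset.univ.filter fun s : Fin n => Real.log (α s) < Real.log (α k)) :=
        hsub (Finset.mem_filter.2 ⟨Finset.mem_univ _, h2⟩)
      exact lt_irrefl _ (Finset.mem_filter.1 h3).2
  have hpow : ∀ (r : ℕ) (i k : Fin n), (X ^ r) i k ≠ 0 → ρ k + r ≤ ρ i := by
    intro r
    induction r with
    | zero =>
      intro i k h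
      rw [pow_zero] at h
      have : i = k := by
        by_contra hne
        exact h (one_apply_ne hne)
      rw [this, add_zero]
    | succ r ih =>
      intro i k h
      rw [pow_succ, mul_apply] at h
      obtain ⟨s, -, hs⟩ := Finset.exists_ne_zero_of_sum_ne_zero h
      have h1 := ih i s (left_ne_zero_of_mul hs)
      have h2 := hstep s k (right_ne_zero_of_mul hs)
      omega
  ext i k
  rw [Matrix.zero_apply]
  by_contra h
  have h1 := hpow r i k h
  have h2 := hρ i
  omega

lemma gr_expo (Y : Matrix (Fin n) (Fin n) ℝ) (hY : Y ^ n = 0) (x : ℝ) :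
    expo Y x = IsNilpotent.exp (x • Y) := by
  have h1 : (x • Y) ^ n = 0 := by rw [smul_pow, hY, smul_zero]
  rw [IsNilpotent.exp_eq_sum h1]
  unfold expo
  refine Finset.sum_congr rfl fun j _ => ?_
  rw [smul_pow, ← Rat.cast_smul_eq_qsmul ℝ, smul_smul]
  congr 1
  push_cast
  rw [div_eq_inv_mul]

end Pool.Agent.Work.MP_67388f_an
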