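import Pool.Agent.Work.MP_67388f_an.TV.Defs
import Pool.Agent.Work.MP_67388f_an.Share

set_option autoImplicit false

namespace Pool.Agent.Work.MP_67388f_an

open MeasureTheory Filter Topology Matrix

section tva_layer

variable {X : Type*} [MeasurableSpace X]

/-- layer cake comparison -/
private lemma tva_layer (ν : Measure X) [IsFiniteMeasure ν] (T : X → X) (hT : Measurable T)
    (δ C : ℝ) (hC : 0 ≤ C)
    (hδ : ∀ E : Set X, MeasurableSet E → ν.real (T ⁻¹' E) ≤ ν.real E + δ)
    (F : X → ℝ) (hF : Measurable F) (h0 : ∀ x, 0 ≤ F x) (h1 : ∀ x, F x ≤ C) :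
    ∫ x, F (T x) ∂ν ≤ ∫ x, F x ∂ν + C * δ := by
  have hi : Integrable F ν := by
    refine Integrable.of_bound (C := C) hF.aestronglyMeasurable ?_
    refine Eventually.of_forall fun z => ?_
    rw [Real.norm_eq_abs, abs_of_nonneg (h0 z)]
    exact h1 z
  have hi2 : Integrable (fun x => F (T x)) ν := by
    refine Integrable.of_bound (C := C) (hF.comp hT).aestronglyMeasurable ?_
    refine Eventually.of_forall fun z => ?_
    rw [Real.norm_eq_abs, abs_of_nonneg (h0 _)]
    exact h1 _
  rw [hi.integral_eq_integral_Ioc_meas_le (M := C) (Eventually.of_forall h0)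
    (Eventually.of_forall h1), hi2.integral_eq_integral_Ioc_meas_le (M := C)
    (Eventually.of_forall fun x => h0 _) (Eventually.of_forall fun x => h1 _)]
  have hanti : ∀ f : X → ℝ, Antitone (fun t : ℝ => ν.real {a : X | t ≤ f a}) := by
    intro f s t hst
    exact measureReal_mono (fun a ha => le_trans hst ha)
  have hint : ∀ f : X → ℝ, IntegrableOn (fun t : ℝ => ν.real {a : X | t ≤ f a})
      (Set.Ioc 0 C) volume := by
    intro f
    refine (Integrable.of_bound (C := ν.real Set.univ)
      (hanti f).measurable.aestronglyMeasurable ?_)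
    refine Eventually.of_forall fun z => ?_
    rw [Real.norm_eq_abs, abs_of_nonneg measureReal_nonneg]
    exact measureReal_mono (Set.subset_univ _)
  have hc : ∫ t in Set.Ioc (0 : ℝ) C, δ = C * δ := by
    rw [setIntegral_const]
    simp [hC]
  rw [← hc, ← integral_add (hint F) (integrable_const δ)]
  refine setIntegral_mono_on (hint _) ((hint F).add (integrable_const δ)) measurableSet_Ioc ?_
  intro t _
  exact hδ {a | t ≤ F a} (measurableSet_le measurable_const hF)

end tva_layer

section tva_general

variable {X : Type*} [TopologicalSpace X] [LocallyCompactSpace X] [T2Space X]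
  [SecondCountableTopology X] [MeasurableSpace X] [BorelSpace X]
variable {G : Type*} [Group G] [TopologicalSpace G] [IsTopologicalGroup G] [MulAction G X]
  [ContinuousSMul G X]

/-- Convergence in total variation passes to absolutely continuous measures. -/
theorem tv_ac {ι : Type*} {l : Filter ι} (g : ι → G) (hg : Tendsto g l (𝓝 1)) (ν m : Measure X)
    [IsFiniteMeasure ν] [IsFiniteMeasure m] (hν : TVto l g ν) (hac : m ≪ ν) : TVto l g m := by
  classical
  intro ε hε
  set h : X → ℝ := fun x => (m.rnDeriv ν x).toReal with hh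
  have hhi : Integrable h ν := Measure.integrable_toReal_rnDeriv
  have hh0 : ∀ x, 0 ≤ h x := fun x => ENNReal.toReal_nonneg
  have hm : ∀ E : Set X, MeasurableSet E → m.real E = ∫ x in E, h x ∂ν := by
    intro E _
    rw [Measure.setIntegral_toReal_rnDeriv hac]
  obtain ⟨ψ, hψs, hψe, hψc, hψi⟩ := hhi.exists_hasCompactSupport_integral_sub_le
    (ε := ε / 8) (by positivity)
  -- positive part
  set p : X → ℝ := fun x => max (ψ x) 0 with hp
  have hpc : Continuous p := hψc.max continuous_const
  have hps : HasCompactSupport p := by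
    refine hψs.mono ?_
    intro x hx
    simp only [hp, Function.mem_support] at hx ⊢
    intro h0
    exact hx (by simp [h0])
  have hp0 : ∀ x, 0 ≤ p x := fun x => le_max_right _ _
  obtain ⟨C, hC⟩ := hpc.bounded_above_of_compact_support hps
  have hC' : ∀ x, p x ≤ C := fun x => (le_abs_self _).trans (hC x)
  have hpi : Integrable p ν := hpc.integrable_of_hasCompactSupport hps
  have hpe : ∫ x, |h x - p x| ∂ν ≤ ε / 8 := by
    refine le_trans (integral_mono (hhi.sub hpi).abs (hhi.sub hψi).norm ?_) hψe
    intro x
    simp only [hp, Real.norm_eq_abs]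
    have := abs_max_sub_max_le_abs (h x) (ψ x) 0
    rwa [max_eq_left (hh0 x)] at this
  have hCn : (0 : ℝ) ≤ max C 0 := le_max_right _ _
  set D : ℝ := max C 0 + 1 with hD
  have hDpos : 0 < D := by positivity
  have hpD : ∀ x, p x ≤ D := fun x => (hC' x).trans (by rw [hD]; linarith [le_max_left C 0])
  -- choose parameters
  have hη : 0 < ε / (8 * (ν.real Set.univ + 1)) := by
    have : 0 ≤ ν.real Set.univ := measureReal_nonneg
    positivity
  have hu := hg.eventually (unif_action (G := G) ⟨p, hpc⟩ hps _ hη)
  have hδ := hν (ε / (8 * D)) (by positivity)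
  filter_upwards [hu, hδ] with k hk1 hk2 E hE
  have hTm : Measurable (fun z : X => g k • z) := smul_measurable (g k)
  have hpre : MeasurableSet ((fun z : X => g k • z) ⁻¹' E) := hTm hE
  -- close m and p ν
  have hclose : ∀ A : Set X, MeasurableSet A → |m.real A - ∫ x in A, p x ∂ν| ≤ ε / 8 := by
    intro A hA
    rw [hm A hA, ← integral_sub hhi.integrableOn hpi.integrableOn]
    refine (abs_integral_le_integral_abs).trans ?_
    refine le_trans ?_ hpe
    exact setIntegral_le_integral (hhi.sub hpi).abs (Eventually.of_forall fun x => abs_nonneg _)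
  have e1 := abs_le.1 (hclose _ hpre)
  have e2 := abs_le.1 (hclose _ hE)
  -- compare
  have hF : ∫ x in (fun z : X => g k • z) ⁻¹' E, p x ∂ν
      ≤ ∫ x, (E.indicator p) (g k • x) ∂ν + ε / 8 := by
    rw [← integral_indicator hpre]
    have hi1 : Integrable (fun x => E.indicator p (g k • x)) ν := by
      refine Integrable.of_bound (C := D)
        ((hpc.measurable.indicator hE).comp hTm).aestronglyMeasurable ?_
      refine Eventually.of_forall fun z => ?_
      rw [Real.norm_eq_abs, abs_of_nonneg (Set.indicator_nonneg (fun x _ => hp0 x) _)]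
      exact Set.indicator_le' (fun x _ => hpD x) (fun x _ => hDpos.le) _
    have hη2 : ν.real Set.univ * (ε / (8 * (ν.real Set.univ + 1))) ≤ ε / 8 := by
      have h0 : 0 ≤ ν.real Set.univ := measureReal_nonneg
      rw [mul_div_assoc', div_le_div_iff₀ (by positivity) (by norm_num)]
      nlinarith
    calc ∫ x, ((fun z : X => g k • z) ⁻¹' E).indicator p x ∂ν
        ≤ ∫ x, (E.indicator p (g k • x) + ε / (8 * (ν.real Set.univ + 1))) ∂ν := by
          refine integral_mono (hpi.indicator hpre) (hi1.add (integrable_const _)) ?_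
          intro x
          by_cases hx : g k • x ∈ E
          · have hx' : x ∈ (fun z : X => g k • z) ⁻¹' E := hx
            simp only [Set.indicator_of_mem hx, Set.indicator_of_mem hx']
            have := (abs_lt.1 (hk1 x)).1
            simp only [ContinuousMap.coe_mk] at this
            linarith
          · have hx' : x ∉ (fun z : X => g k • z) ⁻¹' E := hx
            simp only [Set.indicator_of_notMem hx, Set.indicator_of_notMem hx']
            linarith
      _ = ∫ x, E.indicator p (g k • x) ∂ν
          + ν.real Set.univ * (ε / (8 * (ν.real Set.univ + 1))) := by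
          rw [integral_add hi1 (integrable_const _), integral_const, smul_eq_mul]
      _ ≤ _ := by linarith
  have hL := tva_layer ν (fun z : X => g k • z) hTm (ε / (8 * D)) D hDpos.le hk2
    (E.indicator p) (hpc.measurable.indicator hE)
    (fun x => Set.indicator_nonneg (fun x _ => hp0 x) _)
    (fun x => Set.indicator_le' (fun x _ => hpD x) (fun x _ => hDpos.le) _)
  rw [integral_indicator hE] at hL
  have hDe : D * (ε / (8 * D)) = ε / 8 := by
    field_simp
  rw [hDe] at hL
  linarith [e1.1, e1.2, e2.1, e2.2]

theorem tv_mul {ι : Type*} {l : Filter ι} (g h : ι → G) (m : Measure X) [IsFiniteMeasure m]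
    (hg : TVto l g m) (hh : TVto l h m) : TVto l (fun k => g k * h k) m := by
  intro ε hε
  filter_upwards [hg (ε / 2) (by positivity), hh (ε / 2) (by positivity)] with k h1 h2 E hE
  have hTm : Measurable (fun z : X => g k • z) := smul_measurable (g k)
  have e1 := h1 E hE
  have e2 := h2 _ (hTm hE)
  have : (fun z : X => (g k * h k) • z) ⁻¹' E
      = (fun z : X => h k • z) ⁻¹' ((fun z : X => g k • z) ⁻¹' E) := by
    ext x
    simp [mul_smul]
  rw [this]
  linarith

theorem tv_inv {ι : Type*} {l : Filter ι} (g : ι → G) (m : Measure X) [IsFiniteMeasure m]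
    (hg : TVto l g m) : TVto l (fun k => (g k)⁻¹) m := by
  intro ε hε
  filter_upwards [hg ε hε] with k h1 E hE
  have hTm : Measurable (fun z : X => (g k)⁻¹ • z) := smul_measurable (g k)⁻¹
  have e1 := h1 _ (hTm hE.compl)
  have : (fun z : X => g k • z) ⁻¹' ((fun z : X => (g k)⁻¹ • z) ⁻¹' Eᶜ) = Eᶜ := by
    ext x
    simp
  rw [this, Set.preimage_compl, measureReal_compl hE, measureReal_compl (hTm hE)] at e1
  linarith

theorem tv_of_inv {ι : Type*} {l : Filter ι} (g : ι → G) (m : Measure X) [IsFiniteMeasure m]
    (hg : ∀ k, m.map (fun z => g k • z) = m) : TVto l g m := by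
  intro ε hε
  refine Eventually.of_forall fun k E hE => ?_
  have hTm : Measurable (fun z : X => g k • z) := smul_measurable (g k)
  have : m.real ((fun z : X => g k • z) ⁻¹' E) = m.real E := by
    conv_rhs => rw [← hg k]
    rw [measureReal_def, measureReal_def, Measure.map_apply hTm hE]
  rw [this]
  linarith

end tva_general

end Pool.Agent.Work.MP_67388f_an
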